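import Pool.Agent.T2h61.CH.Stm
import Pool.Agent.W540.CH.ChAux

/-!
# Calegari–Geraghty for `GL_2` over number fields: B9 (the auxiliary cyclotomic extension)
-/

set_option autoImplicit false

open NumberField IsDedekindDomain IntermediateField

noncomputable section

namespace Pool.Agent.T2h61.CH.TAUX

theorem finrank_eq (L L' : Type) [Field L] [NumberField L] [Field L']
    [NumberField L'] [Algebra L L'] (q : ℕ) [hq : Fact q.Prime]
    [IsCyclotomicExtension {q} L L'] (hqL : ¬ (q : ℤ) ∣ discr L) :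
    Module.finrank ℚ L' = Module.finrank ℚ L * (q - 1) := by
  have hζ := IsCyclotomicExtension.zeta_spec q L L'
  set ζ := IsCyclotomicExtension.zeta q L L'
  have h2 : IsCyclotomicExtension {q} ℚ ℚ⟮ζ⟯ := hζ.intermediateField_adjoin_isCyclotomicExtension ℚ
  have h1 : IsGalois ℚ ℚ⟮ζ⟯ := IsCyclotomicExtension.isGalois {q} ℚ _
  have hcop : IsCoprime (discr ℚ⟮ζ⟯) (discr (Pool.Agent.W540.CH.F1 L L')) := by
    rw [← discr_eq_discr_of_algEquiv L (Pool.Agent.W540.CH.e1 L L'),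
      IsCyclotomicExtension.Rat.discr_prime q ℚ⟮ζ⟯]
    have hp : Prime (q : ℤ) := Nat.prime_iff_prime_int.1 hq.out
    have h3 : IsCoprime (discr L) (q : ℤ) := by
      rw [isCoprime_comm]
      exact (Prime.coprime_iff_not_dvd hp).2 hqL
    refine IsCoprime.symm (IsCoprime.mul_right ?_ (h3.pow_right))
    exact (isCoprime_one_right.neg_right).pow_right
  have hld := linearDisjoint_of_isGalois_isCoprime_discr L' ℚ⟮ζ⟯ (Pool.Agent.W540.CH.F1 L L') hcop
  have h4 := hld.finrank_sup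
  rw [sup_comm, Pool.Agent.W540.CH.sup_eq_top hζ, IntermediateField.finrank_top',
    ← (Pool.Agent.W540.CH.e1 L L').toLinearEquiv.finrank_eq,
    IsCyclotomicExtension.Rat.finrank q ℚ⟮ζ⟯, Nat.totient_prime hq.out, mul_comm] at h4
  exact h4

theorem bij {F L L' : Type} [Field F] [NumberField F] [Field L] [NumberField L] [Field L']
    [NumberField L'] [Algebra F L] [Algebra L L'] [Algebra F L'] [IsScalarTower F L L']
    [IsGalois F L] [IsGalois F L'] {q : ℕ} [hq : Fact q.Prime]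
    [IsCyclotomicExtension {q} L L'] (hqL : ¬ (q : ℤ) ∣ discr L) {ζ : L'}
    (hζ : IsPrimitiveRoot ζ q) :
    Function.Bijective ((AlgEquiv.restrictNormalHom (F := F) (K₁ := L') L).prod
      (hζ.autToPow F)) := by
  have hinj : Function.Injective ((AlgEquiv.restrictNormalHom (F := F) (K₁ := L') L).prod
      (hζ.autToPow F)) := by
    rw [injective_iff_map_eq_one]
    intro σ hσ
    rw [MonoidHom.prod_apply, Prod.mk_eq_one] at hσ
    obtain ⟨h1, h2⟩ := hσ
    have h3 : σ ζ = ζ := by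
      rw [← hζ.autToPow_spec F σ, h2, Units.val_one, ZMod.val_one'' hq.out.ne_one, pow_one]
    have h4 : ∀ x : L, σ (algebraMap L L' x) = algebraMap L L' x := by
      intro x
      have := AlgEquiv.restrictNormal_commutes σ L x
      change algebraMap L L' (AlgEquiv.restrictNormalHom L σ x) = _ at this
      rw [h1] at this
      exact this.symm
    let f : L' →ₐ[L] L' := { (σ : L' →+* L') with commutes' := h4 }
    have h5 : f = AlgHom.id L L' := by
      apply (hζ.powerBasis L).algHom_ext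
      rw [IsPrimitiveRoot.powerBasis_gen]
      exact h3
    ext x
    exact DFunLike.congr_fun h5 x
  apply hinj.bijective_of_nat_card_le
  have h6 := finrank_eq L L' q hqL
  rw [← Module.finrank_mul_finrank ℚ F L', ← Module.finrank_mul_finrank ℚ F L, mul_assoc] at h6
  have h7 := Nat.eq_of_mul_eq_mul_left Module.finrank_pos h6
  rw [Nat.card_prod, IsGalois.card_aut_eq_finrank, IsGalois.card_aut_eq_finrank,
    h7, Nat.card_eq_fintype_card, ZMod.card_units_eq_totient,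
    Nat.totient_prime hq.out]

/-- an embedding of a cyclic group -/
theorem exists_kappa {q N : ℕ} (hq : q.Prime) (hqN : N ∣ q - 1) :
    ∃ κ : Multiplicative (ZMod N) →* (ZMod q)ˣ, Function.Injective κ := by
  have : Fact q.Prime := ⟨hq⟩
  obtain ⟨g, hg⟩ := IsCyclic.exists_generator (α := (ZMod q)ˣ)
  have hgo : orderOf g = q - 1 := by
    rw [orderOf_eq_card_of_forall_mem_zpowers hg, Nat.card_eq_fintype_card,
      ZMod.card_units_eq_totient, Nat.totient_prime hq]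
  have hq1 : 0 < q - 1 := by have := hq.two_le; omega
  obtain ⟨d, hd⟩ := hqN
  have hd0 : d ≠ 0 := by
    rintro rfl
    rw [mul_zero] at hd
    omega
  have hs : orderOf (g ^ d) = N := by
    rw [orderOf_pow_of_dvd hd0 (by rw [hgo, hd]; exact Dvd.intro_left N rfl), hgo, hd,
      Nat.mul_div_cancel _ (Nat.pos_of_ne_zero hd0)]
  let f : ℤ →+ Additive (ZMod q)ˣ := zmultiplesHom _ (Additive.ofMul (g ^ d))
  have hf : ∀ m : ℤ, f m = Additive.ofMul ((g ^ d) ^ m) := fun m => by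
    rw [ofMul_zpow]
    rfl
  have hfN : f N = 0 := by
    rw [hf, zpow_natCast, ← hs, pow_orderOf_eq_one]
    rfl
  let κ' : ZMod N →+ Additive (ZMod q)ˣ := ZMod.lift N ⟨f, hfN⟩
  have hκ' : Function.Injective κ' := by
    rw [ZMod.lift_injective]
    intro m hm
    have h1 : Additive.ofMul ((g ^ d) ^ m) = 0 := by rw [← hf]; exact hm
    have h2 : (g ^ d) ^ m = 1 := h1
    rw [← orderOf_dvd_iff_zpow_eq_one, hs] at h2
    exact (ZMod.intCast_zmod_eq_zero_iff_dvd _ _).2 h2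
  exact ⟨AddMonoidHom.toMultiplicativeLeft κ', hκ'⟩

theorem exists_cyc (L : Type) [Field L] [NumberField L] (q : ℕ) [NeZero q] : ∃ (M : Type)
    (_ : Field M) (_ : NumberField M) (_ : Algebra L M), IsCyclotomicExtension {q} L M :=
  ⟨CyclotomicField q L, inferInstance, IsCyclotomicExtension.numberField {q} L _, inferInstance,
    inferInstance⟩

theorem step (F L : Type) [Field F] [NumberField F] [Field L] [NumberField L]
    [Algebra F L] [IsGalois F L] (N : ℕ) (hN : N ≠ 0) (B : ℕ) : ∃ (q : ℕ) (M : Type) (_ : Field M)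
    (_ : NumberField M) (_ : Algebra F M) (_ : Algebra L M) (_ : IsScalarTower F L M)
    (_ : IsGalois F M) (ζ : M) (ι : Gal(L/F) × Multiplicative (ZMod N) →* Gal(M/F)),
    q.Prime ∧ B < q ∧ IsPrimitiveRoot ζ q ∧
    (∀ y (x : L), ι y (algebraMap L M x) = algebraMap L M (y.1 x)) ∧
    ∀ y, ι y ζ = ζ → y.2 = 1 := by
  obtain ⟨q, hq, hlt, hmod⟩ := Nat.exists_prime_gt_modEq_one (k := N) (max B (discr L).natAbs) hN
  have hqf : Fact q.Prime := ⟨hq⟩
  have hqr : N ∣ q - 1 := (Nat.modEq_iff_dvd' hq.one_lt.le).1 hmod.symm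
  have hqL : ¬ (q : ℤ) ∣ discr L := by
    intro h
    have h1 := Int.natAbs_dvd_natAbs.2 h
    rw [Int.natAbs_natCast] at h1
    exact absurd (Nat.le_of_dvd (Int.natAbs_pos.2 (discr_ne_zero L)) h1)
      (not_le.2 (lt_of_le_of_lt (le_max_right _ _) hlt))
  obtain ⟨κ, hκ⟩ := exists_kappa hq hqr
  obtain ⟨M, _, hNF, _, hCy⟩ := exists_cyc L q
  let _ : Algebra F M := ((algebraMap L M).comp (algebraMap F L)).toAlgebra
  have hT : IsScalarTower F L M := IsScalarTower.of_algebraMap_eq' rfl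
  have hζ : IsPrimitiveRoot (IsCyclotomicExtension.zeta q L M) q :=
    IsCyclotomicExtension.zeta_spec q L M
  have hFM : FiniteDimensional F M := FiniteDimensional.trans F L M
  have hNorm : Normal F M := Pool.Agent.W540.CH.normal_gen F L M q _ hζ
  have hG : IsGalois F M := ⟨⟩
  have hbij := bij (F := F) (L := L) (L' := M) hqL hζ
  let θ : Gal(M/F) ≃* Gal(L/F) × (ZMod q)ˣ := MulEquiv.ofBijective _ hbij
  let ι : Gal(L/F) × Multiplicative (ZMod N) →* Gal(M/F) :=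
    θ.symm.toMonoidHom.comp (MonoidHom.prodMap (MonoidHom.id _) κ)
  have hι : ∀ y, AlgEquiv.restrictNormalHom L (ι y) = y.1 ∧ hζ.autToPow F (ι y) = κ y.2 := by
    intro y
    have h1 : θ (ι y) = (y.1, κ y.2) := θ.apply_symm_apply _
    exact ⟨congrArg Prod.fst h1, congrArg Prod.snd h1⟩
  refine ⟨q, M, inferInstance, hNF, inferInstance, inferInstance, hT, hG, _, ι, hq,
    lt_of_le_of_lt (le_max_left _ _) hlt, hζ, ?_, ?_⟩
  · intro y x
    have h1 := AlgEquiv.restrictNormal_commutes (ι y) L x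
    rw [← h1]
    congr 1
    exact DFunLike.congr_fun (hι y).1 x
  · intro y hy
    apply hκ
    rw [map_one, ← (hι y).2]
    apply Units.ext
    rw [Units.val_one, ← ZMod.natCast_zmod_val ((hζ.autToPow F (ι y) : (ZMod q)ˣ) : ZMod q)]
    have h2 := hζ.autToPow_spec F (ι y)
    rw [hy] at h2
    have h3 := hζ.pow_inj (ZMod.val_lt _) hq.one_lt (h2.trans (pow_one _).symm)
    rw [h3, Nat.cast_one]

theorem mul_coprime {M : Type} [Field M] {a b : ℕ} {x y : M} (hx : IsPrimitiveRoot x a)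
    (hy : IsPrimitiveRoot y b) (h : a.Coprime b) : IsPrimitiveRoot (x * y) (a * b) := by
  rw [hx.eq_orderOf, hy.eq_orderOf] at h ⊢
  rw [← (Commute.all x y).orderOf_mul_eq_mul_orderOf_of_coprime h]
  exact IsPrimitiveRoot.orderOf _

/-- an automorphism which fixes a power `ζ ^ d`, `d` prime to the order, fixes `ζ` -/
theorem fix_of_pow {M : Type} [Field M] {q d : ℕ} {ζ : M} (hζ : IsPrimitiveRoot ζ q)
    (hd : d.Coprime q) (σ : M →+* M) (h : σ (ζ ^ d) = ζ ^ d) : σ ζ = ζ := by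
  by_cases hq : q = 1
  · rw [hq, IsPrimitiveRoot.one_right_iff] at hζ
    rw [hζ, map_one]
  by_cases hq0 : q = 0
  · rw [hq0, Nat.coprime_zero_right] at hd
    rwa [hd, pow_one] at h
  have hq1 : 1 < q := by omega
  obtain ⟨e, -, he⟩ := Nat.exists_mul_mod_eq_one_of_coprime hd hq1
  have h1 : (ζ ^ d) ^ e = ζ := by
    rw [← pow_mul, ← Nat.div_add_mod (d * e) q, pow_add, pow_mul, hζ.pow_eq_one, one_pow, one_mul,
      he, pow_one]
  have h2 : σ ((ζ ^ d) ^ e) = (ζ ^ d) ^ e := by rw [map_pow, h]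
  rwa [h1] at h2

theorem t_AUX : S_AUX := by
  intro F L _ _ _ _ _ _ N hN
  obtain ⟨q₁, M₁, _, _, _, _, _, _, ζ₁, ι₁, hq₁, -, hζ₁, hι₁, hι₁'⟩ := step F L N hN 0
  obtain ⟨q₂, M₂, _, _, _, _, _, _, ζ₂, ι₂, hq₂, hlt₂, hζ₂, hι₂, hι₂'⟩ := step F M₁ N hN q₁
  obtain ⟨q₃, M₃, _, _, _, _, _, _, ζ₃, ι₃, hq₃, hlt₃, hζ₃, hι₃, hι₃'⟩ := step F M₂ N hN q₂
  let a1 : M₁ →+* M₂ := algebraMap M₁ M₂
  let a2 : M₂ →+* M₃ := algebraMap M₂ M₃
  let _ : Algebra L M₃ := ((a2.comp a1).comp (algebraMap L M₁)).toAlgebra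
  have hT : IsScalarTower F L M₃ := by
    refine IsScalarTower.of_algebraMap_eq fun x => ?_
    show _ = a2 (a1 (algebraMap L M₁ (algebraMap F L x)))
    rw [← IsScalarTower.algebraMap_apply F L M₁, ← IsScalarTower.algebraMap_apply F M₁ M₂,
      ← IsScalarTower.algebraMap_apply F M₂ M₃]
  let G := Gal(L/F) × (Fin 3 → Multiplicative (ZMod N))
  let pr : Fin 3 → (G →* Multiplicative (ZMod N)) := fun i =>
    (Pi.evalMonoidHom (fun _ : Fin 3 => Multiplicative (ZMod N)) i).comp (MonoidHom.snd _ _)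
  let j₁ : G →* Gal(M₁/F) := ι₁.comp ((MonoidHom.fst _ _).prod (pr 0))
  let j₂ : G →* Gal(M₂/F) := ι₂.comp (j₁.prod (pr 1))
  let j₃ : G →* Gal(M₃/F) := ι₃.comp (j₂.prod (pr 2))
  have e1 : ∀ y x, j₁ y (algebraMap L M₁ x) = algebraMap L M₁ (y.1 x) := fun y x => hι₁ _ x
  have e2 : ∀ y x, j₂ y (a1 x) = a1 (j₁ y x) := fun y x => hι₂ _ x
  have e3 : ∀ y x, j₃ y (a2 x) = a2 (j₂ y x) := fun y x => hι₃ _ x
  have hz₁ : IsPrimitiveRoot (a2 (a1 ζ₁)) q₁ :=
    (hζ₁.map_of_injective a1.injective).map_of_injective a2.injective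
  have hz₂ : IsPrimitiveRoot (a2 ζ₂) q₂ := hζ₂.map_of_injective a2.injective
  have c12 : q₁.Coprime q₂ := (Nat.coprime_primes hq₁ hq₂).2 (by omega)
  have c13 : q₁.Coprime q₃ := (Nat.coprime_primes hq₁ hq₃).2 (by omega)
  have c23 : q₂.Coprime q₃ := (Nat.coprime_primes hq₂ hq₃).2 (by omega)
  refine ⟨M₃, inferInstance, inferInstance, inferInstance, inferInstance, hT, inferInstance,
    q₁ * q₂ * q₃, a2 (a1 ζ₁) * a2 ζ₂ * ζ₃, j₃,
    mul_ne_zero (mul_ne_zero hq₁.ne_zero hq₂.ne_zero) hq₃.ne_zero, ?_, ?_, ?_⟩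
  · exact (mul_coprime (mul_coprime hz₁ hz₂ c12) hζ₃ (Nat.Coprime.mul_left c13 c23))
  · intro y x
    show j₃ y (a2 (a1 (algebraMap L M₁ x))) = a2 (a1 (algebraMap L M₁ (y.1 x)))
    rw [e3, e2, e1]
  · intro y hy
    have key : ∀ d : ℕ, j₃ y ((a2 (a1 ζ₁) * a2 ζ₂ * ζ₃) ^ d) = (a2 (a1 ζ₁) * a2 ζ₂ * ζ₃) ^ d := by
      intro d
      rw [map_pow, hy]
    have f₁ : j₃ y (a2 (a1 ζ₁)) = a2 (a1 ζ₁) := by
      refine fix_of_pow hz₁ (d := q₂ * q₃) (Nat.Coprime.mul_left c12.symm c13.symm)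
        ((j₃ y : M₃ ≃ₐ[F] M₃) : M₃ →+* M₃) ?_
      have h1 := key (q₂ * q₃)
      have h2 : (a2 (a1 ζ₁) * a2 ζ₂ * ζ₃) ^ (q₂ * q₃) = (a2 (a1 ζ₁)) ^ (q₂ * q₃) := by
        rw [mul_pow, mul_pow, pow_mul (a2 ζ₂), hz₂.pow_eq_one, one_pow, mul_comm q₂ q₃,
          pow_mul ζ₃, hζ₃.pow_eq_one, one_pow, mul_one, mul_one]
      rw [h2] at h1
      exact h1
    have f₂ : j₃ y (a2 ζ₂) = a2 ζ₂ := by
      refine fix_of_pow hz₂ (d := q₁ * q₃) (Nat.Coprime.mul_left c12 c23.symm)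
        ((j₃ y : M₃ ≃ₐ[F] M₃) : M₃ →+* M₃) ?_
      have h1 := key (q₁ * q₃)
      have h2 : (a2 (a1 ζ₁) * a2 ζ₂ * ζ₃) ^ (q₁ * q₃) = (a2 ζ₂) ^ (q₁ * q₃) := by
        rw [mul_pow, mul_pow, pow_mul (a2 (a1 ζ₁)), hz₁.pow_eq_one, one_pow, mul_comm q₁ q₃,
          pow_mul ζ₃, hζ₃.pow_eq_one, one_pow, mul_one, one_mul]
      rw [h2] at h1
      exact h1
    have f₃ : j₃ y ζ₃ = ζ₃ := by
      have h1 := hy
      rw [map_mul, map_mul, f₁, f₂] at h1
      exact mul_left_cancel₀ (mul_ne_zero (hz₁.ne_zero hq₁.ne_zero) (hz₂.ne_zero hq₂.ne_zero)) h1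
    have g₃ : y.2 2 = 1 := hι₃' _ f₃
    have f₂' : j₂ y ζ₂ = ζ₂ := a2.injective (by rw [← e3, f₂])
    have g₂ : y.2 1 = 1 := hι₂' _ f₂'
    have f₁' : j₁ y ζ₁ = ζ₁ := by
      apply a1.injective
      apply a2.injective
      rw [← e2, ← e3, f₁]
    have g₁ : y.2 0 = 1 := hι₁' _ f₁'
    funext i
    fin_cases i
    · exact g₁
    · exact g₂
    · exact g₃

end Pool.Agent.T2h61.CH.TAUX
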