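import Pool.Agent.T2h61.CH.BoBas
import Pool.Agent.T2h61.CG.T_CLS

/-!
# A3: the operators `bo` for principal ideals
-/

set_option autoImplicit false
set_option linter.unusedSectionVars false

open NumberField IsDedekindDomain Matrix

noncomputable section

namespace Pool.Agent.T2h61.CH.Bo

open Pool.Agent.T2h61.CG Pool.Agent.T2h61.CH

variable {F : Type} [Field F] [NumberField F]

/-- a section of a lattice over the second coordinate -/
theorem exists_sec {L : Submodule (𝓞 F) (Fin 2 → F)} (hL : IsLat L) :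
    ∃ b : Fin 2 → F, b 1 = 1 ∧ ∀ y ∈ L, y 1 • b ∈ L := by
  set π : (Fin 2 → F) →ₗ[F] F := LinearMap.proj 1 with hπ
  set I : Submodule (𝓞 F) F := L.map (π.restrictScalars (𝓞 F)) with hI
  have hIfg : I.FG := hL.1.map _
  have hIm : ∀ x, x ∈ I ↔ ∃ v ∈ L, v 1 = x := fun x => Submodule.mem_map
  have hI0 : I ≠ ⊥ := by
    obtain ⟨d, hd, hd'⟩ := TCLS.exists_mul_mem L hL.2 (Pi.single 1 1)
    intro h
    have h1 : (d • (Pi.single 1 1 : Fin 2 → F)) 1 ∈ I := (hIm _).2 ⟨_, hd', rfl⟩
    rw [h, Submodule.mem_bot, Pi.smul_apply, Pi.single_eq_same] at h1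
    apply hd
    apply RingOfIntegers.coe_injective (K := F)
    have h2 : d • (1 : F) = algebraMap (𝓞 F) F d := by rw [← algebraMap_smul F, smul_eq_mul, mul_one]
    rw [h2] at h1
    exact h1.trans (map_zero (algebraMap (𝓞 F) F)).symm
  obtain ⟨b, hb, hbL⟩ := TCLS.exists_section π L I hIfg hI0 fun x hx => (hIm x).1 hx
  exact ⟨b, hb, fun y hy => hbL _ ((hIm _).2 ⟨y, hy, rfl⟩)⟩

end Pool.Agent.T2h61.CH.Bo

namespace Pool.Agent.T2h61.CH.TBO3

open Pool.Agent.T2h61.CG Pool.Agent.T2h61.CH Pool.Agent.T2h61.CH.Bo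

variable {F : Type} [Field F] [NumberField F]

/-- the matrix with `D e_1 = e_1` and `D b = x b` -/
def Dm (b : Fin 2 → F) (x : F) (hx : x ≠ 0) : GL (Fin 2) F :=
  Matrix.GeneralLinearGroup.mkOfDetNeZero !![1, (x - 1) * b 0; 0, x]
    (by rw [Matrix.det_fin_two_of, one_mul, mul_zero, sub_zero]; exact hx)

theorem Dm_val (b : Fin 2 → F) (x : F) (hx : x ≠ 0) :
    (Dm b x hx).1 = !![1, (x - 1) * b 0; 0, x] := rfl

theorem Dm_mulVec (b : Fin 2 → F) (hb : b 1 = 1) (x : F) (hx : x ≠ 0) (y : Fin 2 → F) :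
    (Dm b x hx).1.mulVec y = (y - y 1 • b) + x • (y 1 • b) := by
  rw [Dm_val]
  funext i
  fin_cases i
  · show !![1, (x - 1) * b 0; 0, x].mulVec y 0 = _
    rw [Matrix.mulVec, dotProduct, Fin.sum_univ_two]
    show 1 * y 0 + (x - 1) * b 0 * y 1 = y 0 - y 1 * b 0 + x * (y 1 * b 0)
    ring
  · show !![1, (x - 1) * b 0; 0, x].mulVec y 1 = _
    rw [Matrix.mulVec, dotProduct, Fin.sum_univ_two]
    show 0 * y 0 + x * y 1 = y 1 - y 1 * b 1 + x * (y 1 * b 1)
    rw [hb]
    ring

theorem t_BO3 : S_BO3 := by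
  intro F _ _ R W _ _ _ 𝔪 x hx0 hx1 hxp φ hφ hB
  funext P
  by_cases hP : Ok 𝔪 P
  · rw [bo_pos hP]
    obtain ⟨b, hb, hbL⟩ := exists_sec hP.1
    have hxF : (x : F) ≠ 0 := by
      intro h0
      exact hx0 (RingOfIntegers.coe_injective (h0.trans (map_zero (algebraMap (𝓞 F) F)).symm))
    set D := Dm b (x : F) hxF with hD
    have hD1 : ∀ y, D.1.mulVec y = (y - y 1 • b) + (x : F) • (y 1 • b) := Dm_mulVec b hb _ hxF
    have hD0 : D.1 1 0 = 0 := rfl
    have hfl : ∀ y ∈ P.L, y - y 1 • b ∈ fl P.L := by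
      intro y hy
      refine ⟨P.L.sub_mem hy (hbL y hy), ?_⟩
      rw [Pi.sub_apply, Pi.smul_apply, hb, smul_eq_mul, mul_one, sub_self]
    have hxs : ∀ y : Fin 2 → F, (x : F) • y = x • y := fun y => rfl
    have hL : gm D P.L = fl P.L ⊔ Ideal.span {x} • P.L := by
      apply le_antisymm
      · intro w hw
        obtain ⟨y, hy, rfl⟩ := mem_gm.1 hw
        rw [hD1]
        refine Submodule.add_mem_sup (hfl y hy) ?_
        rw [hxs]
        exact Submodule.smul_mem_smul (Ideal.mem_span_singleton_self x) (hbL y hy)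
      · refine sup_le ?_ ?_
        · intro y hy
          refine mem_gm.2 ⟨y, hy.1, ?_⟩
          rw [hD1, hy.2, zero_smul, smul_zero, sub_zero, add_zero]
        · intro w hw
          rw [Submodule.ideal_span_singleton_smul] at hw
          obtain ⟨y, hy, rfl⟩ := hw
          have hy' : y ∈ P.L := hy
          refine mem_gm.2 ⟨x • (y - y 1 • b) + y 1 • b,
            P.L.add_mem (P.L.smul_mem x (hfl y hy').1) (hbL y hy'), ?_⟩
          have h1 : (x • (y - y 1 • b) + y 1 • b) 1 = y 1 := by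
            rw [Pi.add_apply, Pi.smul_apply, Pi.sub_apply, Pi.smul_apply, hb, smul_eq_mul, mul_one,
              sub_self, smul_zero, zero_add]
          rw [hD1, h1, hxs]
          show _ = x • y
          rw [smul_sub]
          abel
    have hd : D.1.det = (x : F) := by
      rw [hD, Dm_val, Matrix.det_fin_two_of, one_mul, mul_zero, sub_zero]
    have hs : ∀ w, sg D.1.det w = 1 := by
      intro w
      rw [hd]
      unfold sg
      rw [if_pos (hxp w)]
    rw [← hB D hD0 P]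
    refine hφ.eq ⟨?_, hL.symm, fun i => ?_⟩
    · funext w
      show P.s w = sg D.1.det w * P.s w
      rw [hs, one_mul]
    · show x • P.e i - D.1.mulVec (P.e i) ∈ 𝔪 • (fl P.L ⊔ Ideal.span {x} • P.L)
      rw [hD1, hxs]
      have h2 : x • P.e i - (P.e i - P.e i 1 • b + x • P.e i 1 • b) =
          (x - 1) • (P.e i - P.e i 1 • b) := by
        rw [sub_smul, one_smul, smul_sub]
        abel
      rw [h2]
      exact Submodule.smul_mono le_rfl le_sup_left (Submodule.smul_mem_smul hx1 (hfl _ (hP.2.1 i)))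
  · rw [bo_neg hP, hφ.1 P hP]

end Pool.Agent.T2h61.CH.TBO3
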