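import Pool.Agent.T2h61.CH.BoSub

/-!
# A4: the Hecke operators at the boundary
-/

set_option autoImplicit false

open NumberField IsDedekindDomain Matrix

noncomputable section

namespace Pool.Agent.T2h61.CH.Bo

open Pool.Agent.T2h61.CG Pool.Agent.T2h61.CH

section hk

variable {F : Type} [Field F] [NumberField F] {R W : Type} [CommRing R] [AddCommGroup W]
  [Module R W]

theorem hk_neg {n : ℕ} {𝔪 : Ideal (𝓞 F)} {v : HeightOneSpectrum (𝓞 F)} {j : ℕ} {a : 𝓞 F}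
    {φ : Pt F n → W} {x : Pt F n} (hx : ¬ Ok 𝔪 x) : hk R 𝔪 v j a φ x = 0 := by
  classical
  have h : ¬ (Ok 𝔪 x ∧ (Sub v j x.L).Finite) := fun h => hx h.1
  show (dite _ _ _ : W) = 0
  rw [dif_neg h]

theorem hk_pos {n : ℕ} {𝔪 : Ideal (𝓞 F)} {v : HeightOneSpectrum (𝓞 F)} {j : ℕ} {a : 𝓞 F}
    {φ : Pt F n → W} {x : Pt F n} (hx : Ok 𝔪 x) : hk R 𝔪 v j a φ x =
      ∑ L' ∈ (sub_fin hx.1 v j).toFinset, φ ⟨x.s, L', fun i => a • x.e i⟩ := by
  classical
  have h : Ok 𝔪 x ∧ (Sub v j x.L).Finite := ⟨hx, sub_fin hx.1 v j⟩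
  show (dite _ _ _ : W) = _
  rw [dif_pos h]

/-- the operator `T_{v,2}` -/
theorem hk_two {𝔪 : Ideal (𝓞 F)} {v : HeightOneSpectrum (𝓞 F)} {a : 𝓞 F}
    {φ : Pt F 2 → W} {x : Pt F 2} (hx : Ok 𝔪 x) :
    hk R 𝔪 v 2 a φ x = φ ⟨x.s, v.asIdeal • x.L, fun i => a • x.e i⟩ := by
  rw [hk_pos hx]
  have h1 : (sub_fin hx.1 v 2).toFinset = {v.asIdeal • x.L} := by
    ext L'
    rw [Set.Finite.mem_toFinset, sub_two hx.1, Finset.mem_singleton]
    exact Iff.rfl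
  rw [h1, Finset.sum_singleton]

end hk

end Pool.Agent.T2h61.CH.Bo

namespace Pool.Agent.T2h61.CH.TBO4

open Pool.Agent.T2h61.CG Pool.Agent.T2h61.CH Pool.Agent.T2h61.CH.Bo

theorem t_BO4 : S_BO4 := by
  classical
  intro F _ _ R W _ _ _ 𝔪 v a _ hv ha ha1 φ hφ
  funext x
  by_cases hx : Ok 𝔪 x
  · have hL := hx.1
    have h0 := bo_mem_sub hL v
    have hmem : fl x.L ⊔ v.asIdeal • x.L ∈ (sub_fin hL v 1).toFinset :=
      (Set.Finite.mem_toFinset _).2 h0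
    rw [hk_pos hx, ← Finset.add_sum_erase _ _ hmem]
    rw [Pi.add_apply, bo_pos (R := R) (φ := bo R 𝔪 v.asIdeal a φ) hx]
    congr 1
    rw [Pi.smul_apply, hk_two hx]
    have hterm : ∀ L' ∈ (sub_fin hL v 1).toFinset.erase (fl x.L ⊔ v.asIdeal • x.L),
        bo R 𝔪 v.asIdeal a φ ⟨x.s, L', fun i => a • x.e i⟩ =
          φ ⟨x.s, v.asIdeal • x.L, fun i => a • x.e i⟩ := by
      intro L' hL'
      rw [Finset.mem_erase, Set.Finite.mem_toFinset] at hL'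
      have hok := ok_sub ha ha1 hx hL'.2
      rw [bo_pos hok]
      have h1 := bo_sub hL hL'.2 hL'.1
      refine hφ.eq ⟨rfl, h1, fun i => ?_⟩
      show a • a • x.e i - a • x.e i ∈ 𝔪 • (fl L' ⊔ v.asIdeal • L')
      rw [h1]
      have h2 : a • a • x.e i - a • x.e i = (a - 1) • (a • x.e i) := by
        rw [sub_smul, one_smul]
      rw [h2]
      exact Submodule.smul_mem_smul ha1 (Submodule.smul_mem_smul ha (hx.2.1 i))
    rw [Finset.sum_congr rfl hterm, Finset.sum_const, Finset.card_erase_of_mem hmem]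
    have hc : (sub_fin hL v 1).toFinset.card = Ideal.absNorm v.asIdeal + 1 := by
      rw [← card_sub_one hL v, Nat.card_coe_set_eq, Set.ncard_eq_toFinset_card _ (sub_fin hL v 1)]
    rw [hc, Nat.add_sub_cancel, Nat.cast_smul_eq_nsmul]
  · rw [hk_neg hx, Pi.add_apply, bo_neg hx, Pi.smul_apply, hk_neg hx, smul_zero, add_zero]

end Pool.Agent.T2h61.CH.TBO4
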