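import Pool.Agent.T2h61.CH.T_BO4
import Pool.Agent.T2h61.CG.T_HK

/-!
# A5: commuting operators at the boundary
-/

set_option autoImplicit false

open NumberField IsDedekindDomain Matrix

noncomputable section

namespace Pool.Agent.T2h61.CH.TBO5

open Pool.Agent.T2h61.CG Pool.Agent.T2h61.CH Pool.Agent.T2h61.CH.Bo

variable {F : Type} [Field F] [NumberField F] {R W : Type} [CommRing R] [AddCommGroup W]
  [Module R W]

theorem ok_two {𝔪 : Ideal (𝓞 F)} {v : HeightOneSpectrum (𝓞 F)} {a : 𝓞 F} (ha : a ∈ v.asIdeal)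
    (ha1 : a - 1 ∈ 𝔪) {x : Pt F 2} (hx : Ok 𝔪 x) :
    Ok 𝔪 (⟨x.s, v.asIdeal • x.L, fun i => a • x.e i⟩ : Pt F 2) :=
  ok_between v.ne_bot ha ha1 hx le_rfl (smul_le_self _ _)

theorem bi_hk {𝔪 : Ideal (𝓞 F)} (v : HeightOneSpectrum (𝓞 F)) (j : ℕ) (a : 𝓞 F) {φ : Pt F 2 → W}
    (h : Bi φ) : Bi (hk R 𝔪 v j a φ) := by
  rw [bi_tr] at h ⊢
  intro b hb
  rw [← THK.t_HKG F 2 R W 𝔪 v j a b φ, h b hb]

theorem t_BO5 : S_BO5 := by
  intro F _ _ R W _ _ _ 𝔪 𝔞 v w a b c _ h𝔞 _ hc hc1 hv ha ha1 hw hb hb1 φ hφ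
  refine ⟨?_, ?_, fun h => bi_hk v 2 a h, fun h => bi_hk v 1 a h⟩
  · funext x
    by_cases hx : Ok 𝔪 x
    · rw [hk_two hx, bo_pos hx, bo_pos (ok_two ha ha1 hx), hk_two (ok_bo h𝔞 hc hc1 hx)]
      congr 1
      have h1 : fl (v.asIdeal • x.L) ⊔ 𝔞 • v.asIdeal • x.L =
          v.asIdeal • (fl x.L ⊔ 𝔞 • x.L) := by
        rw [fl_smul hx.1, Submodule.smul_sup, ← Submodule.mul_smul, ← Submodule.mul_smul,
          mul_comm 𝔞]
      have h2 : (fun i => c • a • x.e i) = fun i => a • c • x.e i := by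
        funext i
        exact smul_comm _ _ _
      show (⟨x.s, fl (v.asIdeal • x.L) ⊔ 𝔞 • v.asIdeal • x.L, fun i => c • a • x.e i⟩ : Pt F 2) =
        ⟨x.s, v.asIdeal • (fl x.L ⊔ 𝔞 • x.L), fun i => a • c • x.e i⟩
      rw [h1, h2]
    · rw [hk_neg hx, bo_neg hx]
  · funext x
    by_cases hx : Ok 𝔪 x
    · rw [hk_two hx, hk_two hx, hk_two (ok_two ha ha1 hx), hk_two (ok_two hb hb1 hx)]
      congr 1
      have h1 : w.asIdeal • v.asIdeal • x.L = v.asIdeal • w.asIdeal • x.L := by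
        rw [← Submodule.mul_smul, ← Submodule.mul_smul, mul_comm]
      have h2 : (fun i => b • a • x.e i) = fun i => a • b • x.e i := by
        funext i
        exact smul_comm _ _ _
      show (⟨x.s, w.asIdeal • v.asIdeal • x.L, fun i => b • a • x.e i⟩ : Pt F 2) =
        ⟨x.s, v.asIdeal • w.asIdeal • x.L, fun i => a • b • x.e i⟩
      rw [h1, h2]
    · rw [hk_neg hx, hk_neg hx]

end Pool.Agent.T2h61.CH.TBO5
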