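import Pool.Agent.T2h61.CH.T_RCM
import Pool.Agent.T2h61.CG.T_FRB
import Pool.Agent.T2h62.CG.Alg

/-!
# `H¹_c` for `GL_2`: characters on subgroups which meet the group of a cyclotomic extension
trivially
-/

set_option autoImplicit false

open NumberField IsDedekindDomain

noncomputable section

namespace Pool.Agent.T2h61.CH.TCYC

open Pool.Agent.T2h61.CG

/-- Frobenius elements on roots of unity -/
theorem frob_zeta {F M : Type} [Field F] [NumberField F] [Field M] [NumberField M] [Algebra F M]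
    {m : ℕ} (hm : m ≠ 0) {ζ : M} (hζ : IsPrimitiveRoot ζ m) (v : HeightOneSpectrum (𝓞 F)) {ℓ : ℕ}
    [hl : Fact ℓ.Prime] (hlm : ¬ ℓ ∣ m) (hv : Ideal.absNorm v.asIdeal = ℓ)
    (φ : 𝓞 M →+* AlgebraicClosure (ZMod ℓ)) (g : Gal(M/F)) (h : IsFrob v φ g) : g ζ = ζ ^ ℓ := by
  have hm' : NeZero m := ⟨hm⟩
  have hζ' : IsPrimitiveRoot hζ.toInteger m := hζ.toInteger_isPrimitiveRoot
  have hm0 : NeZero ((m : ℕ) : AlgebraicClosure (ZMod ℓ)) := by
    refine ⟨fun h0 => hlm ?_⟩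
    exact (CharP.cast_eq_zero_iff (AlgebraicClosure (ZMod ℓ)) ℓ m).1 h0
  have h3 : IsPrimitiveRoot (φ hζ.toInteger) m := by
    rw [← Polynomial.isRoot_cyclotomic_iff]
    have h4 := (hζ'.isRoot_cyclotomic (NeZero.pos m)).map (f := φ)
    rwa [Polynomial.map_cyclotomic] at h4
  have h5 := hζ.autToPow_spec F g
  set j := (hζ.autToPow F g : ZMod m).val with hj
  have h6 := h.2 hζ.toInteger (hζ.toInteger ^ j) h5
  rw [map_pow, hv] at h6
  have h7 := (h3.isOfFinOrder hm).pow_eq_pow_iff_modEq.1 h6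
  rw [← h3.eq_orderOf] at h7
  rw [← h5]
  exact (hζ.isOfFinOrder hm).pow_eq_pow_iff_modEq.2 (by rwa [← hζ.eq_orderOf])

/-- a prime of degree one from a homomorphism -/
theorem prime_of_hom {F : Type} [Field F] [NumberField F] {ℓ : ℕ} [hℓ : Fact ℓ.Prime]
    (ψ : 𝓞 F →+* AlgebraicClosure (ZMod ℓ)) (h : ∀ x, ψ x = ψ x ^ ℓ) :
    ∃ v : HeightOneSpectrum (𝓞 F), Ideal.absNorm v.asIdeal = ℓ ∧ ∀ x, x ∈ v.asIdeal ↔ ψ x = 0 := by
  have hcard := TFRB.card_quot ψ h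
  have hne : RingHom.ker ψ ≠ ⊥ := by
    intro h0
    rw [h0] at hcard
    have h1 : (ℓ : 𝓞 F) ∈ RingHom.ker ψ := by
      rw [RingHom.mem_ker, map_natCast]
      exact CharP.cast_eq_zero _ ℓ
    rw [h0, Ideal.mem_bot] at h1
    exact hℓ.out.ne_zero (by exact_mod_cast h1)
  refine ⟨⟨RingHom.ker ψ, RingHom.ker_isPrime ψ, hne⟩, ?_, fun x => Iff.rfl⟩
  exact hcard

/-- the homomorphism of a prime of degree one -/
theorem hom_of_prime {F : Type} [Field F] [NumberField F] {ℓ : ℕ} [hℓ : Fact ℓ.Prime]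
    (v : HeightOneSpectrum (𝓞 F)) (hv : Ideal.absNorm v.asIdeal = ℓ) :
    ∃ ψ : 𝓞 F →+* AlgebraicClosure (ZMod ℓ), (∀ x, x ∈ v.asIdeal ↔ ψ x = 0) ∧
      ∀ x, ψ x = ψ x ^ ℓ := by
  have hcard : Nat.card (𝓞 F ⧸ v.asIdeal) = ℓ := by
    rw [← hv]
    rfl
  have hfin : Finite (𝓞 F ⧸ v.asIdeal) := Nat.finite_of_card_ne_zero (by
    rw [hcard]; exact hℓ.out.ne_zero)
  have hft : Fintype (𝓞 F ⧸ v.asIdeal) := Fintype.ofFinite _
  have hc : Fintype.card (𝓞 F ⧸ v.asIdeal) = ℓ := by rw [← Nat.card_eq_fintype_card, hcard]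
  let e := ZMod.ringEquivOfPrime (𝓞 F ⧸ v.asIdeal) hℓ.out hc
  refine ⟨((algebraMap (ZMod ℓ) (AlgebraicClosure (ZMod ℓ))).comp e.symm.toRingHom).comp
    (Ideal.Quotient.mk v.asIdeal), ?_, ?_⟩
  · intro x
    rw [RingHom.comp_apply, RingHom.comp_apply, map_eq_zero_iff _
      (algebraMap (ZMod ℓ) (AlgebraicClosure (ZMod ℓ))).injective]
    show _ ↔ e.symm _ = 0
    rw [map_eq_zero_iff _ e.symm.injective, Ideal.Quotient.eq_zero_iff_mem]
  · intro x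
    rw [RingHom.comp_apply, RingHom.comp_apply, ← map_pow, ZMod.pow_card]

section core

variable {F E M : Type} [Field F] [NumberField F] [Field E] [NumberField E] [Field M]
  [NumberField M] [Algebra F E] [Algebra E M] [Algebra F M] [IsScalarTower F E M] {k : Type}
  [Field k] {χ : HeightOneSpectrum (𝓞 F) → k} {χ' : HeightOneSpectrum (𝓞 E) → k}

theorem claim1 [IsGalois E M] (hFRE : S_FRE) {B m : ℕ} (hm : m ≠ 0) {ζ : M}
    (hζ : IsPrimitiveRoot ζ m)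
    (hP : ∀ g : Gal(M/E), g ζ = ζ → g = 1) (hSpl : Spl F M χ B)
    (hχ : ∀ (w : HeightOneSpectrum (𝓞 E)) (v : HeightOneSpectrum (𝓞 F)),
      (Ideal.absNorm w.asIdeal).Prime →
      (∀ x : 𝓞 F, x ∈ v.asIdeal ↔ algebraMap (𝓞 F) (𝓞 E) x ∈ w.asIdeal) → χ' w = χ v)
    (w : HeightOneSpectrum (𝓞 E)) (hw : (Ideal.absNorm w.asIdeal).Prime)
    (hB : B < Ideal.absNorm w.asIdeal) (h1 : (Ideal.absNorm w.asIdeal : ZMod m) = 1) :
    χ' w = 1 := by
  obtain ⟨ℓ, hℓ⟩ : ∃ ℓ, ℓ = Ideal.absNorm w.asIdeal := ⟨_, rfl⟩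
  have hF : Fact ℓ.Prime := ⟨hℓ ▸ hw⟩
  rw [← hℓ] at hB h1
  obtain ⟨ψ, hψ0, hψ⟩ := hom_of_prime w hℓ.symm
  obtain ⟨φ, hφ⟩ := Pool.Agent.T2h62.CG.exists_ext (B := 𝓞 E) (A := 𝓞 M)
    (FaithfulSMul.algebraMap_injective (𝓞 E) (𝓞 M)) ψ
  obtain ⟨g, hg⟩ := hFRE E M w ℓ φ (fun x => by rw [hφ]; exact hψ0 x)
  obtain ⟨v, hv, hv0⟩ := prime_of_hom (ψ.comp (algebraMap (𝓞 F) (𝓞 E))) fun x => hψ _
  have hlm : ¬ ℓ ∣ m := by
    intro hd
    have h2 := congrArg (ZMod.castHom hd (ZMod ℓ)) h1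
    rw [map_natCast, map_one, ZMod.natCast_self] at h2
    exact zero_ne_one h2
  have h3 : g ζ = ζ := by
    rw [frob_zeta hm hζ w hlm hℓ.symm φ g hg]
    have h4 : ℓ ≡ 1 [MOD m] := by
      rw [← ZMod.natCast_eq_natCast_iff, h1]
      exact Nat.cast_one.symm
    have h5 : ζ ^ ℓ = ζ ^ 1 :=
      (hζ.isOfFinOrder hm).pow_eq_pow_iff_modEq.2 (by rwa [← hζ.eq_orderOf])
    rwa [pow_one] at h5
  have h6 : g = 1 := hP g h3
  rw [h6] at hg
  have h7 : IsFrob v φ (1 : Gal(M/F)) := by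
    constructor
    · intro x
      rw [hv0 x, RingHom.comp_apply, ← hφ, ← IsScalarTower.algebraMap_apply (𝓞 F) (𝓞 E) (𝓞 M)]
    · intro x y hxy
      rw [hv]
      have := hg.2 x y hxy
      rwa [← hℓ] at this
  rw [hχ w v hw (fun x => by rw [hv0 x, hψ0]; exact Iff.rfl)]
  exact hSpl v ℓ φ hB hv h7

theorem claim2 (hRAN : S_RAN) (hNOR : S_NOR) {N m : ℕ} (hmN : m ∣ N) (hN : N ≠ 0)
    (hχ : RC χ' (Ideal.span {(N : 𝓞 E)})) (B : ℕ)
    (s : Multiset (HeightOneSpectrum (𝓞 E)))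
    (hs : IsCoprime (s.map fun v => v.asIdeal).prod (Ideal.span {(N : 𝓞 E)})) :
    ∃ w : HeightOneSpectrum (𝓞 E), (Ideal.absNorm w.asIdeal).Prime ∧
      B < Ideal.absNorm w.asIdeal ∧
      (Ideal.absNorm w.asIdeal : ZMod m) = (Ideal.absNorm (s.map fun v => v.asIdeal).prod : ZMod m) ∧
      χ' w = (s.map χ').prod := by
  have hN0 : Ideal.span {(N : 𝓞 E)} ≠ ⊥ := by
    rw [Ne, Ideal.span_singleton_eq_bot]
    exact_mod_cast hN
  have hs0 : (s.map fun v => v.asIdeal).prod ≠ ⊥ := by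
    rw [Ne, ← Ideal.zero_eq_bot, Multiset.prod_eq_zero_iff]
    intro h0
    obtain ⟨v, _, hv⟩ := Multiset.mem_map.1 h0
    exact v.ne_bot hv
  obtain ⟨w, hw, hB, a, b, ha, hb, ha1, hb1, hTa, hTb, hab⟩ := hRAN E _ _ hN0 hs0 hs B
  have hle : Ideal.span {(N : 𝓞 E)} ≤ Ideal.span {(m : 𝓞 E)} := by
    rw [Ideal.span_singleton_le_span_singleton]
    exact_mod_cast Nat.cast_dvd_cast hmN
  refine ⟨w, hw, hB, ?_, ?_⟩
  · have h1 := congrArg Ideal.absNorm hab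
    rw [map_mul, map_mul] at h1
    have h2 := congrArg (Nat.cast : ℕ → ZMod m) h1
    rw [Nat.cast_mul, Nat.cast_mul, hNOR E m a ha (hle ha1) hTa, hNOR E m b hb (hle hb1) hTb,
      one_mul, one_mul] at h2
    exact h2
  · have h1 := TRCM.t_RCM E k χ' _ hχ {w} s a b ha hb ha1 hb1 hTa hTb (by
      rw [Multiset.map_singleton, Multiset.prod_singleton]; exact hab)
    rwa [Multiset.map_singleton, Multiset.prod_singleton] at h1

theorem coprime_of_lt {N : ℕ} (hN : N ≠ 0) (w : HeightOneSpectrum (𝓞 E))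
    (hw : (Ideal.absNorm w.asIdeal).Prime) (h : N < Ideal.absNorm w.asIdeal) :
    IsCoprime w.asIdeal (Ideal.span {(N : 𝓞 E)}) := by
  rw [Ideal.isCoprime_iff_exists]
  have h1 : Nat.Coprime (Ideal.absNorm w.asIdeal) N :=
    (Nat.Prime.coprime_iff_not_dvd hw).2 fun hd => absurd (Nat.le_of_dvd (Nat.pos_of_ne_zero hN) hd)
      (not_le.2 h)
  have h2 : IsCoprime ((Ideal.absNorm w.asIdeal : ℕ) : ℤ) (N : ℤ) := Nat.isCoprime_iff_coprime.2 h1
  obtain ⟨a, b, hab⟩ := h2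
  refine ⟨(a : 𝓞 E) * (Ideal.absNorm w.asIdeal : 𝓞 E), Ideal.mul_mem_left _ _ (Ideal.absNorm_mem _),
    (b : 𝓞 E) * (N : 𝓞 E), Ideal.mul_mem_left _ _ (Ideal.mem_span_singleton_self _), ?_⟩
  exact_mod_cast congrArg (Int.cast : ℤ → 𝓞 E) hab

/-- the values at primes of degree one, in terms of the norms modulo `m` -/
theorem claim3 (hRAN : S_RAN) (hNOR : S_NOR) (hHNB : S_HNB) {B N m : ℕ} (hmN : m ∣ N) (hN : N ≠ 0)
    (hχ : RC χ' (Ideal.span {(N : 𝓞 E)}))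
    (h1 : ∀ w : HeightOneSpectrum (𝓞 E), (Ideal.absNorm w.asIdeal).Prime →
      B < Ideal.absNorm w.asIdeal → (Ideal.absNorm w.asIdeal : ZMod m) = 1 → χ' w = 1) :
    (∀ w : HeightOneSpectrum (𝓞 E), (Ideal.absNorm w.asIdeal).Prime →
      N < Ideal.absNorm w.asIdeal → χ' w ≠ 0) ∧
    ∀ w₁ w₂ : HeightOneSpectrum (𝓞 E), (Ideal.absNorm w₁.asIdeal).Prime →
      N < Ideal.absNorm w₁.asIdeal → (Ideal.absNorm w₂.asIdeal).Prime →
      N < Ideal.absNorm w₂.asIdeal →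
      (Ideal.absNorm w₁.asIdeal : ZMod m) = (Ideal.absNorm w₂.asIdeal : ZMod m) →
      χ' w₁ = χ' w₂ := by
  have hN0 : Ideal.span {(N : 𝓞 E)} ≠ ⊥ := by
    rw [Ne, Ideal.span_singleton_eq_bot]
    exact_mod_cast hN
  have hle : Ideal.span {(N : 𝓞 E)} ≤ Ideal.span {(m : 𝓞 E)} := by
    rw [Ideal.span_singleton_le_span_singleton]
    exact_mod_cast Nat.cast_dvd_cast hmN
  obtain ⟨h, hh, hx⟩ := hHNB E _ hN0
  obtain ⟨h', rfl⟩ := Nat.exists_eq_succ_of_ne_zero hh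
  have key : ∀ w : HeightOneSpectrum (𝓞 E), (Ideal.absNorm w.asIdeal).Prime →
      N < Ideal.absNorm w.asIdeal → χ' w ^ (h' + 1) = 1 ∧
        (Ideal.absNorm w.asIdeal : ZMod m) ^ (h' + 1) = 1 := by
    intro w hw hwN
    obtain ⟨x, hx0, hx1, hxT, hxw⟩ := hx w.asIdeal w.ne_bot (coprime_of_lt hN w hw hwN)
    constructor
    · have h2 := hχ ((h' + 1) • {w}) x hx0 hx1 hxT (by
        rw [Multiset.map_nsmul, Multiset.prod_nsmul, Multiset.map_singleton,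
          Multiset.prod_singleton]
        exact hxw)
      rwa [Multiset.map_nsmul, Multiset.prod_nsmul, Multiset.map_singleton,
        Multiset.prod_singleton] at h2
    · have h2 := hNOR E m x hx0 (hle hx1) hxT
      rw [← hxw, map_pow, Nat.cast_pow] at h2
      exact h2
  constructor
  · intro w hw hwN h0
    have h2 := (key w hw hwN).1
    rw [h0, zero_pow (Nat.succ_ne_zero h')] at h2
    exact zero_ne_one h2
  · intro w₁ w₂ hw₁ hN₁ hw₂ hN₂ hww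
    obtain ⟨k1, k2⟩ := key w₁ hw₁ hN₁
    have hne : χ' w₁ ≠ 0 := by
      intro h0
      rw [h0, zero_pow (Nat.succ_ne_zero h')] at k1
      exact zero_ne_one k1
    obtain ⟨w, hw, hwB, hwm, hwχ⟩ := claim2 hRAN hNOR hmN hN hχ B (h' • {w₁} + {w₂}) (by
      rw [Multiset.map_add, Multiset.prod_add, Multiset.map_nsmul, Multiset.prod_nsmul,
        Multiset.map_singleton, Multiset.prod_singleton, Multiset.map_singleton,
        Multiset.prod_singleton]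
      exact IsCoprime.mul_left (coprime_of_lt hN w₁ hw₁ hN₁).pow_left
        (coprime_of_lt hN w₂ hw₂ hN₂))
    rw [Multiset.map_add, Multiset.prod_add, Multiset.map_nsmul, Multiset.prod_nsmul,
        Multiset.map_singleton, Multiset.prod_singleton, Multiset.map_singleton,
        Multiset.prod_singleton] at hwχ hwm
    rw [map_mul, map_pow, Nat.cast_mul, Nat.cast_pow, ← hww, ← pow_succ, k2] at hwm
    rw [h1 w hw hwB hwm] at hwχ
    have h3 : χ' w₁ ^ h' * χ' w₁ = χ' w₁ ^ h' * χ' w₂ := by rw [← pow_succ, k1, ← hwχ]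
    exact mul_left_cancel₀ (pow_ne_zero _ hne) h3

end core

theorem t_CYC (hNRC : S_NRC) (hRAN : S_RAN) (hNOR : S_NOR) (hFRE : S_FRE) (hFRC : S_FRC)
    (hHNB : S_HNB) : S_CYC := by
  intro F M _ _ _ _ _ _ k _ χ 𝔪 h𝔪 hRC B hSpl m ζ hm hζ P hP
  let E := IntermediateField.fixedField P
  have hfP : IntermediateField.fixingSubgroup E = P := IntermediateField.fixingSubgroup_fixedField P
  have hPE : ∀ σ : Gal(M/E), AlgEquiv.restrictScalars F σ ∈ P := by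
    intro σ
    rw [← hfP, IntermediateField.mem_fixingSubgroup_iff]
    intro x hx
    exact σ.commutes ⟨x, hx⟩
  have hP' : ∀ σ : Gal(M/E), σ ζ = ζ → σ = 1 := by
    intro σ hσ
    have h1 := hP _ (hPE σ) hσ
    apply AlgEquiv.ext
    intro x
    exact DFunLike.congr_fun h1 x
  have hN1 : Ideal.absNorm 𝔪 ≠ 0 := by
    rw [Ne, Ideal.absNorm_eq_zero_iff]
    exact h𝔪
  obtain ⟨N, hN⟩ : ∃ N, N = Ideal.absNorm 𝔪 * m := ⟨_, rfl⟩
  have hN0 : N ≠ 0 := by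
    rw [hN]
    exact mul_ne_zero hN1 hm
  have hmN : m ∣ N := ⟨Ideal.absNorm 𝔪, by rw [hN, mul_comm]⟩
  have hle : Ideal.span {(N : 𝓞 F)} ≤ 𝔪 := by
    rw [Ideal.span_singleton_le_iff_mem, hN, Nat.cast_mul]
    exact Ideal.mul_mem_right _ _ (Ideal.absNorm_mem 𝔪)
  have hRC' : RC χ (Ideal.span {(N : 𝓞 F)}) := fun s x hx hx1 hT hs => hRC s x hx (hle hx1) hT hs
  obtain ⟨χ', hχ', hχ⟩ := hNRC F E k χ N hN0 hRC'
  have c1 := claim1 (F := F) (E := E) (M := M) (χ := χ) (χ' := χ') hFRE hm hζ hP' hSpl hχ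
  obtain ⟨hne, heq⟩ := claim3 (E := E) hRAN hNOR hHNB hmN hN0 hχ' c1
  -- primes of `E` below a Frobenius element of `P`
  have hw : ∀ (g : Gal(M/F)), g ∈ P → ∀ (v : HeightOneSpectrum (𝓞 F)) (ℓ : ℕ) [Fact ℓ.Prime]
      (φ : 𝓞 M →+* AlgebraicClosure (ZMod ℓ)), N < ℓ → Ideal.absNorm v.asIdeal = ℓ →
      IsFrob v φ g → g ζ = ζ ^ ℓ ∧ ∃ w : HeightOneSpectrum (𝓞 E), Ideal.absNorm w.asIdeal = ℓ ∧
        χ' w = χ v := by
    intro g hg v ℓ hℓ φ hNl hv hFr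
    have hmN' : m ≤ N := Nat.le_of_dvd (Nat.pos_of_ne_zero hN0) hmN
    refine ⟨frob_zeta hm hζ v (fun hd => absurd (Nat.le_of_dvd (Nat.pos_of_ne_zero hm) hd)
      (by omega)) hv φ g hFr, ?_⟩
    obtain ⟨w, hw, hw0⟩ := prime_of_hom (φ.comp (algebraMap (𝓞 E) (𝓞 M))) (by
      intro x
      have h1 := hFr.2 (algebraMap (𝓞 E) (𝓞 M) x) (algebraMap (𝓞 E) (𝓞 M) x) (by
        have h2 : (x : E).1 ∈ E := (x : E).2
        exact (h2 ⟨g, hg⟩).symm)
      rw [hv] at h1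
      exact h1)
    refine ⟨w, hw, hχ w v (hw ▸ hℓ.out) fun x => ?_⟩
    rw [hFr.1 x, hw0, RingHom.comp_apply, ← IsScalarTower.algebraMap_apply (𝓞 F) (𝓞 E) (𝓞 M)]
  have hex : ∀ g : P, ∃ w : HeightOneSpectrum (𝓞 E), (Ideal.absNorm w.asIdeal).Prime ∧
      N < Ideal.absNorm w.asIdeal ∧ (g : Gal(M/F)) ζ = ζ ^ Ideal.absNorm w.asIdeal := by
    intro g
    obtain ⟨v, ℓ, hℓ, φ, hNl, hv, hFr⟩ := hFRC F M g N
    obtain ⟨h1, w, h2, _⟩ := hw g g.2 v ℓ φ hNl hv hFr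
    refine ⟨w, ?_, ?_, ?_⟩
    · rw [h2]; exact hℓ.out
    · rw [h2]; exact hNl
    · rw [h2]; exact h1
  choose W hW1 hW2 hW3 using hex
  have hmod : ∀ a b : ℕ, ζ ^ a = ζ ^ b → (a : ZMod m) = b := by
    intro a b hab
    have h1 := (hζ.isOfFinOrder hm).pow_eq_pow_iff_modEq.1 hab
    rw [← hζ.eq_orderOf] at h1
    exact (ZMod.natCast_eq_natCast_iff _ _ _).2 h1
  have hmul : ∀ g h : P, χ' (W (g * h)) = χ' (W g) * χ' (W h) := by
    intro g h
    obtain ⟨w, hw, hwB, hwm, hwχ⟩ := claim2 hRAN hNOR hmN hN0 hχ' N ({W g} + {W h}) (by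
      rw [Multiset.map_add, Multiset.prod_add, 
        Multiset.map_singleton, Multiset.prod_singleton, Multiset.map_singleton,
        Multiset.prod_singleton]
      exact IsCoprime.mul_left (coprime_of_lt hN0 _ (hW1 g) (hW2 g))
        (coprime_of_lt hN0 _ (hW1 h) (hW2 h)))
    rw [Multiset.map_add, Multiset.prod_add, 
        Multiset.map_singleton, Multiset.prod_singleton, Multiset.map_singleton,
        Multiset.prod_singleton] at hwχ hwm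
    rw [← hwχ]
    apply heq _ _ (hW1 _) (hW2 _) hw hwB
    rw [hwm, map_mul]
    apply hmod
    rw [← hW3 (g * h), Subgroup.coe_mul, AlgEquiv.mul_apply, hW3 h, map_pow, hW3 g, ← pow_mul]
  let f : P →* kˣ := MonoidHom.mk' (fun g => Units.mk0 (χ' (W g)) (hne _ (hW1 g) (hW2 g)))
    (fun g h => by
      apply Units.ext
      exact hmul g h)
  refine ⟨N, f, fun g v ℓ hℓ φ hNl hv hFr => ?_⟩
  obtain ⟨h1, w, h2, h3⟩ := hw g g.2 v ℓ φ hNl hv hFr
  rw [← h3]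
  apply heq w (W g) (h2 ▸ hℓ.out) (h2 ▸ hNl) (hW1 g) (hW2 g)
  rw [h2]
  apply hmod
  rw [← h1, ← hW3 g]

end Pool.Agent.T2h61.CH.TCYC
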