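import Pool.Agent.T2h61.CH.Stm
import Pool.Agent.T2h61.CG.Fin
import Pool.Agent.T2h61.CG.T_HK

/-!
# Calegari–Geraghty for `GL_2` over number fields: A8 (the long exact sequence of the boundary)
-/

set_option autoImplicit false

open NumberField IsDedekindDomain Matrix Pool.Agent.T2h61.CG

noncomputable section

namespace Pool.Agent.T2h61.CH.TDIC

section

variable {F : Type} [Field F] [NumberField F]

/-- the first basis vector -/
def e1 : Fin 2 → F := ![1, 0]

theorem e1_ne : (e1 : Fin 2 → F) ≠ 0 := by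
  intro h
  have := congrFun h 0
  simp [e1] at this

theorem mulVec_ne {g : GL (Fin 2) F} {x : Fin 2 → F} (hx : x ≠ 0) : g.1.mulVec x ≠ 0 := by
  intro h
  apply hx
  have := congrArg g⁻¹.1.mulVec h
  rwa [inv_mulVec, Matrix.mulVec_zero] at this

theorem exists_g {x : Fin 2 → F} (hx : x ≠ 0) : ∃ g : GL (Fin 2) F, g.1.mulVec e1 = x := by
  by_cases h0 : x 0 = 0
  · have h1 : x 1 ≠ 0 := by
      intro h1
      apply hx
      funext i
      fin_cases i
      · exact h0
      · exact h1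
    refine ⟨Matrix.GeneralLinearGroup.mkOfDetNeZero !![x 0, 1; x 1, 0] ?_, ?_⟩
    · rw [Matrix.det_fin_two_of]; simpa using h1
    · show (!![x 0, 1; x 1, 0] : Matrix (Fin 2) (Fin 2) F).mulVec e1 = x
      funext i
      fin_cases i <;> simp [e1, Matrix.mulVec, dotProduct, Fin.sum_univ_two]
  · refine ⟨Matrix.GeneralLinearGroup.mkOfDetNeZero !![x 0, 0; x 1, 1] ?_, ?_⟩
    · rw [Matrix.det_fin_two_of]; simpa using h0
    · show (!![x 0, 0; x 1, 1] : Matrix (Fin 2) (Fin 2) F).mulVec e1 = x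
      funext i
      fin_cases i <;> simp [e1, Matrix.mulVec, dotProduct, Fin.sum_univ_two]

theorem upper {b : GL (Fin 2) F} (hb : b.1 1 0 = 0) :
    b.1 0 0 ≠ 0 ∧ b.1.mulVec e1 = (b.1 0 0) • (e1 : Fin 2 → F) := by
  constructor
  · intro h
    have := det_ne_zero b
    rw [Matrix.det_fin_two, hb, h] at this
    simp at this
  · funext i
    fin_cases i
    · simp [e1, Matrix.mulVec, dotProduct, Fin.sum_univ_two]
    · simp [e1, Matrix.mulVec, dotProduct, Fin.sum_univ_two, hb]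

end

theorem t_DIC : S_DIC := by
  intro F _ _ 𝔪 h𝔪 S hS a ha R W k _ _ _ _ _ H ρW lam ⟨m, hm, hlam⟩
  have hself : ∀ x : Fin 2 → F, x ≠ 0 → m x x = 0 := by
    intro x hx
    have := hm.add x x x hx hx hx
    simpa using this
  have hz2 : ∀ g h : GL (Fin 2) F, m e1 ((g * h).1.mulVec e1) =
      m e1 (g.1.mulVec e1) + tr g (m e1 (h.1.mulVec e1)) := by
    intro g h
    rw [← hm.eqv g _ _ e1_ne (mulVec_ne e1_ne), Matrix.mulVec_mulVec, ← Units.val_mul]
    exact (hm.add _ _ _ e1_ne (mulVec_ne e1_ne) (mulVec_ne e1_ne)).symm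
  by_cases hcase : ∃ t, lam t ≠ 0 ∧ ∃ φ : Pt F 2 → W, Aut ρW φ ∧
      ∀ g : GL (Fin 2) F, act R 𝔪 S a t (m e1 (g.1.mulVec e1)) = tr g φ - φ
  · right
    obtain ⟨t, ht, φ, hφ, hφ2⟩ := hcase
    refine ⟨φ, hφ, ?_, ?_⟩
    · intro b hb x
      obtain ⟨hb1, hb2⟩ := upper hb
      have h1 := hφ2 b
      have h2 : m e1 (b.1.mulVec e1) = 0 := by
        rw [hb2]
        have := hm.smul 1 (b.1 0 0) e1 e1 one_ne_zero hb1 e1_ne e1_ne
        rw [one_smul] at this
        rw [this, hself e1 e1_ne]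
      rw [h2, map_zero] at h1
      have h3 := congrFun h1.symm (ga b x)
      rw [Pi.sub_apply, tr_apply, ga_inv_ga, Pi.zero_apply, sub_eq_zero] at h3
      exact h3.symm
    · intro t' ht'
      have h1 : lam (t' * t) = 0 := by
        refine hlam _ fun x y hx hy => ?_
        obtain ⟨g, rfl⟩ := exists_g hx
        obtain ⟨h, rfl⟩ := exists_g hy
        have h2 : m (g.1.mulVec e1) (h.1.mulVec e1) =
            m e1 (h.1.mulVec e1) - m e1 (g.1.mulVec e1) := by
          rw [← hm.add e1 _ _ e1_ne hx hy]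
          abel
        rw [map_mul, Module.End.mul_apply, h2, map_sub, hφ2, hφ2, sub_sub_sub_cancel_right,
          map_sub, act_tr Pool.Agent.T2h61.CG.THK.t_HKG, act_tr Pool.Agent.T2h61.CG.THK.t_HKG,
          ht']
        funext w
        simp [tr]
      rw [map_mul] at h1
      exact (mul_eq_zero.1 h1).resolve_right ht
  · left
    push Not at hcase
    refine ⟨fun g => m e1 (g.1.mulVec e1), fun g => hm.aut _ _ e1_ne (mulVec_ne e1_ne), hz2, ?_⟩
    rintro t ⟨φ, hφ1, hφ2⟩
    by_contra ht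
    obtain ⟨g, hg⟩ := hcase t ht φ hφ1
    exact hg (hφ2 g)

end Pool.Agent.T2h61.CH.TDIC
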