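import Pool.Agent.T2h62.CG.Alg

/-!
# Extension of an eigensystem to a larger commutative algebra of operators
-/

set_option autoImplicit false

noncomputable section

namespace Pool.Agent.T2h61.CH

theorem ext_alg {ι R k E : Type} [CommRing R] [Ring E] [Algebra R E] [Field k] [IsAlgClosed k]
    [Algebra R k] (s : Set E) (hcomm : ∀ a ∈ s, ∀ b ∈ s, a * b = b * a)
    (Λ : FreeAlgebra R ι →ₐ[R] E) (hΛ : ∀ q, Λ (FreeAlgebra.ι R q) ∈ Algebra.adjoin R s)
    (hint : ∀ a ∈ s, (∃ n : ℕ, n ≠ 0 ∧ a ^ n = 1) ∨ ∃ q, a = Λ (FreeAlgebra.ι R q))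
    (lam : FreeAlgebra R ι →ₐ[R] k) (h : ∀ t, Λ t = 0 → lam t = 0) :
    ∃ ψ : Algebra.adjoin R s →+* k, ∀ t (ht : Λ t ∈ Algebra.adjoin R s), ψ ⟨Λ t, ht⟩ = lam t := by
  let cr : CommRing (Algebra.adjoin R s) := Algebra.adjoinCommRingOfComm R hcomm
  let θ : FreeAlgebra R ι →ₐ[R] Algebra.adjoin R s :=
    FreeAlgebra.lift R fun q => ⟨Λ (FreeAlgebra.ι R q), hΛ q⟩
  have hθ : ∀ t, (θ t : E) = Λ t := by
    intro t
    have e : (Algebra.adjoin R s).val.comp θ = Λ := by
      apply FreeAlgebra.hom_ext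
      funext q
      simp [θ]
    exact congrArg (fun f => f t) e
  let B : Subalgebra R (Algebra.adjoin R s) := θ.range
  let θ' : FreeAlgebra R ι →+* B := θ.rangeRestrict.toRingHom
  have hs : Function.Surjective θ' := θ.rangeRestrict_surjective
  have hk : RingHom.ker θ' ≤ RingHom.ker lam.toRingHom := by
    intro t ht
    rw [RingHom.mem_ker] at ht ⊢
    apply h
    have h1 : θ t = 0 := congrArg (Subtype.val) ht
    rw [← hθ, h1]
    rfl
  let l : B →+* k := RingHom.liftOfSurjective θ' hs ⟨lam.toRingHom, hk⟩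
  have hl : ∀ t, l (θ' t) = lam t := fun t =>
    RingHom.liftOfRightInverse_comp_apply _ _ _ _ t
  have hB : ∀ (x : E) (hx : x ∈ Algebra.adjoin R s),
      IsIntegral B (⟨x, hx⟩ : Algebra.adjoin R s) := by
    intro x hx
    induction hx using Algebra.adjoin_induction with
    | mem x hx =>
      rcases hint x hx with ⟨n, hn, h1⟩ | ⟨q, rfl⟩
      · refine IsIntegral.of_pow (n := n) (Nat.pos_of_ne_zero hn) ?_
        have h2 : (⟨x, Algebra.subset_adjoin hx⟩ : Algebra.adjoin R s) ^ n = 1 :=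
          Subtype.ext (by rw [SubmonoidClass.mk_pow]; exact h1)
        rw [h2]
        exact isIntegral_one
      · have h2 : (⟨Λ (FreeAlgebra.ι R q), hΛ q⟩ : Algebra.adjoin R s) =
            algebraMap B (Algebra.adjoin R s) (θ' (FreeAlgebra.ι R q)) := by
          apply Subtype.ext
          exact (hθ _).symm
        have h3 : IsIntegral B (algebraMap B (Algebra.adjoin R s) (θ' (FreeAlgebra.ι R q))) :=
          isIntegral_algebraMap
        rw [← h2] at h3
        exact h3
    | algebraMap r =>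
      have h3 : IsIntegral B (algebraMap B (Algebra.adjoin R s) (algebraMap R B r)) :=
        isIntegral_algebraMap
      exact h3
    | add x y hx hy h1 h2 => exact h1.add h2
    | mul x y hx hy h1 h2 => exact h1.mul h2
  have hI : Algebra.IsIntegral B (Algebra.adjoin R s) := ⟨fun x => hB x.1 x.2⟩
  obtain ⟨ψ, hψ⟩ := Pool.Agent.T2h62.CG.exists_ext (B := B) (A := Algebra.adjoin R s)
    Subtype.val_injective l
  refine ⟨ψ, fun t ht => ?_⟩
  rw [← hl, ← hψ]
  congr 1
  apply Subtype.ext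
  exact (hθ t).symm

end Pool.Agent.T2h61.CH
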