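import Pool.Agent.T2h61.CH.T_BO1
import Pool.Agent.T2h61.CH.Ext
import Pool.Agent.T2h62.CG.Bas

/-!
# The eigensystems of the boundary
-/

set_option autoImplicit false

open NumberField IsDedekindDomain Matrix Polynomial

noncomputable section

namespace Pool.Agent.T2h61.CH.TEXB

open Pool.Agent.T2h61.CG
open Pool.Agent.T2h61.CG.THK
open Pool.Agent.T2h61.CH.TBO1

variable {F : Type} [Field F] [NumberField F]

/-- ideals prime to `𝔪` -/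
def Gd (𝔪 𝔞 : Ideal (𝓞 F)) : Prop := 𝔞 ≠ ⊥ ∧ IsCoprime 𝔞 𝔪

theorem gd_mul {𝔪 𝔞 𝔟 : Ideal (𝓞 F)} (h : Gd 𝔪 𝔞) (h' : Gd 𝔪 𝔟) : Gd 𝔪 (𝔞 * 𝔟) :=
  ⟨mul_ne_zero h.1 h'.1, h.2.mul_left h'.2⟩

theorem gd_span {𝔪 : Ideal (𝓞 F)} {x : 𝓞 F} (hx : x ≠ 0) (hx1 : x - 1 ∈ 𝔪) :
    Gd 𝔪 (Ideal.span {x}) := by
  refine ⟨by rwa [Ne, Ideal.span_singleton_eq_bot], ?_⟩
  rw [Ideal.isCoprime_iff_exists]
  refine ⟨x, Ideal.mem_span_singleton_self x, 1 - x, ?_, by ring⟩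
  rw [← neg_sub]
  exact 𝔪.neg_mem hx1

theorem gd_v {𝔪 : Ideal (𝓞 F)} {v : HeightOneSpectrum (𝓞 F)} (hv : ¬ 𝔪 ≤ v.asIdeal) :
    Gd 𝔪 v.asIdeal := by
  refine ⟨v.ne_bot, ?_⟩
  rw [Ideal.isCoprime_iff_sup_eq]
  have hmax : v.asIdeal.IsMaximal := v.isMaximal
  by_contra hne
  have h5 : v.asIdeal ≤ v.asIdeal ⊔ 𝔪 := le_sup_left
  have h6 := hmax.eq_of_le hne h5
  exact hv (le_sup_right.trans h6.symm.le)

theorem exists_c {𝔪 𝔞 : Ideal (𝓞 F)} (h : Gd 𝔪 𝔞) : ∃ c ∈ 𝔞, c - 1 ∈ 𝔪 := by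
  obtain ⟨b, hb, c, hc, h⟩ := Ideal.isCoprime_iff_exists.1 h.2
  refine ⟨b, hb, ?_⟩
  have h2 : b - 1 = -c := by rw [← h]; ring
  rw [h2]
  exact 𝔪.neg_mem hc

variable {R W : Type} [CommRing R] [AddCommGroup W] [Module R W]

/-- the functions of level `𝔪` invariant under the upper triangular matrices -/
def MB (R W : Type) [CommRing R] [AddCommGroup W] [Module R W] (𝔪 : Ideal (𝓞 F)) :
    Submodule R (Pt F 2 → W) where
  carrier := {φ | Lev 𝔪 φ ∧ Bi φ}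
  add_mem' := by
    rintro f g ⟨h1, h2⟩ ⟨h3, h4⟩
    refine ⟨⟨fun x hx => ?_, fun x y hx hy he => ?_⟩, fun g' hg x => ?_⟩
    · rw [Pi.add_apply, h1.1 x hx, h3.1 x hx, add_zero]
    · rw [Pi.add_apply, Pi.add_apply, h1.2 x y hx hy he, h3.2 x y hx hy he]
    · rw [Pi.add_apply, Pi.add_apply, h2 g' hg, h4 g' hg]
  zero_mem' := ⟨⟨fun _ _ => rfl, fun _ _ _ _ _ => rfl⟩, fun _ _ _ => rfl⟩
  smul_mem' := by
    rintro r f ⟨h1, h2⟩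
    refine ⟨⟨fun x hx => ?_, fun x y hx hy he => ?_⟩, fun g' hg x => ?_⟩
    · rw [Pi.smul_apply, h1.1 x hx, smul_zero]
    · rw [Pi.smul_apply, Pi.smul_apply, h1.2 x y hx hy he]
    · rw [Pi.smul_apply, Pi.smul_apply, h2 g' hg]

open Classical in
/-- the operator `b_𝔞` on the boundary functions -/
def be (R W : Type) [CommRing R] [AddCommGroup W] [Module R W] (𝔪 𝔞 : Ideal (𝓞 F)) :
    Module.End R (MB R W 𝔪) :=
  if h : Gd 𝔪 𝔞 then (bo R 𝔪 𝔞 (exists_c h).choose).restrict fun φ hφ =>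
    ⟨(t_BO1 F R W 𝔪 𝔞 _ h.1 h.2 (exists_c h).choose_spec.1 (exists_c h).choose_spec.2 φ hφ.1).1,
      (t_BO1 F R W 𝔪 𝔞 _ h.1 h.2 (exists_c h).choose_spec.1 (exists_c h).choose_spec.2 φ
        hφ.1).2.1 hφ.2⟩
  else 1

/-- independence of the choice -/
theorem bo_indep {𝔪 𝔞 : Ideal (𝓞 F)} (h : Gd 𝔪 𝔞) {a a' : 𝓞 F} (ha : a ∈ 𝔞) (ha1 : a - 1 ∈ 𝔪)
    (ha' : a' ∈ 𝔞) (ha1' : a' - 1 ∈ 𝔪) {φ : Pt F 2 → W} (hφ : Lev 𝔪 φ) :
    bo R 𝔪 𝔞 a φ = bo R 𝔪 𝔞 a' φ := by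
  have hone : IsCoprime (1 : Ideal (𝓞 F)) 𝔪 := isCoprime_one_left
  have hb : (1 : Ideal (𝓞 F)) ≠ ⊥ := one_ne_zero
  have h1 := t_BO2 F R W 𝔪 𝔞 1 a 1 a h.1 hb h.2 hone ha ha1 (by rw [Ideal.one_eq_top]; trivial)
    (by rw [sub_self]; exact 𝔪.zero_mem) (by rw [mul_one]; exact ha) ha1 φ hφ
  have h2 := t_BO2 F R W 𝔪 𝔞 1 a 1 a' h.1 hb h.2 hone ha ha1 (by rw [Ideal.one_eq_top]; trivial)
    (by rw [sub_self]; exact 𝔪.zero_mem) (by rw [mul_one]; exact ha') ha1' φ hφ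
  rw [mul_one] at h1 h2
  exact h1.symm.trans h2

theorem be_apply {𝔪 𝔞 : Ideal (𝓞 F)} (h : Gd 𝔪 𝔞) {a : 𝓞 F} (ha : a ∈ 𝔞) (ha1 : a - 1 ∈ 𝔪)
    (φ : MB R W 𝔪) : (be R W 𝔪 𝔞 φ : Pt F 2 → W) = bo R 𝔪 𝔞 a φ.1 := by
  rw [be, dif_pos h]
  exact bo_indep h (exists_c h).choose_spec.1 (exists_c h).choose_spec.2 ha ha1 φ.2.1

theorem be_mul {𝔪 𝔞 𝔟 : Ideal (𝓞 F)} (h : Gd 𝔪 𝔞) (h' : Gd 𝔪 𝔟) :
    be R W 𝔪 (𝔞 * 𝔟) = be R W 𝔪 𝔞 * be R W 𝔪 𝔟 := by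
  obtain ⟨a, ha, ha1⟩ := exists_c h
  obtain ⟨b, hb, hb1⟩ := exists_c h'
  obtain ⟨c, hc, hc1⟩ := exists_c (gd_mul h h')
  apply LinearMap.ext
  intro φ
  apply Subtype.ext
  rw [Module.End.mul_apply, be_apply (gd_mul h h') hc hc1, be_apply h ha ha1, be_apply h' hb hb1]
  exact (t_BO2 F R W 𝔪 𝔞 𝔟 a b c h.1 h'.1 h.2 h'.2 ha ha1 hb hb1 hc hc1 φ.1 φ.2.1).symm

theorem be_span (h3 : S_BO3) {𝔪 : Ideal (𝓞 F)} {x : 𝓞 F} (hx : x ≠ 0) (hx1 : x - 1 ∈ 𝔪)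
    (hxp : TP x) : be R W 𝔪 (Ideal.span {x}) = 1 := by
  apply LinearMap.ext
  intro φ
  apply Subtype.ext
  rw [be_apply (gd_span hx hx1) (Ideal.mem_span_singleton_self x) hx1]
  exact h3 F R W 𝔪 x hx hx1 hxp φ.1 φ.2.1 φ.2.2

theorem tp_one : TP (1 : 𝓞 F) := by
  intro w
  have h : ((1 : 𝓞 F) : F) = 1 := map_one (algebraMap (𝓞 F) F)
  show 0 < InfinitePlace.embedding_of_isReal w.2 ((1 : 𝓞 F) : F)
  rw [h, map_one]
  exact one_pos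

theorem be_one (h3 : S_BO3) (𝔪 : Ideal (𝓞 F)) : be R W 𝔪 1 = 1 := by
  have := be_span (R := R) (W := W) h3 (𝔪 := 𝔪) (x := 1) one_ne_zero
    (by rw [sub_self]; exact 𝔪.zero_mem) tp_one
  rwa [Ideal.span_singleton_one, ← Ideal.one_eq_top] at this

theorem gd_pow {𝔪 𝔞 : Ideal (𝓞 F)} (h : Gd 𝔪 𝔞) (n : ℕ) : Gd 𝔪 (𝔞 ^ n) :=
  ⟨pow_ne_zero n h.1, h.2.pow_left⟩

theorem be_pow (h3 : S_BO3) {𝔪 𝔞 : Ideal (𝓞 F)} (h : Gd 𝔪 𝔞) (n : ℕ) :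
    be R W 𝔪 (𝔞 ^ n) = be R W 𝔪 𝔞 ^ n := by
  induction n with
  | zero => rw [pow_zero, pow_zero, be_one h3]
  | succ n ih => rw [pow_succ, be_mul (gd_pow h n) h, ih, pow_succ]

theorem bi_hk {𝔪 : Ideal (𝓞 F)} (v : HeightOneSpectrum (𝓞 F)) (j : ℕ) (a : 𝓞 F)
    {φ : Pt F 2 → W} (h : Bi φ) : Bi (hk R 𝔪 v j a φ) := by
  intro b hb x
  have h1 : tr b⁻¹ φ = φ := by
    funext y
    rw [tr_apply, inv_inv]
    exact h b hb y
  have h2 := congrFun (t_HKG F 2 R W 𝔪 v j a b⁻¹ φ) x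
  rw [h1, tr_apply, inv_inv] at h2
  exact h2.symm

theorem t_EXB (h3 : S_BO3) (h4 : S_BO4) (h5 : S_BO5) (hN : S_HNB) : S_EXB := by
  classical
  intro F _ _ 𝔪 h𝔪 S hS a ha R W k _ _ _ _ _ _ H ρW lam hl
  obtain ⟨φ₀, hφ₀, hφB, hlam⟩ := hl
  obtain ⟨h, hh, hpow⟩ := hN F 𝔪 h𝔪
  have hvS : ∀ v ∉ S, ¬ 𝔪 ≤ v.asIdeal := fun v hv h' => hv (hS v h')
  -- the Hecke algebra on `MB`
  let Λ : FreeAlgebra R (Ix 2 S) →ₐ[R] Module.End R (MB R W 𝔪) :=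
    FreeAlgebra.lift R fun q => (hk R 𝔪 q.1.1 q.1.2 (a q.1.1)).restrict fun φ hφ =>
      ⟨t_HKL F 2 R W 𝔪 q.1.1 q.1.2 (a q.1.1) (hvS _ q.2.1) (ha _ q.2.1).1 (ha _ q.2.1).2 φ hφ.1,
        bi_hk q.1.1 q.1.2 (a q.1.1) hφ.2⟩
  have hΛι : ∀ q (φ : MB R W 𝔪), (Λ (FreeAlgebra.ι R q) φ : Pt F 2 → W) =
      hk R 𝔪 q.1.1 q.1.2 (a q.1.1) φ.1 := by
    intro q φ
    simp only [Λ, FreeAlgebra.lift_ι_apply]
    rfl
  have hΛ : ∀ t (φ : MB R W 𝔪), (Λ t φ : Pt F 2 → W) = act R 𝔪 S a t φ.1 := by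
    intro t φ
    exact Pool.Agent.T2h62.CG.lift_comm (R := R) _
      (fun q : Ix 2 S => hk (n := 2) (W := W) R 𝔪 q.1.1 q.1.2 (a q.1.1)) (MB R W 𝔪).subtype
      (fun q φ => rfl) t φ
  -- powers
  have hpow1 : ∀ v : HeightOneSpectrum (𝓞 F), ¬ 𝔪 ≤ v.asIdeal → be R W 𝔪 v.asIdeal ^ h = 1 := by
    intro v hv
    obtain ⟨x, hx0, hx1, hxp, hx⟩ := hpow v.asIdeal v.ne_bot (gd_v hv).2
    rw [← be_pow h3 (gd_v hv), hx, be_span h3 hx0 hx1 hxp]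
  -- the quadratic relation
  have hquad : ∀ v (hv : v ∉ S), Λ (FreeAlgebra.ι R ⟨(v, 1), hv, le_rfl, by norm_num⟩) *
      be R W 𝔪 v.asIdeal = be R W 𝔪 v.asIdeal * be R W 𝔪 v.asIdeal +
      (Ideal.absNorm v.asIdeal : R) •
        Λ (FreeAlgebra.ι R ⟨(v, 2), hv, by norm_num, le_rfl⟩) := by
    intro v hv
    apply LinearMap.ext
    intro φ
    apply Subtype.ext
    rw [LinearMap.add_apply, Module.End.mul_apply, Module.End.mul_apply, LinearMap.smul_apply,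
      Submodule.coe_add, Submodule.coe_smul, hΛι, hΛι, be_apply (gd_v (hvS v hv)) (ha v hv).1
      (ha v hv).2, be_apply (gd_v (hvS v hv)) (ha v hv).1 (ha v hv).2, be_apply (gd_v (hvS v hv))
      (ha v hv).1 (ha v hv).2]
    exact h4 F R W 𝔪 v (a v) h𝔪 (hvS v hv) (ha v hv).1 (ha v hv).2 φ.1 φ.2.1
  -- the generators
  let s : Set (Module.End R (MB R W 𝔪)) :=
    {e | ∃ v : HeightOneSpectrum (𝓞 F), ¬ 𝔪 ≤ v.asIdeal ∧ e = be R W 𝔪 v.asIdeal} ∪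
    {e | ∃ (v : HeightOneSpectrum (𝓞 F)) (hv : v ∉ S),
      e = Λ (FreeAlgebra.ι R ⟨(v, 2), hv, by norm_num, le_rfl⟩)}
  have hbb : ∀ 𝔞 𝔟 : Ideal (𝓞 F), Gd 𝔪 𝔞 → Gd 𝔪 𝔟 →
      be R W 𝔪 𝔞 * be R W 𝔪 𝔟 = be R W 𝔪 𝔟 * be R W 𝔪 𝔞 := by
    intro 𝔞 𝔟 h1 h2
    rw [← be_mul h1 h2, ← be_mul h2 h1, mul_comm]
  have hzb : ∀ (v w : HeightOneSpectrum (𝓞 F)) (hv : v ∉ S), ¬ 𝔪 ≤ w.asIdeal →
      Λ (FreeAlgebra.ι R ⟨(v, 2), hv, by norm_num, le_rfl⟩) * be R W 𝔪 w.asIdeal =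
      be R W 𝔪 w.asIdeal * Λ (FreeAlgebra.ι R ⟨(v, 2), hv, by norm_num, le_rfl⟩) := by
    intro v w hv hw
    obtain ⟨c, hc, hc1⟩ := exists_c (gd_v hw)
    apply LinearMap.ext
    intro φ
    apply Subtype.ext
    rw [Module.End.mul_apply, Module.End.mul_apply, hΛι, be_apply (gd_v hw) hc hc1,
      be_apply (gd_v hw) hc hc1, hΛι]
    exact (h5 F R W 𝔪 w.asIdeal v v (a v) (a v) c h𝔪 w.ne_bot (gd_v hw).2 hc hc1 (hvS v hv)
      (ha v hv).1 (ha v hv).2 (hvS v hv) (ha v hv).1 (ha v hv).2 φ.1 φ.2.1).1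
  have hzz : ∀ (v w : HeightOneSpectrum (𝓞 F)) (hv : v ∉ S) (hw : w ∉ S),
      Λ (FreeAlgebra.ι R ⟨(v, 2), hv, by norm_num, le_rfl⟩) *
        Λ (FreeAlgebra.ι R ⟨(w, 2), hw, by norm_num, le_rfl⟩) =
      Λ (FreeAlgebra.ι R ⟨(w, 2), hw, by norm_num, le_rfl⟩) *
        Λ (FreeAlgebra.ι R ⟨(v, 2), hv, by norm_num, le_rfl⟩) := by
    intro v w hv hw
    apply LinearMap.ext
    intro φ
    apply Subtype.ext
    rw [Module.End.mul_apply, Module.End.mul_apply, hΛι, hΛι, hΛι, hΛι]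
    exact (h5 F R W 𝔪 v.asIdeal v w (a v) (a w) (a v) h𝔪 v.ne_bot (gd_v (hvS v hv)).2
      (ha v hv).1 (ha v hv).2 (hvS v hv) (ha v hv).1 (ha v hv).2 (hvS w hw) (ha w hw).1
      (ha w hw).2 φ.1 φ.2.1).2.1
  have hcomm : ∀ x ∈ s, ∀ y ∈ s, x * y = y * x := by
    rintro x (⟨v, hv, rfl⟩ | ⟨v, hv, rfl⟩) y (⟨w, hw, rfl⟩ | ⟨w, hw, rfl⟩)
    · exact hbb _ _ (gd_v hv) (gd_v hw)
    · exact (hzb w v hw hv).symm
    · exact hzb v w hv hw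
    · exact hzz v w hv hw
  have hbmem : ∀ v : HeightOneSpectrum (𝓞 F), ¬ 𝔪 ≤ v.asIdeal →
      be R W 𝔪 v.asIdeal ∈ Algebra.adjoin R s := fun v hv =>
    Algebra.subset_adjoin (Or.inl ⟨v, hv, rfl⟩)
  have hzmem : ∀ (v : HeightOneSpectrum (𝓞 F)) (hv : v ∉ S),
      Λ (FreeAlgebra.ι R ⟨(v, 2), hv, by norm_num, le_rfl⟩) ∈ Algebra.adjoin R s := fun v hv =>
    Algebra.subset_adjoin (Or.inr ⟨v, hv, rfl⟩)
  have hTmem : ∀ (v : HeightOneSpectrum (𝓞 F)) (hv : v ∉ S),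
      Λ (FreeAlgebra.ι R ⟨(v, 1), hv, le_rfl, by norm_num⟩) ∈ Algebra.adjoin R s := by
    intro v hv
    obtain ⟨h', rfl⟩ := Nat.exists_eq_succ_of_ne_zero hh
    have h6 : Λ (FreeAlgebra.ι R ⟨(v, 1), hv, le_rfl, by norm_num⟩) =
        (be R W 𝔪 v.asIdeal * be R W 𝔪 v.asIdeal + (Ideal.absNorm v.asIdeal : R) •
        Λ (FreeAlgebra.ι R ⟨(v, 2), hv, by norm_num, le_rfl⟩)) * be R W 𝔪 v.asIdeal ^ h' := by
      rw [← hquad v hv, mul_assoc, ← pow_succ']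
      rw [show h' + 1 = h'.succ from rfl, hpow1 v (hvS v hv), mul_one]
    rw [h6]
    exact mul_mem (add_mem (mul_mem (hbmem v (hvS v hv)) (hbmem v (hvS v hv)))
      (Subalgebra.smul_mem _ (hzmem v hv) _)) (pow_mem (hbmem v (hvS v hv)) _)
  have hΛmem : ∀ q, Λ (FreeAlgebra.ι R q) ∈ Algebra.adjoin R s := by
    rintro ⟨⟨v, j⟩, hv, hj1, hj2⟩
    have hj : j = 1 ∨ j = 2 := by
      change 1 ≤ j at hj1
      change j ≤ 2 at hj2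
      omega
    rcases hj with rfl | rfl
    · exact hTmem v hv
    · exact hzmem v hv
  obtain ⟨ψ, hψ⟩ := ext_alg s hcomm Λ hΛmem (by
    rintro x (⟨v, hv, rfl⟩ | ⟨v, hv, rfl⟩)
    · exact Or.inl ⟨h, hh, hpow1 v hv⟩
    · exact Or.inr ⟨_, rfl⟩) lam (by
    intro t ht
    apply hlam
    have h1 := hΛ t ⟨φ₀, hφ₀.1, hφB⟩
    rw [ht] at h1
    exact h1.symm)
  refine ⟨fun v => if hv : ¬ 𝔪 ≤ v.asIdeal then ψ ⟨be R W 𝔪 v.asIdeal, hbmem v hv⟩ else 1,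
    ?_, ?_⟩
  · -- `RC`
    have key : ∀ t : Multiset (HeightOneSpectrum (𝓞 F)), (∀ v ∈ t, ¬ 𝔪 ≤ v.asIdeal) →
        Gd 𝔪 (t.map fun v => v.asIdeal).prod ∧
        ∃ hm : be R W 𝔪 (t.map fun v => v.asIdeal).prod ∈ Algebra.adjoin R s,
          (t.map fun v => if hv : ¬ 𝔪 ≤ v.asIdeal then
            ψ ⟨be R W 𝔪 v.asIdeal, hbmem v hv⟩ else 1).prod = ψ ⟨_, hm⟩ := by
      intro t
      induction t using Multiset.induction with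
      | empty =>
        intro _
        refine ⟨?_, ?_, ?_⟩
        · rw [Multiset.map_zero, Multiset.prod_zero]
          exact ⟨one_ne_zero, isCoprime_one_left⟩
        · rw [Multiset.map_zero, Multiset.prod_zero, be_one h3]
          exact one_mem _
        · rw [Multiset.map_zero, Multiset.prod_zero]
          have h1 : (⟨be R W 𝔪 ((0 : Multiset (HeightOneSpectrum (𝓞 F))).map
              fun v => v.asIdeal).prod, by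
                rw [Multiset.map_zero, Multiset.prod_zero, be_one h3]
                exact one_mem _⟩ : Algebra.adjoin R s) = 1 := by
            apply Subtype.ext
            show be R W 𝔪 _ = 1
            rw [Multiset.map_zero, Multiset.prod_zero, be_one h3]
          rw [h1, map_one]
      | cons v t ih =>
        intro hvt
        have hv := hvt v (Multiset.mem_cons_self v t)
        obtain ⟨h1, hm, h2⟩ := ih fun w hw => hvt w (Multiset.mem_cons_of_mem hw)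
        have e : be R W 𝔪 ((v ::ₘ t).map fun v => v.asIdeal).prod =
            be R W 𝔪 v.asIdeal * be R W 𝔪 (t.map fun v => v.asIdeal).prod := by
          rw [Multiset.map_cons, Multiset.prod_cons, be_mul (gd_v hv) h1]
        have hm' : be R W 𝔪 ((v ::ₘ t).map fun v => v.asIdeal).prod ∈ Algebra.adjoin R s := by
          rw [e]
          exact mul_mem (hbmem v hv) hm
        refine ⟨?_, hm', ?_⟩
        · rw [Multiset.map_cons, Multiset.prod_cons]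
          exact gd_mul (gd_v hv) h1
        · rw [Multiset.map_cons, Multiset.prod_cons, h2, dif_pos hv, ← map_mul]
          congr 1
          apply Subtype.ext
          exact e.symm
    intro t x hx0 hx1 hxp ht
    have hgood : ∀ v ∈ t, ¬ 𝔪 ≤ v.asIdeal := by
      intro v hv hle
      have h1 : v.asIdeal ∣ (t.map fun v => v.asIdeal).prod :=
        Multiset.dvd_prod (Multiset.mem_map_of_mem _ hv)
      rw [ht] at h1
      have h2 : x ∈ v.asIdeal := Ideal.dvd_iff_le.1 h1 (Ideal.mem_span_singleton_self x)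
      have h3 : (1 : 𝓞 F) ∈ v.asIdeal := by
        have := v.asIdeal.sub_mem h2 (hle hx1)
        rwa [sub_sub_cancel] at this
      exact v.isPrime.ne_top ((Ideal.eq_top_iff_one _).2 h3)
    obtain ⟨-, hm, h2⟩ := key t hgood
    rw [h2]
    have h1 : (⟨be R W 𝔪 (t.map fun v => v.asIdeal).prod, hm⟩ : Algebra.adjoin R s) = 1 := by
      apply Subtype.ext
      show be R W 𝔪 _ = 1
      rw [ht, be_span h3 hx0 hx1 hxp]
    rw [h1, map_one]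
  · -- the root
    intro v hv
    have hv' := hvS v hv
    beta_reduce
    rw [dif_pos hv']
    have e1 : ev lam v 1 = ψ ⟨_, hΛmem ⟨(v, 1), hv, le_rfl, by norm_num⟩⟩ := by
      rw [hψ, ev, dif_pos ⟨hv, le_rfl, by norm_num⟩]
    have e2 : ev lam v 2 = ψ ⟨_, hΛmem ⟨(v, 2), hv, by norm_num, le_rfl⟩⟩ := by
      rw [hψ, ev, dif_pos ⟨hv, by norm_num, le_rfl⟩]
    have e3 : (⟨_, hΛmem ⟨(v, 1), hv, le_rfl, by norm_num⟩⟩ : Algebra.adjoin R s) *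
        ⟨be R W 𝔪 v.asIdeal, hbmem v hv'⟩ = ⟨be R W 𝔪 v.asIdeal, hbmem v hv'⟩ *
        ⟨be R W 𝔪 v.asIdeal, hbmem v hv'⟩ + (Ideal.absNorm v.asIdeal : Algebra.adjoin R s) *
        ⟨_, hΛmem ⟨(v, 2), hv, by norm_num, le_rfl⟩⟩ := by
      apply Subtype.ext
      have h6 := hquad v hv
      rw [Nat.cast_smul_eq_nsmul, nsmul_eq_mul] at h6
      exact h6
    have e4 := congrArg ψ e3
    rw [map_mul, map_add, map_mul, map_mul, map_natCast, ← e1, ← e2] at e4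
    rw [pow_two, e4]
    ring

end Pool.Agent.T2h61.CH.TEXB
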