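import Pool.Agent.T2h61.CH.Stm
import Pool.Agent.T2h61.CG.T_FRB

/-!
# Calegari–Geraghty for `GL_2` over number fields: B7 (Chebotarev)
-/

set_option autoImplicit false
set_option linter.unusedSectionVars false

open NumberField IsDedekindDomain Pool.Agent.W401.Cheb Pool.Agent.T2h61.CG

noncomputable section

namespace Pool.Agent.T2h61.CH.TFRC

theorem main (F L M : Type) [Field F] [NumberField F] [Field L] [NumberField L] [Field M]
    [NumberField M] [Algebra F L] [Algebra L M] [Algebra F M] [IsScalarTower F L M] [IsGalois F L]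
    [IsGalois ℚ M] (g : Gal(L/F)) (B : ℕ) :
    ∃ (v : HeightOneSpectrum (𝓞 F)) (ℓ : ℕ)
      (_ : Fact ℓ.Prime) (φ : 𝓞 L →+* AlgebraicClosure (ZMod ℓ)), B < ℓ ∧
        Ideal.absNorm v.asIdeal = ℓ ∧ IsFrob v φ g := by
  have hG : IsGalois F M := IsGalois.tower_top_of_isGalois ℚ F M
  let res : Gal(M/F) →* Gal(L/F) := AlgEquiv.restrictNormalHom (F := F) (K₁ := M) L
  have hres : Function.Surjective res := AlgEquiv.restrictNormalHom_surjective M
  obtain ⟨σ, rfl⟩ := hres g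
  set τ : Gal(M/ℚ) := AlgEquiv.restrictScalars ℚ σ with hτ
  have hτx : ∀ x : M, τ x = σ x := fun x => rfl
  have hinf := infinite_frob M τ
  obtain ⟨ℓ, ⟨hℓ, hx⟩, hnot⟩ := (hinf.sdiff (Set.finite_Iic B)).nonempty
  have hF : Fact ℓ.Prime := ⟨hℓ⟩
  rw [xp, dif_pos hℓ] at hx
  obtain ⟨⟨φ, hφ⟩⟩ := (Nat.card_ne_zero.1 hx).1
  set ψ : 𝓞 F →+* AlgebraicClosure (ZMod ℓ) := φ.comp (algebraMap (𝓞 F) (𝓞 M)) with hψ
  have hψx : ∀ x, ψ x = ψ x ^ ℓ := by
    intro x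
    have h1 : τ • algebraMap (𝓞 F) (𝓞 M) x = algebraMap (𝓞 F) (𝓞 M) x := by
      apply RingOfIntegers.ext
      exact σ.commutes (x : F)
    have h2 := hφ (algebraMap (𝓞 F) (𝓞 M) x)
    rw [h1] at h2
    exact h2
  have hcard := Pool.Agent.T2h61.CG.TFRB.card_quot ψ hψx
  have hne : RingHom.ker ψ ≠ ⊥ := by
    intro h0
    rw [h0] at hcard
    have h1 : (ℓ : 𝓞 F) ∈ RingHom.ker ψ := by
      rw [RingHom.mem_ker, map_natCast]
      exact CharP.cast_eq_zero _ ℓ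
    rw [h0, Ideal.mem_bot] at h1
    exact hℓ.ne_zero (by exact_mod_cast h1)
  let v : HeightOneSpectrum (𝓞 F) := ⟨RingHom.ker ψ, RingHom.ker_isPrime ψ, hne⟩
  have hv : Ideal.absNorm v.asIdeal = ℓ := by
    rw [← hcard]
    rfl
  refine ⟨v, ℓ, hF, φ.comp (algebraMap (𝓞 L) (𝓞 M)), not_le.1 hnot, hv, ?_, ?_⟩
  · intro x
    show x ∈ RingHom.ker ψ ↔ φ (algebraMap (𝓞 L) (𝓞 M) (algebraMap (𝓞 F) (𝓞 L) x)) = 0
    rw [RingHom.mem_ker, hψ, RingHom.comp_apply, ← IsScalarTower.algebraMap_apply (𝓞 F) (𝓞 L) (𝓞 M)]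
  · intro x y hxy
    have h1 : algebraMap (𝓞 L) (𝓞 M) y = τ • algebraMap (𝓞 L) (𝓞 M) x := by
      apply RingOfIntegers.ext
      show algebraMap L M (y : L) = σ (algebraMap L M (x : L))
      rw [hxy]
      exact AlgEquiv.restrictNormal_commutes σ L (x : L)
    rw [RingHom.comp_apply, RingHom.comp_apply, h1, hv]
    exact hφ _

theorem t_FRC : S_FRC := by
  intro F L _ _ _ _ _ _ g B
  obtain ⟨M, _, _, _, ζ, hM, -⟩ := Pool.Agent.T2h61.CG.TFRB.exists_M L 1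
  let _ : Algebra F M := ((algebraMap L M).comp (algebraMap F L)).toAlgebra
  have : IsScalarTower F L M := IsScalarTower.of_algebraMap_eq' rfl
  exact main F L M g B

end Pool.Agent.T2h61.CH.TFRC
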