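import Pool.Agent.T2h61.CH.Stm

/-!
# Calegari–Geraghty for `GL_2` over number fields: B5 (existence of Frobenius elements)
-/

set_option autoImplicit false

open NumberField IsDedekindDomain Pool.Agent.T2h61.CG

noncomputable section

namespace Pool.Agent.T2h61.CH.TFRE

theorem t_FRE : S_FRE := by
  intro F L _ _ _ _ _ _ v ℓ _ φ hv
  have hQ : (RingHom.ker φ).IsPrime := RingHom.ker_isPrime φ
  have hund : (RingHom.ker φ).under (𝓞 F) = v.asIdeal := by
    ext x
    rw [Ideal.under_def, Ideal.mem_comap, RingHom.mem_ker, hv]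
  have hne : RingHom.ker φ ≠ ⊥ := by
    intro h0
    obtain ⟨x, hx, hx0⟩ := Submodule.exists_mem_ne_zero_of_ne_bot v.ne_bot
    have h1 : algebraMap (𝓞 F) (𝓞 L) x ∈ RingHom.ker φ := by
      rw [RingHom.mem_ker, ← hv]
      exact hx
    rw [h0, Ideal.mem_bot] at h1
    exact hx0 ((map_eq_zero_iff _ (FaithfulSMul.algebraMap_injective (𝓞 F) (𝓞 L))).1 h1)
  have hfin : Finite (𝓞 L ⧸ RingHom.ker φ) := Ideal.finiteQuotientOfFreeOfNeBot _ hne
  obtain ⟨σ, hσ⟩ := IsArithFrobAt.exists_of_isInvariant (𝓞 F) Gal(L/F) (RingHom.ker φ)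
  refine ⟨σ, hv, fun x y hxy => ?_⟩
  have h1 := hσ x
  have h2 : y = σ • x := by
    apply RingOfIntegers.ext
    rw [hxy]
    rfl
  have h3 : Nat.card (𝓞 F ⧸ (RingHom.ker φ).under (𝓞 F)) = Ideal.absNorm v.asIdeal := by
    rw [hund]
    rfl
  rw [h3] at h1
  have h4 : σ • x - x ^ Ideal.absNorm v.asIdeal ∈ RingHom.ker φ := h1
  rw [RingHom.mem_ker, map_sub, map_pow, sub_eq_zero] at h4
  rw [h2, h4]

end Pool.Agent.T2h61.CH.TFRE
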