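import Pool.Agent.T2h61.CH.T_GSW
import Pool.Agent.T2h62.CG.Grp

/-!
# Task GAB: the subgroups of prime power order are abelian
-/

set_option autoImplicit false

open Matrix

noncomputable section

namespace Pool.Agent.T2h61.CH.TGAB

open Pool.Agent.T2h61.CH.TGSW

variable {k : Type} [Field k]

/-- a nonzero vector is part of a basis -/
lemma exists_indep (w : Fin 2 → k) (hw : w ≠ 0) : ∃ u : Fin 2 → k, LinearIndependent k ![w, u] := by
  by_cases h0 : w 0 = 0
  · have h1 : w 1 ≠ 0 := by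
      intro h
      apply hw
      funext i
      fin_cases i
      · exact h0
      · exact h
    refine ⟨![1, 0], LinearIndependent.pair_iff.2 fun s t h => ?_⟩
    have e1 := congrFun h 1
    have e0 := congrFun h 0
    simp only [Pi.add_apply, Pi.smul_apply, smul_eq_mul, Matrix.cons_val_one, Matrix.cons_val_zero,
      mul_zero, add_zero, mul_one, Pi.zero_apply, h0, zero_add] at e0 e1
    refine ⟨(mul_eq_zero.1 ?_).resolve_right h1, e0⟩
    simpa using e1
  · refine ⟨![0, 1], LinearIndependent.pair_iff.2 fun s t h => ?_⟩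
    have e1 := congrFun h 1
    have e0 := congrFun h 0
    simp only [Pi.add_apply, Pi.smul_apply, smul_eq_mul, Matrix.cons_val_zero, mul_zero, add_zero,
      Pi.zero_apply] at e0
    have hs : s = 0 := (mul_eq_zero.1 e0).resolve_right h0
    refine ⟨hs, ?_⟩
    rw [hs] at e1
    simpa using e1

/-- the eigenspaces for different eigenvalues are lines -/
lemma eigenspace_line {M : Matrix (Fin 2) (Fin 2) k} {w₁ w₂ v : Fin 2 → k} {a b : k}
    (hi : LinearIndependent k ![w₁, w₂]) (hab : a ≠ b) (e1 : M *ᵥ w₁ = a • w₁) (e2 : M *ᵥ w₂ = b • w₂)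
    (e : M *ᵥ v = a • v) : ∃ c : k, v = c • w₁ := by
  obtain ⟨x, y, rfl⟩ := span_pair hi v
  rw [Matrix.mulVec_add, Matrix.mulVec_smul, Matrix.mulVec_smul, e1, e2] at e
  have h1 : (0 : k) • w₁ + (y * (b - a)) • w₂ = 0 := by
    have : (0 : k) • w₁ + (y * (b - a)) • w₂ = (x • a • w₁ + y • b • w₂) - a • (x • w₁ + y • w₂) := by
      module
    rw [this, e, sub_self]
  obtain ⟨-, h3⟩ := (LinearIndependent.pair_iff.1 hi) _ _ h1
  have hy : y = 0 := (mul_eq_zero.1 h3).resolve_right (sub_ne_zero.2 hab.symm)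
  exact ⟨x, by rw [hy, zero_smul, add_zero]⟩

/-- powers of a triangular matrix -/
lemma pow_tri {G : Type} [Group G] (ρ : G →* GL (Fin 2) k) (x : G) {w u : Fin 2 → k} {a α β : k}
    (e1 : (ρ x).1 *ᵥ w = a • w) (e2 : (ρ x).1 *ᵥ u = α • w + β • u) (m : ℕ) :
    (ρ (x ^ m)).1 *ᵥ w = a ^ m • w ∧ ∃ c : k, (ρ (x ^ m)).1 *ᵥ u = c • w + β ^ m • u := by
  induction m with
  | zero =>
    rw [pow_zero, pow_zero, pow_zero, map_one]
    exact ⟨by rw [one_smul]; exact Matrix.one_mulVec w, 0, by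
      rw [one_smul, zero_smul, zero_add]; exact Matrix.one_mulVec u⟩
  | succ m ih =>
    obtain ⟨i1, c, i2⟩ := ih
    rw [pow_succ', mv_mul, mv_mul, i1, i2]
    refine ⟨by rw [Matrix.mulVec_smul, e1, smul_smul, pow_succ], a * c + α * β ^ m, ?_⟩
    rw [Matrix.mulVec_add, Matrix.mulVec_smul, Matrix.mulVec_smul, e1, e2, pow_succ]
    module

/-- powers of a matrix with one eigenvalue -/
lemma pow_jor {G : Type} [Group G] (ρ : G →* GL (Fin 2) k) (x : G) {w u : Fin 2 → k} {a α : k}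
    (e1 : (ρ x).1 *ᵥ w = a • w) (e2 : (ρ x).1 *ᵥ u = α • w + a • u) (m : ℕ) :
    (ρ (x ^ (m + 1))).1 *ᵥ w = a ^ (m + 1) • w ∧
      (ρ (x ^ (m + 1))).1 *ᵥ u = (((m + 1 : ℕ) : k) * a ^ m * α) • w + a ^ (m + 1) • u := by
  induction m with
  | zero =>
    rw [zero_add, pow_one, e1, e2]
    refine ⟨by rw [pow_one], ?_⟩
    simp
  | succ m ih =>
    obtain ⟨i1, i2⟩ := ih
    rw [pow_succ' x (m + 1), mv_mul, mv_mul, i1, i2]
    refine ⟨by rw [Matrix.mulVec_smul, e1, smul_smul, ← pow_succ], ?_⟩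
    rw [Matrix.mulVec_add, Matrix.mulVec_smul, Matrix.mulVec_smul, e1, e2]
    push_cast
    rw [pow_succ a (m + 1), pow_succ a m]
    module

/-- the case of the residue characteristic -/
lemma case_char {G : Type} [Group G] [Finite G] (ρ : G →* GL (Fin 2) k) (hinj : Function.Injective ρ)
    {ℓ : ℕ} [Fact ℓ.Prime] [CharP k ℓ] (P : Subgroup G) (hP : IsPGroup ℓ P) :
    ∀ x ∈ P, ∀ y ∈ P, x * y = y * x := by
  let ac : DistribMulAction P (Fin 2 → k) :=
    { smul := fun g v => (ρ g).1 *ᵥ v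
      one_smul := fun v => by
        show (ρ (1 : G)).1 *ᵥ v = v
        rw [map_one]; exact Matrix.one_mulVec v
      mul_smul := fun g g' v => mv_mul ρ g g' v
      smul_zero := fun g => Matrix.mulVec_zero _
      smul_add := fun g v w => Matrix.mulVec_add _ v w }
  obtain ⟨w, hw0, hw⟩ := Pool.Agent.T2h62.CG.exists_fixed hP (A := Fin 2 → k) (fun a => by
    funext i
    rw [Pi.smul_apply, nsmul_eq_mul, CharP.cast_eq_zero, zero_mul]
    rfl)
  have hw' : ∀ x ∈ P, (ρ x).1 *ᵥ w = w := fun x hx => hw ⟨x, hx⟩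
  obtain ⟨u, hi⟩ := exists_indep w hw0
  have hu : ∀ x ∈ P, ∃ α : k, (ρ x).1 *ᵥ u = α • w + u := by
    intro x hx
    obtain ⟨α, β, h1⟩ := span_pair hi ((ρ x).1 *ᵥ u)
    obtain ⟨n, hn⟩ := hP ⟨x, hx⟩
    have hn' : x ^ ℓ ^ n = 1 := congrArg Subtype.val hn
    have e1 : (ρ x).1 *ᵥ w = (1 : k) • w := by rw [hw' x hx, one_smul]
    obtain ⟨-, c, h2⟩ := pow_tri ρ x e1 h1 (ℓ ^ n)
    rw [hn', map_one] at h2
    have h3 : u = c • w + β ^ ℓ ^ n • u := (Matrix.one_mulVec u).symm.trans h2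
    have h4 : c • w + (β ^ ℓ ^ n - 1) • u = 0 := by
      rw [sub_smul, one_smul, ← add_sub_assoc, ← h3, sub_self]
    obtain ⟨-, h5⟩ := LinearIndependent.pair_iff.1 hi _ _ h4
    have h6 : (β - 1) ^ ℓ ^ n = 0 := by rw [sub_pow_char_pow, one_pow, h5]
    have h7 : β = 1 := sub_eq_zero.1 (pow_eq_zero_iff (pow_pos (Fact.out : ℓ.Prime).pos n).ne' |>.1 h6)
    exact ⟨α, by rw [h1, h7, one_smul]⟩
  intro x hx y hy
  obtain ⟨α, hα⟩ := hu x hx
  obtain ⟨β, hβ⟩ := hu y hy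
  apply hinj
  apply Units.ext
  apply ext_pair hi
  · rw [mv_mul, mv_mul, hw' x hx, hw' y hy, hw' x hx]
  · rw [mv_mul, mv_mul, hα, hβ, Matrix.mulVec_add, Matrix.mulVec_add, Matrix.mulVec_smul,
      Matrix.mulVec_smul, hw' x hx, hw' y hy, hα, hβ]
    module

/-- in a nonabelian group of prime power order there are `x` and `g` whose commutator is central and
nontrivial -/
lemma exists_central {P : Type} [Group P] [Finite P] {ℓ : ℕ} [Fact ℓ.Prime] (hP : IsPGroup ℓ P)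
    (hna : ∃ x y : P, x * y ≠ y * x) :
    ∃ x g z : P, x * g = z * g * x ∧ z ≠ 1 ∧ ∀ y : P, y * z = z * y := by
  have hQ : Nontrivial (P ⧸ Subgroup.center P) := by
    rw [← not_subsingleton_iff_nontrivial]
    intro hs
    obtain ⟨x, y, hxy⟩ := hna
    apply hxy
    have h1 : (x : P ⧸ Subgroup.center P) = 1 := Subsingleton.elim _ _
    rw [QuotientGroup.eq_one_iff, Subgroup.mem_center_iff] at h1
    exact (h1 y).symm
  have hcn : Nontrivial (Subgroup.center (P ⧸ Subgroup.center P)) :=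
    (hP.to_quotient (Subgroup.center P)).center_nontrivial
  obtain ⟨⟨q, hq⟩, hq1⟩ := exists_ne (1 : Subgroup.center (P ⧸ Subgroup.center P))
  obtain ⟨g, rfl⟩ := QuotientGroup.mk_surjective q
  have hg : g ∉ Subgroup.center P := by
    intro h
    apply hq1
    apply Subtype.ext
    exact (QuotientGroup.eq_one_iff g).2 h
  rw [Subgroup.mem_center_iff] at hg
  push Not at hg
  obtain ⟨x, hx⟩ := hg
  refine ⟨x, g, x * g * x⁻¹ * g⁻¹, by group, ?_, ?_⟩
  · intro h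
    apply hx
    have : x * g = x * g * x⁻¹ * g⁻¹ * (g * x) := by group
    rw [this, h, one_mul]
  · have h1 : x * g * x⁻¹ * g⁻¹ ∈ Subgroup.center P := by
      rw [← QuotientGroup.eq_one_iff]
      have h2 := Subgroup.mem_center_iff.1 hq (x : P ⧸ Subgroup.center P)
      rw [QuotientGroup.mk_mul, QuotientGroup.mk_mul, QuotientGroup.mk_mul, h2, QuotientGroup.mk_inv,
        QuotientGroup.mk_inv, mul_inv_cancel_right, mul_inv_cancel]
    exact Subgroup.mem_center_iff.1 h1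

theorem t_GAB : S_GAB := by
  intro G k _ _ _ _ ρ ψ hinj hGH ℓ hℓ P hP
  have : Fact ℓ.Prime := ⟨hℓ⟩
  by_cases hch : (ℓ : k) = 0
  · have : CharP k ℓ := (CharP.charP_iff_prime_eq_zero hℓ).2 hch
    exact case_char ρ hinj P hP
  by_contra hna
  push Not at hna
  obtain ⟨x0, hx0, y0, hy0, hxy0⟩ := hna
  obtain ⟨⟨x, hxP⟩, ⟨g, hgP⟩, ⟨z, hzP⟩, hxg, hz1, hzc⟩ := exists_central hP
    ⟨⟨x0, hx0⟩, ⟨y0, hy0⟩, fun h => hxy0 (congrArg Subtype.val h)⟩
  have hxg' : x * g = z * g * x := congrArg Subtype.val hxg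
  have hz1' : z ≠ 1 := fun h => hz1 (Subtype.ext h)
  have hzc' : ∀ y ∈ P, y * z = z * y := fun y hy => congrArg Subtype.val (hzc ⟨y, hy⟩)
  obtain ⟨u, hu0, hu⟩ := exists_vec _ _ (hGH.eig z)
  obtain ⟨ζ, hζ⟩ : ∃ ζ : k, ζ = (ψ z : k) := ⟨_, rfl⟩
  rw [← hζ] at hu
  have hζ0 : ζ ≠ 0 := by rw [hζ]; exact (ψ z).ne_zero
  obtain ⟨u', hi⟩ := exists_indep u hu0
  obtain ⟨α, β, hu'⟩ := span_pair hi ((ρ z).1 *ᵥ u')
  by_cases hβ : β = ζ
  · -- one eigenvalue: `z` acts by a scalar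
    rw [hβ] at hu'
    obtain ⟨n, hn⟩ := hP ⟨z, hzP⟩
    have hn' : z ^ ℓ ^ n = 1 := congrArg Subtype.val hn
    obtain ⟨m, hm⟩ : ∃ m, ℓ ^ n = m + 1 := ⟨ℓ ^ n - 1, by have := pow_pos hℓ.pos n; omega⟩
    obtain ⟨-, h2⟩ := pow_jor ρ z hu hu' m
    rw [← hm, hn', map_one] at h2
    have h3 : u' = (((ℓ ^ n : ℕ) : k) * ζ ^ m * α) • u + ζ ^ ℓ ^ n • u' := (Matrix.one_mulVec u').symm.trans h2
    have h4 : (((ℓ ^ n : ℕ) : k) * ζ ^ m * α) • u + (ζ ^ ℓ ^ n - 1) • u' = 0 := by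
      rw [sub_smul, one_smul, ← add_sub_assoc, ← h3, sub_self]
    obtain ⟨h5, -⟩ := LinearIndependent.pair_iff.1 hi _ _ h4
    have hα : α = 0 := by
      rcases mul_eq_zero.1 h5 with h6 | h6
      · exfalso
        rcases mul_eq_zero.1 h6 with h7 | h7
        · rw [Nat.cast_pow] at h7
          exact hch (pow_eq_zero_iff (n := n) (by
            rintro rfl
            rw [pow_zero] at h7
            exact one_ne_zero h7) |>.1 h7)
        · exact (pow_ne_zero m hζ0) h7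
      · exact h6
    rw [hα, zero_smul, zero_add] at hu'
    have hsc : ∀ v : Fin 2 → k, (ρ z).1 *ᵥ v = ζ • v := by
      intro v
      obtain ⟨s, t, rfl⟩ := span_pair hi v
      rw [Matrix.mulVec_add, Matrix.mulVec_smul, Matrix.mulVec_smul, hu, hu']
      module
    have hζ1 : ζ ≠ 1 := by
      intro h
      apply hz1'
      apply hinj
      apply Units.ext
      rw [map_one]
      apply ext_pair hi
      · rw [hsc, h, one_smul]; exact (Matrix.one_mulVec u).symm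
      · rw [hsc, h, one_smul]; exact (Matrix.one_mulVec u').symm
    obtain ⟨w₁, hw1, f1⟩ := exists_vec _ _ (hGH.eig g)
    obtain ⟨a, ha⟩ : ∃ a : k, a = (ψ g : k) := ⟨_, rfl⟩
    rw [← ha] at f1
    have ha0 : a ≠ 0 := by rw [ha]; exact (ψ g).ne_zero
    have hstep : ∀ (v : Fin 2 → k) (t : k), (ρ g).1 *ᵥ v = t • v →
        (ρ g).1 *ᵥ ((ρ x).1 *ᵥ v) = (ζ⁻¹ * t) • ((ρ x).1 *ᵥ v) := by
      intro v t hv
      have h6 : (ρ (x * g)).1 *ᵥ v = (ρ (z * g * x)).1 *ᵥ v := by rw [hxg']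
      rw [mv_mul, hv, mv_mul, mv_mul, hsc, Matrix.mulVec_smul] at h6
      rw [mul_smul, h6, smul_smul, inv_mul_cancel₀ hζ0, one_smul]
    have f2 := hstep w₁ a f1
    have hw2 := mv_ne ρ x w₁ hw1
    have f3 := hstep _ _ f2
    have hw3 := mv_ne ρ x _ hw2
    have hne : a ≠ ζ⁻¹ * a := by
      intro h
      apply hζ1
      have : (1 : k) = ζ⁻¹ := mul_right_cancel₀ ha0 (by rw [one_mul]; exact h)
      rw [eq_comm, inv_eq_one] at this
      exact this
    have hi2 := indep hw1 hw2 hne f1 f2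
    rcases eig_pair hi2 f1 f2 hw3 f3 with h7 | h7
    · rw [h7] at f3
      obtain ⟨d, hd⟩ := eigenspace_line hi2 hne f1 f2 f3
      exact t_GSW G k ρ ψ hinj hGH g x w₁ _ a (ζ⁻¹ * a) 1 d hw1 hw2 hne f1 f2 (by rw [one_smul]) hd
    · apply hne
      exact (mul_left_cancel₀ (inv_ne_zero hζ0) h7).symm
  · -- two eigenvalues
    have hsub : β - ζ ≠ 0 := sub_ne_zero.2 hβ
    obtain ⟨v, hv⟩ : ∃ v, v = u' + (α / (β - ζ)) • u := ⟨_, rfl⟩
    have hv1 : (ρ z).1 *ᵥ v = β • v := by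
      rw [hv, Matrix.mulVec_add, Matrix.mulVec_smul, hu, hu']
      have : α = (β - ζ) * (α / (β - ζ)) := by field_simp
      generalize α / (β - ζ) = c at this
      rw [this]
      module
    have hv0 : v ≠ 0 := by
      intro h
      rw [hv] at h
      have h8 : (α / (β - ζ)) • u + (1 : k) • u' = 0 := by rw [one_smul, add_comm]; exact h
      exact one_ne_zero (LinearIndependent.pair_iff.1 hi _ _ h8).2
    have hi2 := indep hu0 hv0 (Ne.symm hβ) hu hv1
    have hi3 := indep hv0 hu0 hβ hv1 hu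
    have hPu : ∀ y ∈ P, ∃ c : k, (ρ y).1 *ᵥ u = c • u := by
      intro y hy
      apply eigenspace_line hi2 (Ne.symm hβ) hu hv1
      rw [← mv_mul, ← hzc' y hy, mv_mul, hu, Matrix.mulVec_smul]
    have hPv : ∀ y ∈ P, ∃ c : k, (ρ y).1 *ᵥ v = c • v := by
      intro y hy
      apply eigenspace_line hi3 hβ hv1 hu
      rw [← mv_mul, ← hzc' y hy, mv_mul, hv1, Matrix.mulVec_smul]
    apply hxy0
    obtain ⟨c1, h1⟩ := hPu x0 hx0
    obtain ⟨c2, h2⟩ := hPu y0 hy0
    obtain ⟨d1, h3⟩ := hPv x0 hx0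
    obtain ⟨d2, h4⟩ := hPv y0 hy0
    apply hinj
    apply Units.ext
    apply ext_pair hi2
    · rw [mv_mul, mv_mul, h1, h2, Matrix.mulVec_smul, Matrix.mulVec_smul, h1, h2, smul_comm]
    · rw [mv_mul, mv_mul, h3, h4, Matrix.mulVec_smul, Matrix.mulVec_smul, h3, h4, smul_comm]

end Pool.Agent.T2h61.CH.TGAB
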