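import Pool.Agent.T2h61.CH.T_GSW
import Pool.Agent.T2h62.CG.Grp

/-!
# Task GIN: a representation in dimension two whose eigenvalues contain a character has an invariant line
-/

set_option autoImplicit false

open Matrix

noncomputable section

namespace Pool.Agent.T2h61.CH.TGIN

open Pool.Agent.T2h61.CH.TGSW

/-- a two by two matrix of determinant one with eigenvalue one is unipotent -/
lemma charpoly_eq {k : Type} [Field k] (M : Matrix (Fin 2) (Fin 2) k) (h1 : M.det = 1)
    (h2 : M.charpoly.eval 1 = 0) : M.charpoly = (Polynomial.X - 1) ^ 2 := by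
  have h3 := Matrix.charpoly_fin_two M
  rw [h1] at h3
  rw [h3] at h2 ⊢
  simp only [Polynomial.eval_add, Polynomial.eval_sub, Polynomial.eval_pow, Polynomial.eval_X,
    Polynomial.eval_mul, Polynomial.eval_C] at h2
  have h4 : M.trace = 2 := by linear_combination -h2
  rw [h4]
  simp only [map_ofNat, map_one]
  ring

theorem t_GIN : S_GIN := by
  intro G k _ _ _ _ p hp hch ρ ψ heig
  have : Fact p.Prime := ⟨hp⟩
  -- the twist
  let τ : G →* GL (Fin 2) k :=
    { toFun := fun g => Units.map (Matrix.scalar (Fin 2)).toMonoidHom (ψ g)⁻¹ * ρ g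
      map_one' := by simp
      map_mul' := fun g h => by
        apply Units.ext
        simp only [map_mul, mul_inv, Units.val_mul]
        have : ∀ (c : k) (M : Matrix (Fin 2) (Fin 2) k), Matrix.scalar (Fin 2) c * M = c • M := by
          intro c M
          rw [Matrix.scalar_apply, ← Matrix.smul_one_eq_diagonal, Matrix.smul_mul, one_mul]
        show Matrix.scalar (Fin 2) ((ψ g)⁻¹ : kˣ).1 * Matrix.scalar (Fin 2) ((ψ h)⁻¹ : kˣ).1 *
          ((ρ g).1 * (ρ h).1) = Matrix.scalar (Fin 2) ((ψ g)⁻¹ : kˣ).1 * (ρ g).1 *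
            (Matrix.scalar (Fin 2) ((ψ h)⁻¹ : kˣ).1 * (ρ h).1)
        rw [mul_assoc, this, this, this, this, Matrix.mul_smul, Matrix.smul_mul, smul_comm] }
  have hτ : ∀ g, (τ g).1 = ((ψ g)⁻¹ : kˣ).1 • (ρ g).1 := by
    intro g
    show Matrix.scalar (Fin 2) ((ψ g)⁻¹ : kˣ).1 * (ρ g).1 = _
    rw [Matrix.scalar_apply, ← Matrix.smul_one_eq_diagonal, Matrix.smul_mul, one_mul]
  have hτ1 : ∀ g, (τ g).1.charpoly.eval 1 = 0 := by
    intro g
    obtain ⟨v, hv, e⟩ := exists_vec _ _ (heig g)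
    rw [Matrix.eval_charpoly]
    apply Matrix.exists_mulVec_eq_zero_iff.1
    refine ⟨v, hv, ?_⟩
    rw [hτ, Matrix.sub_mulVec, Matrix.smul_mulVec, e, smul_smul, ← Units.val_mul, inv_mul_cancel, Units.val_one,
      one_smul, map_one, Matrix.one_mulVec, sub_self]
  have hcomm : ∀ g ∈ commutator G, ∃ N, τ g ^ (p ^ N) = 1 := by
    intro g hg
    apply Pool.Agent.T2h62.CG.pow_eq_one
    apply charpoly_eq _ _ (hτ1 g)
    have h1 : commutator G ≤ ((Matrix.GeneralLinearGroup.det (n := Fin 2) (R := k)).comp τ).ker :=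
      Abelianization.commutator_subset_ker _
    have h2 := h1 hg
    rw [MonoidHom.mem_ker] at h2
    exact congrArg Units.val h2
  obtain ⟨v, hv, h⟩ := Pool.Agent.T2h62.CG.exists_eigenvector (p := p) (n := 2) (by norm_num) τ hcomm
  refine ⟨v, hv, fun g => ?_⟩
  obtain ⟨a, ha⟩ := h g
  refine ⟨(ψ g : k) * a, ?_⟩
  rw [hτ, Matrix.smul_mulVec] at ha
  rw [mul_smul, ← ha, smul_smul, ← Units.val_mul, mul_inv_cancel, Units.val_one, one_smul]

end Pool.Agent.T2h61.CH.TGIN
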