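import Pool.Agent.T2h61.CH.Stm
import Pool.Agent.Y767.HC.Grp

/-!
# The narrow ray class group is finite
-/

set_option autoImplicit false
set_option linter.all false

open NumberField IsDedekindDomain

namespace Pool.Agent.T2h61.CH.THNB

theorem t_HNB : S_HNB := by
  classical
  intro F _ _ 𝔪 hb
  haveI : Finite (𝓞 F ⧸ 𝔪) := Ideal.finiteQuotientOfFreeOfNeBot 𝔪 hb
  haveI : Finite (𝓞 F ⧸ 𝔪)ˣ := inferInstance
  set e : ℕ := Nat.card (𝓞 F ⧸ 𝔪)ˣ with he
  have he0 : e ≠ 0 := Nat.card_pos.ne'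
  set c : ℕ := Fintype.card (ClassGroup (𝓞 F)) with hc
  have hc0 : c ≠ 0 := Fintype.card_ne_zero
  refine ⟨c * (2 * e), by positivity, fun 𝔞 h𝔞 hcop => ?_⟩
  have h1 : (ClassGroup.mk0 ⟨𝔞, mem_nonZeroDivisors_iff_ne_zero.mpr h𝔞⟩ : ClassGroup (𝓞 F)) ^ c = 1 :=
    pow_card_eq_one
  rw [← map_pow, ClassGroup.mk0_eq_one_iff] at h1
  obtain ⟨y, hy⟩ := h1.principal
  have hy' : 𝔞 ^ c = Ideal.span {y} := hy
  have hy0 : y ≠ 0 := by
    rintro rfl
    rw [Ideal.span_singleton_zero] at hy'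
    exact pow_ne_zero c h𝔞 hy'
  have hcy : IsCoprime (Ideal.span {y}) 𝔪 := by
    rw [← hy']
    exact IsCoprime.pow_left hcop
  have hu := Pool.Agent.Y767.isUnit_mk hcy
  have h2 : Ideal.Quotient.mk 𝔪 (y ^ e) = 1 := by
    rw [map_pow, ← IsUnit.unit_spec hu, ← Units.val_pow_eq_pow_val, he, pow_card_eq_one',
      Units.val_one]
  refine ⟨y ^ (2 * e), pow_ne_zero _ hy0, ?_, ?_, ?_⟩
  · rw [← Ideal.Quotient.eq_zero_iff_mem, map_sub, mul_comm, pow_mul, map_pow, h2, one_pow, map_one,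
      sub_self]
  · intro w
    have h3 : ((y ^ (2 * e) : 𝓞 F) : F) = ((y : F) ^ e) ^ 2 := by
      push_cast
      ring
    rw [h3, map_pow]
    have h4 : InfinitePlace.embedding_of_isReal w.2 ((y : F) ^ e) ≠ 0 := by
      rw [Ne, map_eq_zero]
      exact pow_ne_zero _ (by simpa using hy0)
    positivity
  · rw [pow_mul, hy', Ideal.span_singleton_pow]

end Pool.Agent.T2h61.CH.THNB
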