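import Pool.Agent.T2h61.CH.Stm
import Pool.Agent.T2h61.CG.T_EXP

/-!
# Norms of totally positive elements
-/

set_option autoImplicit false
set_option linter.all false

open NumberField IsDedekindDomain

namespace Pool.Agent.T2h61.CH.TNOR

theorem norm_prod {K : Type} [Field K] [NumberField K] (x : 𝓞 K) :
    ((Algebra.norm ℤ x : ℤ) : ℂ) = ∏ φ : K →+* ℂ, φ (x : K) := by
  have h1 := Algebra.norm_eq_prod_embeddings ℚ ℂ (x : K)
  rw [← Fintype.prod_equiv (RingHom.equivRatAlgHom K ℂ) (fun φ : K →+* ℂ => φ (x : K))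
    (fun φ => φ (x : K)) (fun _ => rfl)] at h1
  rw [← h1, ← Algebra.coe_norm_int]
  simp

/-- the norm of a totally positive element is positive -/
theorem norm_pos {K : Type} [Field K] [NumberField K] {x : 𝓞 K} (hx : x ≠ 0) (h : TP x) :
    0 < Algebra.norm ℤ x := by
  classical
  have hx0 : (x : K) ≠ 0 := by simpa using hx
  have key : ∀ w : InfinitePlace K, ∃ r : ℝ, 0 < r ∧
      ∏ φ ∈ Finset.univ.filter (fun φ : K →+* ℂ => InfinitePlace.mk φ = w), φ (x : K) = (r : ℂ) := by
    intro w
    have hf : Finset.univ.filter (fun φ : K →+* ℂ => InfinitePlace.mk φ = w) =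
        {w.embedding, ComplexEmbedding.conjugate w.embedding} := by
      ext φ
      rw [Finset.mem_filter, Finset.mem_insert, Finset.mem_singleton]
      constructor
      · rintro ⟨-, h1⟩
        rw [← InfinitePlace.mk_embedding w, InfinitePlace.mk_eq_iff] at h1
        rcases h1 with h1 | h1
        · left
          exact h1
        · right
          rw [← h1]
          simp
      · intro h1
        refine ⟨Finset.mem_univ _, ?_⟩
        rcases h1 with rfl | rfl
        · exact InfinitePlace.mk_embedding w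
        · rw [InfinitePlace.mk_conjugate_eq, InfinitePlace.mk_embedding]
    rw [hf]
    by_cases hw : w.IsReal
    · have hc : ComplexEmbedding.conjugate w.embedding = w.embedding :=
        ComplexEmbedding.isReal_iff.1 (InfinitePlace.isReal_iff.1 hw)
      refine ⟨InfinitePlace.embedding_of_isReal hw (x : K), h ⟨w, hw⟩, ?_⟩
      rw [hc, Finset.pair_eq_singleton, Finset.prod_singleton,
        InfinitePlace.embedding_of_isReal_apply]
    · have hne : w.embedding ≠ ComplexEmbedding.conjugate w.embedding := by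
        intro hc
        exact hw (InfinitePlace.isReal_iff.2 (ComplexEmbedding.isReal_iff.2 hc.symm))
      refine ⟨Complex.normSq (w.embedding (x : K)), ?_, ?_⟩
      · rw [Complex.normSq_pos]
        exact (map_ne_zero _).2 hx0
      · rw [Finset.prod_pair hne, ComplexEmbedding.conjugate_coe_eq, Complex.mul_conj]
  choose r hr hr2 using key
  have h1 := norm_prod x
  rw [← Finset.prod_fiberwise Finset.univ InfinitePlace.mk (fun φ : K →+* ℂ => φ (x : K)),
    Finset.prod_congr rfl (fun w _ => hr2 w), ← Complex.ofReal_prod] at h1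
  have h2 : ((Algebra.norm ℤ x : ℤ) : ℝ) = ∏ w, r w := by exact_mod_cast h1
  have h3 : (0 : ℝ) < ((Algebra.norm ℤ x : ℤ) : ℝ) := by
    rw [h2]
    exact Finset.prod_pos fun w _ => hr w
  exact_mod_cast h3

theorem t_NOR : S_NOR := by
  intro K _ _ m x hx hx1 hp
  obtain ⟨z, hz⟩ := Ideal.mem_span_singleton'.1 hx1
  have h1 := Pool.Agent.T2h61.CG.TEXP.norm_congr m x 1 z (by
    have : x = 1 + (x - 1) := by ring
    rw [this, ← hz]
    ring)
  rw [map_one] at h1
  have h2 : (Ideal.absNorm (Ideal.span {x}) : ℤ) = Algebra.norm ℤ x := by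
    rw [Ideal.absNorm_span_singleton, Int.natAbs_of_nonneg (norm_pos hx hp).le]
  have h3 : ((Algebra.norm ℤ x : ℤ) : ZMod m) = 1 := by
    have h4 := (ZMod.intCast_zmod_eq_zero_iff_dvd _ m).2 h1
    push_cast at h4
    exact sub_eq_zero.1 h4
  rw [← h3, ← h2]
  push_cast
  rfl

end Pool.Agent.T2h61.CH.TNOR
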