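import Pool.Agent.T2h61.CH.Stm

/-!
# Calegari–Geraghty for `GL_2` over number fields: B2 (norms of ray class characters)
-/

set_option autoImplicit false

open NumberField IsDedekindDomain Pool.Agent.T2h61.CG

noncomputable section

namespace Pool.Agent.T2h61.CH.TNRC

section

variable {F E : Type} [Field F] [NumberField F] [Field E] [NumberField E] [Algebra F E]

theorem coe_intNorm (x : 𝓞 E) :
    ((Algebra.intNorm (𝓞 F) (𝓞 E) x : 𝓞 F) : F) = Algebra.norm F (x : E) :=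
  Algebra.algebraMap_intNorm (A := 𝓞 F) (K := F) (L := E) (B := 𝓞 E) x

theorem norm_sub_one {N : ℕ} (hN : N ≠ 0) (x : 𝓞 E) (hx : x - 1 ∈ Ideal.span {(N : 𝓞 E)}) :
    Algebra.intNorm (𝓞 F) (𝓞 E) x - 1 ∈ Ideal.span {(N : 𝓞 F)} := by
  classical
  obtain ⟨z, hz⟩ := Ideal.mem_span_singleton'.1 hx
  have hxz : x = 1 + N * z := by rw [mul_comm, hz]; ring
  let Ω := AlgebraicClosure E
  have h1 := Algebra.norm_eq_prod_embeddings F Ω (x : E)
  have h2 : ∃ a : Ω, IsIntegral ℤ a ∧ ∏ σ : E →ₐ[F] Ω, σ (x : E) = 1 + N * a := by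
    refine Finset.prod_induction (fun σ : E →ₐ[F] Ω => σ (x : E))
      (fun u => ∃ a : Ω, IsIntegral ℤ a ∧ u = 1 + N * a) ?_ ?_ ?_
    · rintro _ _ ⟨a, ha, rfl⟩ ⟨b, hb, rfl⟩
      refine ⟨a + b + N * a * b, (ha.add hb).add (((isIntegral_algebraMap (R := ℤ) (x := (N : ℤ))).mul ha).mul hb |> fun h => ?_), by ring⟩
      simpa using h
    · exact ⟨0, isIntegral_zero, by ring⟩
    · intro σ _
      refine ⟨σ (z : E), (RingOfIntegers.isIntegral_coe z).map (σ.restrictScalars ℤ), ?_⟩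
      rw [hxz]
      simp
  obtain ⟨a, ha, hprod⟩ := h2
  rw [hprod, ← coe_intNorm] at h1
  set y : 𝓞 F := Algebra.intNorm (𝓞 F) (𝓞 E) x with hy
  have hN' : (N : F) ≠ 0 := Nat.cast_ne_zero.2 hN
  have hNΩ : (N : Ω) ≠ 0 := Nat.cast_ne_zero.2 hN
  have h3 : algebraMap F Ω (((y : F) - 1) / N) = a := by
    rw [map_div₀, map_sub, h1, map_one, map_natCast, add_sub_cancel_left, mul_div_cancel_left₀ _ hNΩ]
  have h4 : IsIntegral ℤ (((y : F) - 1) / N) := by
    rw [← h3] at ha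
    exact (isIntegral_algebraMap_iff (algebraMap F Ω).injective).1 ha
  refine Ideal.mem_span_singleton'.2 ⟨⟨_, h4⟩, ?_⟩
  apply RingOfIntegers.ext
  show (((y : F) - 1) / N) * algebraMap (𝓞 F) F (N : 𝓞 F) = algebraMap (𝓞 F) F (y - 1)
  rw [map_natCast, div_mul_cancel₀ _ hN', map_sub, map_one]

theorem norm_tp (x : 𝓞 E) (hx0 : x ≠ 0) (hx : TP x) : TP (Algebra.intNorm (𝓞 F) (𝓞 E) x) := by
  classical
  intro w
  let τ : F →+* ℂ := w.1.embedding
  have hτ : ∀ c, starRingEnd ℂ (τ c) = τ c := by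
    intro c
    have h1 : ComplexEmbedding.IsReal τ := InfinitePlace.isReal_iff.1 w.2
    exact RingHom.congr_fun h1 c
  let _ : Algebra F ℂ := τ.toAlgebra
  have h1 := Algebra.norm_eq_prod_embeddings F ℂ (x : E)
  have hx0' : (x : E) ≠ 0 := fun h => hx0 (RingOfIntegers.ext (by rw [h]; rfl))
  have hσ0 : ∀ σ : E →ₐ[F] ℂ, σ (x : E) ≠ 0 := fun σ h => hx0' ((map_eq_zero σ).1 h)
  let cj : (E →ₐ[F] ℂ) → (E →ₐ[F] ℂ) := fun σ =>
    { (starRingEnd ℂ).comp σ.toRingHom with
      commutes' := fun c => by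
        show starRingEnd ℂ (σ (algebraMap F E c)) = τ c
        rw [σ.commutes]
        exact hτ c }
  have hcj : ∀ σ y, cj σ y = starRingEnd ℂ (σ y) := fun _ _ => rfl
  have h2 : ∏ σ : E →ₐ[F] ℂ, (σ (x : E) / (‖σ (x : E)‖ : ℂ)) = 1 := by
    refine Finset.prod_involution (fun σ _ => cj σ) ?_ ?_ ?_ ?_
    · intro σ _
      rw [hcj, Complex.norm_conj, div_mul_div_comm, Complex.mul_conj, Complex.normSq_eq_norm_sq]
      have : (‖σ (x : E)‖ : ℂ) ≠ 0 := by
        rw [Ne, Complex.ofReal_eq_zero, norm_eq_zero]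
        exact hσ0 σ
      rw [Complex.ofReal_pow, pow_two]
      exact div_self (mul_ne_zero this this)
    · intro σ _ hσ hcj'
      apply hσ
      have hreal : ComplexEmbedding.IsReal (σ : E →+* ℂ) := by
        ext y
        exact congrArg (fun f : E →ₐ[F] ℂ => f y) hcj'
      have hw : (InfinitePlace.mk (σ : E →+* ℂ)).IsReal := ⟨_, hreal, rfl⟩
      have h3 := hx ⟨_, hw⟩
      have h4 := InfinitePlace.embedding_of_isReal_apply hw (x : E)
      rw [InfinitePlace.embedding_mk_eq_of_isReal hreal] at h4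
      have h5 : σ (x : E) = ((InfinitePlace.embedding_of_isReal hw (x : E) : ℝ) : ℂ) := h4.symm
      rw [h5, Complex.norm_real, Real.norm_of_nonneg h3.le]
      exact div_self (Complex.ofReal_ne_zero.2 h3.ne')
    · intro σ _
      exact Finset.mem_univ _
    · intro σ _
      ext y
      rw [hcj, hcj, Complex.conj_conj]
  have h3 : ∏ σ : E →ₐ[F] ℂ, σ (x : E) = ((∏ σ : E →ₐ[F] ℂ, ‖σ (x : E)‖ : ℝ) : ℂ) := by
    rw [Finset.prod_div_distrib, div_eq_one_iff_eq] at h2
    · rw [h2, Complex.ofReal_prod]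
    · rw [Finset.prod_ne_zero_iff]
      intro σ _
      rw [Ne, Complex.ofReal_eq_zero, norm_eq_zero]
      exact hσ0 σ
  have h4 : InfinitePlace.embedding_of_isReal w.2
      ((Algebra.intNorm (𝓞 F) (𝓞 E) x : 𝓞 F) : F) = ∏ σ : E →ₐ[F] ℂ, ‖σ (x : E)‖ := by
    apply Complex.ofReal_injective
    rw [InfinitePlace.embedding_of_isReal_apply, coe_intNorm, ← h3, ← h1]
    rfl
  rw [h4]
  exact Finset.prod_pos fun σ _ => norm_pos_iff.2 (hσ0 σ)

end

/-- the prime below -/
def un {F E : Type} [Field F] [NumberField F] [Field E] [NumberField E] [Algebra F E]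
    (w : HeightOneSpectrum (𝓞 E)) : HeightOneSpectrum (𝓞 F) :=
  ⟨w.asIdeal.under (𝓞 F), Ideal.IsPrime.under (𝓞 F) w.asIdeal, by
    intro h0
    obtain ⟨x, hx, hx0⟩ := Submodule.exists_mem_ne_zero_of_ne_bot w.ne_bot
    exact w.ne_bot (Ideal.eq_bot_of_comap_eq_bot (R := 𝓞 F) h0)⟩

theorem exists_s {F E : Type} [Field F] [NumberField F] [Field E] [NumberField E] [Algebra F E]
    (w : HeightOneSpectrum (𝓞 E)) :
    ∃ s : ℕ, Ideal.relNorm (𝓞 F) w.asIdeal = (un (F := F) w).asIdeal ^ s := by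
  have h : (w.asIdeal).LiesOver (un (F := F) w).asIdeal := ⟨rfl⟩
  have h' : (un (F := F) w).asIdeal.IsPrime := (un (F := F) w).isPrime
  exact Ideal.exists_relNorm_eq_pow_of_isPrime w.asIdeal (un (F := F) w).asIdeal

theorem t_NRC : S_NRC := by
  intro F E _ _ _ _ _ k _ χ N hN hχ
  choose s hs using exists_s (F := F) (E := E)
  refine ⟨fun w => χ (un w) ^ s w, ?_, ?_⟩
  · intro S x hx0 hx1 hxp hSx
    have h1 := hχ (S.bind fun w => Multiset.replicate (s w) (un w))
      (Algebra.intNorm (𝓞 F) (𝓞 E) x) ?_ (norm_sub_one hN x hx1) (norm_tp x hx0 hxp) ?_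
    · rw [Multiset.map_bind, Multiset.prod_bind] at h1
      simpa only [Multiset.map_replicate, Multiset.prod_replicate] using h1
    · intro h0
      have h2 : ((Algebra.intNorm (𝓞 F) (𝓞 E) x : 𝓞 F) : F) = 0 := by rw [h0]; rfl
      rw [coe_intNorm, Algebra.norm_eq_zero_iff] at h2
      exact hx0 (RingOfIntegers.ext h2)
    · rw [Multiset.map_bind, Multiset.prod_bind]
      simp only [Multiset.map_replicate, Multiset.prod_replicate, ← hs]
      rw [← Ideal.relNorm_singleton, ← hSx, map_multiset_prod, Multiset.map_map]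
      rfl
  · intro w v hw hv
    have hv' : un w = v := by
      apply HeightOneSpectrum.ext
      refine Ideal.ext fun y => ?_
      exact (hv y).symm
    have h1 : Ideal.absNorm (Ideal.relNorm (𝓞 F) w.asIdeal) = Ideal.absNorm w.asIdeal :=
      Ideal.absNorm_relNorm (R := 𝓞 F) (S := 𝓞 E) w.asIdeal
    rw [hs, map_pow] at h1
    have h2 : s w = 1 := by
      rw [← h1] at hw
      exact (Nat.Prime.eq_one_of_pow hw)
    show χ (un w) ^ s w = χ v
    rw [h2, pow_one, hv']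

end Pool.Agent.T2h61.CH.TNRC
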