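import Pool.Agent.T2h61.CH.Stm

/-!
# `H¹_c` for `GL_2`: the class function attached to a ray class character
-/

set_option autoImplicit false
set_option linter.unusedSectionVars false

open NumberField IsDedekindDomain

noncomputable section

namespace Pool.Agent.T2h61.CH.TPSI

open Pool.Agent.T2h61.CG

section core

variable {F L M : Type} [Field F] [NumberField F] [Field L] [NumberField L] [Field M]
  [NumberField M] [Algebra F L] [Algebra L M] [Algebra F M] [IsScalarTower F L M]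

/-- restriction of Frobenius elements -/
theorem frob_res {v : HeightOneSpectrum (𝓞 F)} {ℓ : ℕ} [Fact ℓ.Prime]
    {φ : 𝓞 M →+* AlgebraicClosure (ZMod ℓ)} {σ : Gal(M/F)} {g : Gal(L/F)}
    (h : ∀ x : L, σ (algebraMap L M x) = algebraMap L M (g x)) (hF : IsFrob v φ σ) :
    IsFrob v (φ.comp (algebraMap (𝓞 L) (𝓞 M))) g := by
  constructor
  · intro x
    rw [hF.1 x, RingHom.comp_apply, ← IsScalarTower.algebraMap_apply (𝓞 F) (𝓞 L) (𝓞 M)]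
  · intro x y hxy
    rw [RingHom.comp_apply, RingHom.comp_apply]
    apply hF.2
    show algebraMap L M (y : L) = σ (algebraMap L M (x : L))
    rw [h, hxy]

/-- the automorphism of `𝓞 M` -/
def oi (σ : Gal(M/F)) : 𝓞 M →+* 𝓞 M := (RingOfIntegers.mapRingHom (σ : M →+* M))

theorem oi_coe (σ : Gal(M/F)) (x : 𝓞 M) : (oi σ x : M) = σ (x : M) := rfl

theorem frob_conj {v : HeightOneSpectrum (𝓞 F)} {ℓ : ℕ} [Fact ℓ.Prime]
    {φ : 𝓞 M →+* AlgebraicClosure (ZMod ℓ)} {σ : Gal(M/F)} (τ : Gal(M/F)) (hF : IsFrob v φ σ) :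
    IsFrob v (φ.comp (oi τ⁻¹)) (τ * σ * τ⁻¹) := by
  constructor
  · intro x
    rw [hF.1 x, RingHom.comp_apply]
    have h1 : oi τ⁻¹ (algebraMap (𝓞 F) (𝓞 M) x) = algebraMap (𝓞 F) (𝓞 M) x := by
      apply RingOfIntegers.ext
      exact (τ⁻¹).commutes (x : F)
    rw [h1]
  · intro x y hxy
    rw [RingHom.comp_apply, RingHom.comp_apply]
    apply hF.2
    rw [oi_coe, oi_coe, hxy, ← AlgEquiv.mul_apply, ← AlgEquiv.mul_apply]
    congr 1
    group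

/-- `χ` has the value `c` at the large primes of degree one with Frobenius `σ` -/
def Val {k : Type} [Field k] (χ : HeightOneSpectrum (𝓞 F) → k) (σ : Gal(M/F)) (c : kˣ) : Prop :=
  ∃ B : ℕ, ∀ (v : HeightOneSpectrum (𝓞 F)) (ℓ : ℕ) [Fact ℓ.Prime]
    (φ : 𝓞 M →+* AlgebraicClosure (ZMod ℓ)), B < ℓ → Ideal.absNorm v.asIdeal = ℓ →
    IsFrob v φ σ → χ v = c

theorem Val.uniq [IsGalois F M] (hFRC : S_FRC) {k : Type} [Field k]
    {χ : HeightOneSpectrum (𝓞 F) → k} {σ : Gal(M/F)} {c d : kˣ} (hc : Val χ σ c)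
    (hd : Val χ σ d) : c = d := by
  obtain ⟨B, hB⟩ := hc
  obtain ⟨C, hC⟩ := hd
  obtain ⟨v, ℓ, hℓ, φ, hl, hv, hF⟩ := hFRC F M σ (max B C)
  have h1 := hB v ℓ φ ((le_max_left _ _).trans_lt hl) hv hF
  have h2 := hC v ℓ φ ((le_max_right _ _).trans_lt hl) hv hF
  exact Units.ext (h1.symm.trans h2)

theorem Val.conj {k : Type} [Field k] {χ : HeightOneSpectrum (𝓞 F) → k} {σ : Gal(M/F)}
    {c : kˣ} (τ : Gal(M/F)) (hc : Val χ (τ * σ * τ⁻¹) c) : Val χ σ c := by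
  obtain ⟨B, hB⟩ := hc
  exact ⟨B, fun v ℓ hℓ φ hl hv hF => hB v ℓ _ hl hv (frob_conj τ hF)⟩

end core

section pairs

variable {G : Type} [Group G]

/-- the subgroup generated by two commuting elements -/
def pr (a b : G) (h : a * b = b * a) : Subgroup G where
  carrier := {y | ∃ i j : ℤ, y = a ^ i * b ^ j}
  one_mem' := ⟨0, 0, by rw [zpow_zero, zpow_zero, one_mul]⟩
  mul_mem' := by
    rintro _ _ ⟨i, j, rfl⟩ ⟨i', j', rfl⟩
    refine ⟨i + i', j + j', ?_⟩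
    have h1 : b ^ j * a ^ i' = a ^ i' * b ^ j :=
      ((Commute.zpow_zpow (show Commute b a from h.symm) j i')).eq
    rw [zpow_add, zpow_add]
    calc a ^ i * b ^ j * (a ^ i' * b ^ j') = a ^ i * (b ^ j * a ^ i') * b ^ j' := by group
      _ = _ := by rw [h1]; group
  inv_mem' := by
    rintro _ ⟨i, j, rfl⟩
    refine ⟨-i, -j, ?_⟩
    have h1 : b ^ (-j) * a ^ (-i) = a ^ (-i) * b ^ (-j) :=
      ((Commute.zpow_zpow (show Commute b a from h.symm) (-j) (-i))).eq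
    rw [mul_inv_rev, ← zpow_neg, ← zpow_neg, h1]

theorem left_mem (a b : G) (h : a * b = b * a) : a ∈ pr a b h :=
  ⟨1, 0, by rw [zpow_one, zpow_zero, mul_one]⟩

theorem right_mem (a b : G) (h : a * b = b * a) : b ∈ pr a b h :=
  ⟨0, 1, by rw [zpow_one, zpow_zero, one_mul]⟩

end pairs

/-- the generators -/
def gen (N : ℕ) (i : Fin 3) : Fin 3 → Multiplicative (ZMod N) :=
  Pi.mulSingle i (Multiplicative.ofAdd 1)

theorem gen_zpow_self (N : ℕ) (i : Fin 3) (a : ℤ) : (gen N i ^ a) i = Multiplicative.ofAdd (a : ZMod N) := by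
  rw [Pi.pow_apply, gen, Pi.mulSingle_eq_same, ← ofAdd_zsmul, zsmul_one]

theorem gen_zpow_ne (N : ℕ) (i j : Fin 3) (hij : j ≠ i) (a : ℤ) : (gen N i ^ a) j = 1 := by
  rw [Pi.pow_apply, gen, Pi.mulSingle_eq_of_ne hij, one_zpow]

/-- independence modulo `N` -/
def Ind {N : ℕ} (c d : Fin 3 → Multiplicative (ZMod N)) : Prop :=
  ∀ i j : ℤ, c ^ i * d ^ j = 1 → (N : ℤ) ∣ i ∧ (N : ℤ) ∣ j

theorem ofAdd_eq_one {N : ℕ} {a : ℤ} (h : Multiplicative.ofAdd (a : ZMod N) = 1) : (N : ℤ) ∣ a := by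
  rw [← ZMod.intCast_zmod_eq_zero_iff_dvd]
  exact h

theorem ind1 (N : ℕ) (i j : Fin 3) (hij : i ≠ j) : Ind (gen N i) (gen N j) := by
  intro a b h
  have h1 := congrFun h i
  have h2 := congrFun h j
  rw [Pi.mul_apply, gen_zpow_self, gen_zpow_ne N j i hij, mul_one] at h1
  rw [Pi.mul_apply, gen_zpow_self, gen_zpow_ne N i j hij.symm, one_mul] at h2
  exact ⟨ofAdd_eq_one h1, ofAdd_eq_one h2⟩

theorem ind2 (N : ℕ) : Ind (gen N 0 * gen N 1) (gen N 2) := by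
  intro a b h
  have h1 := congrFun h 0
  have h2 := congrFun h 2
  rw [mul_zpow, Pi.mul_apply, Pi.mul_apply, gen_zpow_self, gen_zpow_ne N 1 0 (by decide),
    gen_zpow_ne N 2 0 (by decide), mul_one, mul_one] at h1
  rw [mul_zpow, Pi.mul_apply, Pi.mul_apply, gen_zpow_self, gen_zpow_ne N 1 2 (by decide),
    gen_zpow_ne N 0 2 (by decide), one_mul, one_mul] at h2
  exact ⟨ofAdd_eq_one h1, ofAdd_eq_one h2⟩

theorem t_PSI (hCYC : S_CYC) (hAUX : S_AUX) (hFRC : S_FRC) : S_PSI := by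
  intro F L _ _ _ _ _ _ k _ χ 𝔪 h𝔪 hRC B hSpl
  have hfin : Finite Gal(L/F) := inferInstance
  obtain ⟨N, hN⟩ : ∃ N, N = Nat.card Gal(L/F) := ⟨_, rfl⟩
  have hN0 : N ≠ 0 := by
    rw [hN]
    exact Nat.card_pos.ne'
  obtain ⟨M, _, _, _, _, _, _, m, ζ, ι, hm, hζ, hιL, hιζ⟩ := hAUX F L N hN0
  have hSplM : Spl F M χ B := by
    intro v ℓ hℓ φ hl hv hF
    exact hSpl v ℓ _ hl hv (frob_res (g := 1) (fun x => rfl) hF)
  -- two commuting elements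
  have pair : ∀ y₁ y₂ : Gal(L/F) × (Fin 3 → Multiplicative (ZMod N)), y₁.1 * y₂.1 = y₂.1 * y₁.1 →
      Ind y₁.2 y₂.2 → ∃ c₁ c₂ : kˣ, Val χ (ι y₁) c₁ ∧ Val χ (ι y₂) c₂ ∧
        Val χ (ι (y₁ * y₂)) (c₁ * c₂) ∧ Val χ (ι (y₁ * y₂⁻¹)) (c₁ * c₂⁻¹) := by
    intro y₁ y₂ hc hI
    have hcom : y₁ * y₂ = y₂ * y₁ := Prod.ext hc (mul_comm _ _)
    have hcap : ∀ g ∈ (pr y₁ y₂ hcom).map ι, g ζ = ζ → g = 1 := by
      rintro _ ⟨y, ⟨i, j, rfl⟩, rfl⟩ h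
      have h1 := hιζ _ h
      obtain ⟨⟨i', rfl⟩, ⟨j', rfl⟩⟩ := hI i j h1
      have hp : ∀ g : Gal(L/F), ∀ i : ℤ, g ^ ((N : ℤ) * i) = 1 := by
        intro g i
        rw [zpow_mul, zpow_natCast, hN, pow_card_eq_one', one_zpow]
      have h2 : y₁ ^ ((N : ℤ) * i') * y₂ ^ ((N : ℤ) * j') = 1 := by
        apply Prod.ext
        · rw [Prod.fst_mul, Prod.pow_fst, Prod.pow_fst, hp, hp, mul_one]
          rfl
        · exact h1
      rw [h2, map_one]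
    obtain ⟨B', f, hf⟩ := hCYC F M k χ 𝔪 h𝔪 hRC B hSplM m ζ hm hζ _ hcap
    have hval : ∀ g (hg : g ∈ (pr y₁ y₂ hcom).map ι), Val χ g (f ⟨g, hg⟩) := fun g hg =>
      ⟨B', fun v ℓ hℓ φ hl hv hF => hf ⟨g, hg⟩ v ℓ φ hl hv hF⟩
    have m1 : ι y₁ ∈ (pr y₁ y₂ hcom).map ι := ⟨y₁, left_mem _ _ _, rfl⟩
    have m2 : ι y₂ ∈ (pr y₁ y₂ hcom).map ι := ⟨y₂, right_mem _ _ _, rfl⟩
    refine ⟨f ⟨_, m1⟩, f ⟨_, m2⟩, hval _ _, hval _ _, ?_, ?_⟩
    · rw [← map_mul, map_mul]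
      exact hval _ _
    · rw [← map_inv, ← map_mul, map_mul, map_inv]
      exact hval _ _
  have key : ∀ y₁ y₂ : Gal(L/F) × (Fin 3 → Multiplicative (ZMod N)), y₁.1 * y₂.1 = y₂.1 * y₁.1 →
      Ind y₁.2 y₂.2 → ∀ c₁ c₂ : kˣ, Val χ (ι y₁) c₁ → Val χ (ι y₂) c₂ →
        Val χ (ι (y₁ * y₂)) (c₁ * c₂) := by
    intro y₁ y₂ hc hI c₁ c₂ h1 h2
    obtain ⟨d₁, d₂, k1, k2, k3, _⟩ := pair y₁ y₂ hc hI
    rw [h1.uniq hFRC k1, h2.uniq hFRC k2]
    exact k3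
  have one : ∀ c, Val χ (ι (1, c)) 1 := fun c =>
    ⟨B, fun v ℓ hℓ φ hl hv hF => hSpl v ℓ _ hl hv (frob_res (g := 1) (fun x => hιL _ x) hF)⟩
  have swap : ∀ (g : Gal(L/F)) (c d : Fin 3 → Multiplicative (ZMod N)), Ind c d → ∀ e : kˣ,
      Val χ (ι (g, c)) e → Val χ (ι (g, d)) e := by
    intro g c d hI e he
    obtain ⟨d₁, d₂, k1, k2, _, k3⟩ := pair (g, c) (g, d) rfl hI
    have h1 : ((g, c) : Gal(L/F) × (Fin 3 → Multiplicative (ZMod N))) * (g, d)⁻¹ =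
        (1, c * d⁻¹) := by
      apply Prod.ext
      · exact mul_inv_cancel g
      · rfl
    rw [h1] at k3
    have h2 := k3.uniq hFRC (one _)
    rw [mul_inv_eq_one] at h2
    rw [he.uniq hFRC k1, h2]
    exact k2
  have ex : ∀ g : Gal(L/F), ∃ c : kˣ, Val χ (ι (g, gen N 0)) c := by
    intro g
    obtain ⟨c, _, h, _⟩ := pair (g, gen N 0) (g, gen N 1) rfl (ind1 N 0 1 (by decide))
    exact ⟨c, h⟩
  choose ψ hψ using ex
  refine ⟨ψ, ?_, ?_, ?_⟩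
  · intro x g
    refine Val.uniq hFRC (Val.conj (ι (x, 1)) ?_) (hψ g)
    have h1 : ι (x, 1) * ι (g, gen N 0) * (ι (x, 1))⁻¹ = ι (x * g * x⁻¹, gen N 0) := by
      rw [← map_inv, ← map_mul, ← map_mul]
      congr 1
      apply Prod.ext
      · rfl
      · show 1 * gen N 0 * 1⁻¹ = gen N 0
        rw [inv_one, mul_one, one_mul]
    rw [h1]
    exact hψ _
  · intro g h hgh
    have h1 := key (g, gen N 0) (h, gen N 1) hgh (ind1 N 0 1 (by decide)) _ _ (hψ g)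
      (swap h _ _ (ind1 N 0 1 (by decide)) _ (hψ h))
    have h2 : Val χ (ι (g * h, gen N 2)) (ψ g * ψ h) := swap _ _ _ (ind2 N) _ h1
    have h3 := swap _ _ _ (ind1 N 2 0 (by decide)) _ h2
    exact (hψ _).uniq hFRC h3
  · intro g
    obtain ⟨B', hB'⟩ := hψ g
    obtain ⟨v, ℓ, hℓ, φ, hl, hv, hF⟩ := hFRC F M (ι (g, gen N 0)) (max B B')
    exact ⟨v, ℓ, hℓ, φ.comp (algebraMap (𝓞 L) (𝓞 M)), (le_max_left _ _).trans_lt hl, hv,
      frob_res (fun x => hιL _ x) hF, hB' v ℓ φ ((le_max_right _ _).trans_lt hl) hv hF⟩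

end Pool.Agent.T2h61.CH.TPSI
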