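import Pool.Agent.T2h61.CH.Stm
import Pool.Agent.T3h73.SL.T_DEN0
import Pool.Agent.N603.RC.RC3
import Pool.Agent.N784.AD.Cl
import Pool.Agent.Y772.HG.Tot

/-!
# Every narrow ray class of a number field contains primes of degree one of arbitrarily large norm

Variant of `Pool/Agent/T2h61/CG/T_RAY.lean`.
-/

set_option autoImplicit false
set_option linter.all false

open NumberField IsDedekindDomain Filter Topology

namespace Pool.Agent.T2h61.CH.TRAN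

open Pool.Agent.T3h73.SL (Pl)
open Pool.Agent.T3h73.SL.Den0 (fin_le psum norm_pos SP mem_SP sum_eq)
open Pool.Agent.Y772.DK (NN NN_finite cc_mul sum_VM_le)
open Pool.Agent.Y773 (TPos VM cc)
open Pool.Agent.Y773.IQ (ofM' ofM'_pos ofM'_supp cop_one ne_zero_of_cop)
open Pool.Agent.N784.AD (T1 T1_one T1_tp T1_cop pi1 pi1_coe exists_rep cls_card_le exists_moving_tp)
open Pool.Agent.Y767 (Mq Mq_cop Mq_cancel Cls cls cls_eq cls_pi)
open Pool.Agent.Y773.G (IsModChar)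
open Pool.Agent.N603.RC (expand coe)

section

variable {K : Type} [Field K] [NumberField K] {𝔪 : Ideal (𝓞 K)}

/-- the character of the ideals -/
noncomputable def chi (htop : 𝔪 ≠ ⊤) (χ : Cls (pi1 htop) →* ℂˣ) : Ideal (𝓞 K) →*₀ ℂ :=
  ofM' htop (χ.comp (cls (pi1 htop)))

lemma chi_pos (htop : 𝔪 ≠ ⊤) (χ : Cls (pi1 htop) →* ℂˣ) (𝔞 : Mq 𝔪) :
    chi htop χ (𝔞 : Ideal (𝓞 K)) = ((χ (cls (pi1 htop) 𝔞) : ℂˣ) : ℂ) :=
  ofM'_pos htop _ (Mq_cop 𝔞)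

lemma chi_mod (hbot : 𝔪 ≠ ⊥) (htop : 𝔪 ≠ ⊤) (χ : Cls (pi1 htop) →* ℂˣ) :
    ∃ e : InfinitePlace K → ℕ, IsModChar 𝔪 e (chi htop χ) := by
  refine Pool.Agent.Y772.G.exists_sig hbot htop (fun 𝔞 _ => ofM'_supp htop _ 𝔞)
    fun x hx hx1 hxp => ?_
  have h1 := chi_pos htop χ (pi1 htop ⟨x, hx1, hxp⟩)
  rw [cls_pi, map_one, Units.val_one, pi1_coe] at h1
  exact h1

end

/-- the sum of the logarithms of the norms of the primes of a ray class -/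
theorem den (K : Type) [Field K] [NumberField K] (𝔪 : Ideal (𝓞 K)) (hbot : 𝔪 ≠ ⊥) (htop : 𝔪 ≠ ⊤)
    (𝔟 : Ideal (𝓞 K)) (h𝔟 : IsCoprime 𝔟 𝔪) : ∃ (S : Set (Pl K)) (c X₀ : ℝ), 0 < c ∧
    (∀ q ∈ S, ∃ a b : 𝓞 K, a ≠ 0 ∧ b ≠ 0 ∧ a - 1 ∈ 𝔪 ∧ b - 1 ∈ 𝔪 ∧ TPos K a ∧ TPos K b ∧
        Ideal.span {a} * q.asIdeal = Ideal.span {b} * 𝔟) ∧
    ∀ x : ℝ, X₀ ≤ x → ∃ T : Finset (Pl K), (∀ q ∈ T, q ∈ S ∧ (Ideal.absNorm q.asIdeal : ℝ) ≤ x) ∧
      c * x < ∑ q ∈ T, Real.log (Ideal.absNorm q.asIdeal) := by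
  classical
  have hfin := (cls_card_le hbot htop).1
  have := Mq_cancel htop
  let _ := Fintype.ofFinite (Cls (pi1 htop))
  obtain ⟨n, e, -⟩ := Pool.Agent.N603.RC.enum (C := Cls (pi1 htop))
  let _ : Fintype (Cls (pi1 htop) →* ℂˣ) := Fintype.ofEquiv _ e
  set c0 : Cls (pi1 htop) := cls (pi1 htop) ⟨𝔟, h𝔟⟩ with hc0
  set Φ : Cls (pi1 htop) → ℂ := fun c => if c = c0 then 1 else 0 with hΦ
  set h : ℕ := Fintype.card (Cls (pi1 htop)) with hh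
  have hhpos : (0 : ℝ) < h := by
    rw [hh]
    exact_mod_cast Fintype.card_pos
  set P : Ideal (𝓞 K) → Prop := fun 𝔞 => ∃ h1 : IsCoprime 𝔞 𝔪, cls (pi1 htop) ⟨𝔞, h1⟩ = c0 with hP
  have hF : ∀ 𝔞, ∑ χ : Cls (pi1 htop) →* ℂˣ, coe Φ χ * chi htop χ 𝔞 = if P 𝔞 then 1 else 0 := by
    intro 𝔞
    by_cases h𝔞 : IsCoprime 𝔞 𝔪
    · have h1 : ∀ χ : Cls (pi1 htop) →* ℂˣ, chi htop χ 𝔞 =
          ((χ (cls (pi1 htop) ⟨𝔞, h𝔞⟩) : ℂˣ) : ℂ) := fun χ => chi_pos htop χ ⟨𝔞, h𝔞⟩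
      simp_rw [h1]
      rw [← expand Φ, hΦ]
      have h2 : (cls (pi1 htop) ⟨𝔞, h𝔞⟩ = c0) ↔ P 𝔞 := ⟨fun h => ⟨h𝔞, h⟩, fun h => h.2⟩
      simp only [h2]
    · rw [if_neg fun h => h𝔞 h.1]
      refine Finset.sum_eq_zero fun χ _ => ?_
      have h3 : chi htop χ 𝔞 = 0 := by
        by_contra h4
        exact h𝔞 ((ofM'_supp htop _ 𝔞).mp h4)
      rw [h3, mul_zero]
  -- each character
  have key : ∀ χ : Cls (pi1 htop) →* ℂˣ, Tendsto (fun x : ℝ =>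
      (∑ᶠ q ∈ {q : Pl K | (Ideal.absNorm q.asIdeal : ℝ) ≤ x},
      (Real.log (Ideal.absNorm q.asIdeal) : ℂ) * chi htop χ q.asIdeal) / (x : ℂ)) atTop
      (𝓝 (if χ = 1 then (1 : ℂ) else 0)) := by
    intro χ
    obtain ⟨e', he'⟩ := chi_mod hbot htop χ
    obtain ⟨δ, -, h0, h1, T⟩ := Pool.Agent.N864.RC.rc1 K 𝔪 _ _ he'
    have hle : ∀ 𝔞, ‖chi htop χ 𝔞‖ ≤ 1 := by
      intro 𝔞
      by_cases h𝔞 : IsCoprime 𝔞 𝔪
      · have h2 : chi htop χ 𝔞 = ((χ (cls (pi1 htop) ⟨𝔞, h𝔞⟩) : ℂˣ) : ℂ) := chi_pos htop χ ⟨𝔞, h𝔞⟩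
        rw [h2]
        have h3 : ((χ (cls (pi1 htop) ⟨𝔞, h𝔞⟩) : ℂˣ) : ℂ) ^ h = 1 := by
          rw [← Units.val_pow_eq_pow_val, ← map_pow, hh, pow_card_eq_one, map_one, Units.val_one]
        have h4 := congrArg norm h3
        rw [norm_pow, norm_one] at h4
        exact ((pow_eq_one_iff_of_nonneg (norm_nonneg _) (by rw [hh]; exact Fintype.card_ne_zero)).1
          h4).le
      · have h3 : chi htop χ 𝔞 = 0 := by
          by_contra h4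
          exact h𝔞 ((ofM'_supp htop _ 𝔞).mp h4)
        rw [h3, norm_zero]
        exact zero_le_one
    have T2 := psum _ hle T
    have hδ : (δ : ℂ) = if χ = 1 then (1 : ℂ) else 0 := by
      split_ifs with hχ
      · have : δ = 1 := h1 fun 𝔞 h𝔞 => by
          have h2 : chi htop χ 𝔞 = ((χ (cls (pi1 htop) ⟨𝔞, h𝔞⟩) : ℂˣ) : ℂ) := chi_pos htop χ ⟨𝔞, h𝔞⟩
          rw [h2, hχ, MonoidHom.one_apply, Units.val_one]
        rw [this, Complex.ofReal_one]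
      · have : δ = 0 := by
          obtain ⟨c, hc⟩ : ∃ c, χ c ≠ 1 := by
            by_contra hcon
            push Not at hcon
            exact hχ (MonoidHom.ext hcon)
          obtain ⟨𝔞, h𝔞⟩ := exists_rep hbot htop c
          refine h0 ⟨(𝔞 : Ideal (𝓞 K)), Mq_cop 𝔞, ?_⟩
          rw [chi_pos htop χ 𝔞, h𝔞]
          intro h
          exact hc (Units.ext h)
        rw [this, Complex.ofReal_zero]
    rw [hδ] at T2
    exact T2
  have T := tendsto_finsetSum (Finset.univ : Finset (Cls (pi1 htop) →* ℂˣ))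
    fun χ _ => (key χ).const_mul (coe Φ χ)
  have hlim : ∑ χ : Cls (pi1 htop) →* ℂˣ, coe Φ χ * (if χ = 1 then (1 : ℂ) else 0) =
      (((h : ℝ)⁻¹ : ℝ) : ℂ) := by
    simp_rw [mul_ite, mul_one, mul_zero]
    rw [Finset.sum_ite_eq' Finset.univ, if_pos (Finset.mem_univ _)]
    unfold coe
    rw [hΦ]
    simp only [MonoidHom.one_apply, Units.val_one, mul_one]
    rw [Finset.sum_ite_eq' Finset.univ, if_pos (Finset.mem_univ _), ← hh]
    push_cast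
    rw [one_div]
  rw [hlim] at T
  have e1 : ∀ x : ℝ, ∑ χ : Cls (pi1 htop) →* ℂˣ, coe Φ χ *
      ((∑ᶠ q ∈ {q : Pl K | (Ideal.absNorm q.asIdeal : ℝ) ≤ x},
      (Real.log (Ideal.absNorm q.asIdeal) : ℂ) * chi htop χ q.asIdeal) / (x : ℂ)) =
      (((∑ q ∈ (fin_le (K := K) x).toFinset.filter fun q => P q.asIdeal,
        Real.log (Ideal.absNorm q.asIdeal)) / x : ℝ) : ℂ) := by
    intro x
    have h1 : ∀ χ : Cls (pi1 htop) →* ℂˣ, coe Φ χ *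
      ((∑ᶠ q ∈ {q : Pl K | (Ideal.absNorm q.asIdeal : ℝ) ≤ x},
      (Real.log (Ideal.absNorm q.asIdeal) : ℂ) * chi htop χ q.asIdeal) / (x : ℂ)) =
      (∑ q ∈ (fin_le (K := K) x).toFinset, (Real.log (Ideal.absNorm q.asIdeal) : ℂ) *
        (coe Φ χ * chi htop χ q.asIdeal)) / (x : ℂ) := by
      intro χ
      rw [finsum_mem_eq_finite_toFinset_sum _ (fin_le x), ← mul_div_assoc, Finset.mul_sum]
      congr 1
      refine Finset.sum_congr rfl fun q _ => ?_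
      ring
    simp_rw [h1]
    rw [← Finset.sum_div, Finset.sum_comm, Finset.sum_filter]
    rw [Complex.ofReal_div, Complex.ofReal_sum]
    congr 1
    refine Finset.sum_congr rfl fun q _ => ?_
    rw [← Finset.mul_sum, hF]
    split_ifs
    · rw [mul_one]
    · rw [mul_zero, Complex.ofReal_zero]
  have T1 := T.congr e1
  have T2 := (Complex.continuous_re.tendsto _).comp T1
  rw [Complex.ofReal_re] at T2
  have E1 : ∀ᶠ x : ℝ in atTop, (h : ℝ)⁻¹ / 2 < (∑ q ∈ (fin_le (K := K) x).toFinset.filter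
      fun q => P q.asIdeal, Real.log (Ideal.absNorm q.asIdeal)) / x := by
    refine (T2.eventually (lt_mem_nhds (half_lt_self (inv_pos.2 hhpos)))).mono fun x hx => ?_
    rw [Function.comp_apply, Complex.ofReal_re] at hx
    exact hx
  obtain ⟨X₀, hX₀⟩ := Filter.eventually_atTop.1 (E1.and (eventually_gt_atTop (1 : ℝ)))
  refine ⟨{q | P q.asIdeal}, (h : ℝ)⁻¹ / 2, X₀, half_pos (inv_pos.2 hhpos), ?_, fun x hx =>
    ⟨(fin_le (K := K) x).toFinset.filter fun q => P q.asIdeal, ?_, ?_⟩⟩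
  · rintro q ⟨h2, h3⟩
    obtain ⟨a, b, hab⟩ := cls_eq h3
    have h4 := congrArg Subtype.val hab
    rw [Submonoid.coe_mul, Submonoid.coe_mul, pi1_coe, pi1_coe] at h4
    exact ⟨a, b, ne_zero_of_cop htop (T1_cop a), ne_zero_of_cop htop (T1_cop b), T1_one a,
      T1_one b, T1_tp a, T1_tp b, h4⟩
  · intro q hq
    obtain ⟨hq1, hq2⟩ := Finset.mem_filter.1 hq
    have hq3 : q ∈ {q : Pl K | (Ideal.absNorm q.asIdeal : ℝ) ≤ x} :=
      (Set.Finite.mem_toFinset _).1 hq1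
    exact ⟨hq2, hq3⟩
  · obtain ⟨e2, e3⟩ := hX₀ x hx
    rwa [lt_div_iff₀ (by linarith)] at e2

/-- the primes of degree at least two -/
theorem nd (K : Type) [Field K] [NumberField K] : ∃ C : ℝ, ∀ x : ℝ, ∀ T : Finset (Pl K),
    (∀ q ∈ T, (Ideal.absNorm q.asIdeal : ℝ) ≤ x ∧ ¬ (Ideal.absNorm q.asIdeal).Prime) →
    ∑ q ∈ T, Real.log (Ideal.absNorm q.asIdeal) ≤ C * Real.sqrt x := by
  classical
  obtain ⟨C, hC⟩ := Chebyshev.psi_sub_theta_le_mul_sqrt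
  set d : ℝ := (Module.finrank ℚ K : ℝ) with hd
  refine ⟨d * C, fun x T hT => ?_⟩
  -- the sum over the primes of non-prime norm
  set U : Finset (Pl K) := (fin_le (K := K) x).toFinset.filter
    fun q => ¬ (Ideal.absNorm q.asIdeal).Prime with hU
  have h1 : ∑ q ∈ T, Real.log (Ideal.absNorm q.asIdeal) ≤
      ∑ q ∈ U, Real.log (Ideal.absNorm q.asIdeal) := by
    refine Finset.sum_le_sum_of_subset_of_nonneg (fun q hq => ?_) fun q _ _ =>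
      Real.log_natCast_nonneg _
    rw [hU, Finset.mem_filter, Set.Finite.mem_toFinset]
    exact hT q hq
  have h2 : ∑ q ∈ U, Real.log (Ideal.absNorm q.asIdeal) =
      ∑ n ∈ Finset.Icc 1 ⌊x⌋₊, ∑ 𝔞 ∈ SP K n, (if (Ideal.absNorm 𝔞).Prime then 0 else
        Real.log (Ideal.absNorm 𝔞)) := by
    rw [← sum_eq (K := K) (fun 𝔞 => if (Ideal.absNorm 𝔞).Prime then 0 else
      Real.log (Ideal.absNorm 𝔞)) x, finsum_mem_eq_finite_toFinset_sum _ (fin_le x), hU,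
      Finset.sum_filter]
    refine Finset.sum_congr rfl fun q _ => ?_
    by_cases hp : (Ideal.absNorm q.asIdeal).Prime <;> simp [hp]
  have h3 : ∀ n ∈ Finset.Icc 1 ⌊x⌋₊, ∑ 𝔞 ∈ SP K n, (if (Ideal.absNorm 𝔞).Prime then 0 else
        Real.log (Ideal.absNorm 𝔞)) ≤
        d * (if n.Prime then 0 else ArithmeticFunction.vonMangoldt n) := by
    intro n hn
    have hn1 := (Finset.mem_Icc.1 hn).1
    by_cases hp : n.Prime
    · rw [if_pos hp, mul_zero]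
      refine le_of_eq (Finset.sum_eq_zero fun 𝔞 h𝔞 => ?_)
      rw [(mem_SP.1 h𝔞).1, if_pos hp]
    · rw [if_neg hp]
      have h4 : ∀ 𝔞 ∈ SP K n, (if (Ideal.absNorm 𝔞).Prime then 0 else
          Real.log (Ideal.absNorm 𝔞)) = VM 𝔞 := by
        intro 𝔞 h𝔞
        obtain ⟨h5, h6⟩ := mem_SP.1 h𝔞
        rw [if_neg (by rw [h5]; exact hp)]
        have h7 : 𝔞 ≠ ⊥ := by
          rintro rfl
          rw [Ideal.absNorm_bot] at h5
          omega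
        have h8 := Pool.Agent.Y772.DK.VM_pow (k := 1) (Ideal.prime_of_isPrime h7 h6) one_ne_zero
        rw [pow_one] at h8
        rw [h8]
      rw [Finset.sum_congr rfl h4]
      refine le_trans ?_ (sum_VM_le (K := K) n)
      rw [finsum_mem_eq_finite_toFinset_sum _ (NN_finite n)]
      unfold SP
      exact Finset.sum_le_sum_of_subset_of_nonneg (Finset.filter_subset _ _)
        fun _ _ _ => Pool.Agent.Y772.DK.VM_nonneg _
  have h4 : ∑ n ∈ Finset.Icc 1 ⌊x⌋₊, (if n.Prime then 0 else ArithmeticFunction.vonMangoldt n) =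
      Chebyshev.psi x - Chebyshev.theta x := by
    rw [Chebyshev.psi_sub_theta_eq_sum_not_prime, Finset.sum_filter]
    have : Finset.Icc 1 ⌊x⌋₊ = Finset.Ioc 0 ⌊x⌋₊ := by
      ext n
      simp only [Finset.mem_Icc, Finset.mem_Ioc]
      omega
    rw [this]
    refine Finset.sum_congr rfl fun n _ => ?_
    by_cases hp : n.Prime <;> simp [hp]
  calc ∑ q ∈ T, Real.log (Ideal.absNorm q.asIdeal) ≤
      ∑ q ∈ U, Real.log (Ideal.absNorm q.asIdeal) := h1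
    _ = _ := h2
    _ ≤ ∑ n ∈ Finset.Icc 1 ⌊x⌋₊, d * (if n.Prime then 0 else ArithmeticFunction.vonMangoldt n) :=
      Finset.sum_le_sum h3
    _ = d * (Chebyshev.psi x - Chebyshev.theta x) := by rw [← Finset.mul_sum, h4]
    _ ≤ d * (C * Real.sqrt x) := mul_le_mul_of_nonneg_left (hC x) (Nat.cast_nonneg _)
    _ = d * C * Real.sqrt x := by ring

/-- the main case -/
theorem main (K : Type) [Field K] [NumberField K] (𝔪 : Ideal (𝓞 K)) (hbot : 𝔪 ≠ ⊥) (htop : 𝔪 ≠ ⊤)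
    (𝔟 : Ideal (𝓞 K)) (h𝔟 : IsCoprime 𝔟 𝔪) (B : ℕ) :
    ∃ v : HeightOneSpectrum (𝓞 K), (Ideal.absNorm v.asIdeal).Prime ∧
    B < Ideal.absNorm v.asIdeal ∧ ∃ a b : 𝓞 K, a ≠ 0 ∧ b ≠ 0 ∧ a - 1 ∈ 𝔪 ∧ b - 1 ∈ 𝔪 ∧ TPos K a ∧
      TPos K b ∧ Ideal.span {a} * v.asIdeal = Ideal.span {b} * 𝔟 := by
  classical
  obtain ⟨S, c, X₀, hc, hS, h⟩ := den K 𝔪 hbot htop 𝔟 h𝔟
  obtain ⟨C, hC⟩ := nd K
  by_contra hcon
  have hB : ∀ q ∈ S, (Ideal.absNorm q.asIdeal).Prime → Ideal.absNorm q.asIdeal ≤ B := by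
    intro q hq hp
    by_contra hlt
    exact hcon ⟨q, hp, not_le.1 hlt, hS q hq⟩
  set U : Finset (Pl K) := (fin_le (K := K) (B : ℝ)).toFinset with hU
  set D : ℝ := ∑ q ∈ U, Real.log (Ideal.absNorm q.asIdeal) with hD
  -- a large x
  have hlim : Tendsto (fun x : ℝ => (D + C * Real.sqrt x) / x) atTop (𝓝 0) := by
    have h1 : Tendsto (fun x : ℝ => D * x⁻¹ + C * (Real.sqrt x)⁻¹) atTop (𝓝 0) := by
      have := (tendsto_inv_atTop_zero.const_mul D).add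
        (Real.tendsto_sqrt_atTop.inv_tendsto_atTop.const_mul C)
      simpa using this
    refine h1.congr' ?_
    filter_upwards [eventually_gt_atTop (0 : ℝ)] with x hx
    have hs : 0 < Real.sqrt x := Real.sqrt_pos.2 hx
    have hss : Real.sqrt x * Real.sqrt x = x := Real.mul_self_sqrt hx.le
    have h2 : Real.sqrt x / x = (Real.sqrt x)⁻¹ := by
      rw [div_eq_iff hx.ne', eq_comm, inv_mul_eq_div, div_eq_iff hs.ne', hss]
    rw [add_div, div_eq_mul_inv, mul_div_assoc, h2]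
  obtain ⟨x, hx1, hx2, hx3⟩ := ((hlim.eventually (gt_mem_nhds hc)).and
    ((eventually_ge_atTop X₀).and (eventually_gt_atTop (0 : ℝ)))).exists
  rw [div_lt_iff₀ hx3] at hx1
  obtain ⟨T, hT, hlt⟩ := h x hx2
  have h1 : ∑ q ∈ T.filter (fun q => (Ideal.absNorm q.asIdeal).Prime),
      Real.log (Ideal.absNorm q.asIdeal) ≤ D := by
    refine Finset.sum_le_sum_of_subset_of_nonneg (fun q hq => ?_) fun q _ _ =>
      Real.log_natCast_nonneg _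
    rw [Finset.mem_filter] at hq
    rw [hU, Set.Finite.mem_toFinset]
    show (Ideal.absNorm q.asIdeal : ℝ) ≤ B
    exact_mod_cast hB q (hT q hq.1).1 hq.2
  have h2 : ∑ q ∈ T.filter (fun q => ¬ (Ideal.absNorm q.asIdeal).Prime),
      Real.log (Ideal.absNorm q.asIdeal) ≤ C * Real.sqrt x := by
    refine hC x _ fun q hq => ?_
    rw [Finset.mem_filter] at hq
    exact ⟨(hT q hq.1).2, hq.2⟩
  have h3 := Finset.sum_filter_add_sum_filter_not T (fun q => (Ideal.absNorm q.asIdeal).Prime)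
    (fun q => Real.log (Ideal.absNorm q.asIdeal))
  linarith

theorem tp_of_tpos {K : Type} [Field K] [NumberField K] {x : 𝓞 K} (h : TPos K x) : TP x :=
  fun w => h (InfinitePlace.embedding_of_isReal w.2)

theorem t_RAN : S_RAN := by
  intro K _ _ 𝔪 𝔟 hbot h𝔟0 h𝔟 B
  -- a proper modulus
  set 𝔮 : Ideal (𝓞 K) := 𝔪 * Ideal.span {(2 : 𝓞 K)} with h𝔮
  have h2 : Ideal.span {(2 : 𝓞 K)} ≠ ⊥ := by
    rw [Ne, Ideal.span_singleton_eq_bot]
    exact two_ne_zero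
  have h3 : Ideal.span {(2 : 𝓞 K)} ≠ ⊤ := by
    intro h4
    rw [Ideal.span_singleton_eq_top] at h4
    have h5 : IsUnit (Algebra.norm ℤ (2 : 𝓞 K)) := h4.map (Algebra.norm ℤ)
    have h6 : Algebra.norm ℤ (2 : 𝓞 K) = 2 ^ Module.finrank ℤ (𝓞 K) := by
      have := Algebra.norm_algebraMap (S := 𝓞 K) (2 : ℤ)
      rw [← this]
      norm_num
    rw [h6, isUnit_pow_iff (Module.finrank_pos (R := ℤ) (M := 𝓞 K)).ne'] at h5
    exact absurd (Int.isUnit_iff.1 h5) (by norm_num)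
  have h𝔮0 : 𝔮 ≠ ⊥ := mul_ne_zero hbot h2
  have h𝔮1 : 𝔮 ≠ ⊤ := fun h => h3 (eq_top_iff.2 (h ▸ Ideal.mul_le_right))
  have hle : 𝔮 ≤ 𝔪 := Ideal.mul_le_left
  obtain ⟨y₁, 𝔟₁, hy₁, hp₁, hs₁, hc₁⟩ := exists_moving_tp hle h𝔮0 h𝔟0 h𝔟
  have ne_bot_of : ∀ {𝔠 : Ideal (𝓞 K)}, IsCoprime 𝔠 𝔮 → 𝔠 ≠ ⊥ := by
    rintro 𝔠 hc rfl
    rw [Ideal.isCoprime_iff_sup_eq, bot_sup_eq] at hc
    exact h𝔮1 hc
  have h𝔟₁0 : 𝔟₁ ≠ ⊥ := ne_bot_of hc₁
  have hy₁0 : y₁ ≠ 0 := by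
    rintro rfl
    rw [Ideal.span_singleton_zero] at hs₁
    exact mul_ne_zero h𝔟0 h𝔟₁0 hs₁.symm
  obtain ⟨y₂, 𝔟₂, hy₂, hp₂, hs₂, hc₂⟩ := exists_moving_tp (le_refl 𝔮) h𝔮0 h𝔟₁0 hc₁
  have h𝔟₂0 : 𝔟₂ ≠ ⊥ := ne_bot_of hc₂
  have hy₂0 : y₂ ≠ 0 := by
    rintro rfl
    rw [Ideal.span_singleton_zero] at hs₂
    exact mul_ne_zero h𝔟₁0 h𝔟₂0 hs₂.symm
  obtain ⟨v, hv1, hv2, a, b, ha, hb, ha1, hb1, hap, hbp, hab⟩ := main K 𝔮 h𝔮0 h𝔮1 𝔟₂ hc₂ B
  have hmul : ∀ {x y : 𝓞 K}, x - 1 ∈ 𝔪 → y - 1 ∈ 𝔪 → x * y - 1 ∈ 𝔪 := by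
    intro x y hx hy
    have : x * y - 1 = (x - 1) * y + (y - 1) := by ring
    rw [this]
    exact 𝔪.add_mem (𝔪.mul_mem_right _ hx) hy
  refine ⟨v, hv1, hv2, a * y₁, b * y₂, mul_ne_zero ha hy₁0, mul_ne_zero hb hy₂0,
    hmul (hle ha1) hy₁, hmul (hle hb1) (hle hy₂),
    tp_of_tpos (Pool.Agent.Y767.tpos_mul hap hp₁), tp_of_tpos (Pool.Agent.Y767.tpos_mul hbp hp₂), ?_⟩
  rw [← Ideal.span_singleton_mul_span_singleton, ← Ideal.span_singleton_mul_span_singleton]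
  calc Ideal.span {a} * Ideal.span {y₁} * v.asIdeal =
      (Ideal.span {a} * v.asIdeal) * Ideal.span {y₁} := by ring
    _ = Ideal.span {b} * (𝔟₁ * 𝔟₂) * 𝔟 := by rw [hab, hs₁]; ring
    _ = Ideal.span {b} * Ideal.span {y₂} * 𝔟 := by rw [hs₂]

end Pool.Agent.T2h61.CH.TRAN
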