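import Pool.Agent.T2h61.CH.Stm
import Pool.Agent.T2h62.CG.Alg

/-!
# Calegari–Geraghty for `GL_2` over number fields: D1
-/

set_option autoImplicit false

open NumberField IsDedekindDomain Matrix Pool.Agent.T2h61.CG

noncomputable section

namespace Pool.Agent.T2h61.CH.TRED

/-- restriction of Frobenius elements -/
theorem frob_res {F E L : Type} [Field F] [NumberField F] [Field E] [NumberField E] [Field L]
    [NumberField L] [Algebra F E] [Algebra E L] [Algebra F L] [IsScalarTower F E L] [Normal F E]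
    {v : HeightOneSpectrum (𝓞 F)} {ℓ : ℕ} [Fact ℓ.Prime]
    {φ : 𝓞 L →+* AlgebraicClosure (ZMod ℓ)} {g : Gal(L/F)} (h : IsFrob v φ g) :
    IsFrob v (φ.comp (algebraMap (𝓞 E) (𝓞 L))) (AlgEquiv.restrictNormalHom E g) := by
  refine ⟨fun x => ?_, fun x y hxy => ?_⟩
  · rw [RingHom.comp_apply, ← IsScalarTower.algebraMap_apply (𝓞 F) (𝓞 E) (𝓞 L)]
    exact h.1 x
  · rw [RingHom.comp_apply, RingHom.comp_apply]
    refine h.2 _ _ ?_
    show algebraMap E L (y : E) = g (algebraMap E L (x : E))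
    rw [hxy]
    exact AlgEquiv.restrictNormal_commutes g E (x : E)

/-- Frobenius elements lift -/
theorem frob_lift (hFRE : S_FRE) {F E L : Type} [Field F] [NumberField F] [Field E] [NumberField E]
    [Field L] [NumberField L] [Algebra F E] [Algebra E L] [Algebra F L] [IsScalarTower F E L]
    [IsGalois F L] [Normal F E] {v : HeightOneSpectrum (𝓞 F)} {ℓ : ℕ} [Fact ℓ.Prime]
    (φ' : 𝓞 E →+* AlgebraicClosure (ZMod ℓ))
    (h : ∀ x : 𝓞 F, x ∈ v.asIdeal ↔ φ' (algebraMap (𝓞 F) (𝓞 E) x) = 0) :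
    ∃ (φ : 𝓞 L →+* AlgebraicClosure (ZMod ℓ)) (g : Gal(L/F)), IsFrob v φ g ∧
      IsFrob v φ' (AlgEquiv.restrictNormalHom E g) := by
  have hint : Algebra.IsIntegral (𝓞 E) (𝓞 L) := inferInstance
  obtain ⟨φ, hφ⟩ := Pool.Agent.T2h62.CG.exists_ext (B := 𝓞 E) (A := 𝓞 L)
    (FaithfulSMul.algebraMap_injective (𝓞 E) (𝓞 L)) φ'
  have e : φ.comp (algebraMap (𝓞 E) (𝓞 L)) = φ' := by
    ext x
    exact hφ x
  obtain ⟨g, hg⟩ := hFRE F L v ℓ φ (fun x => by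
    rw [h x, IsScalarTower.algebraMap_apply (𝓞 F) (𝓞 E) (𝓞 L), hφ])
  refine ⟨φ, g, hg, ?_⟩
  rw [← e]
  exact frob_res hg

theorem t_RED (hPSI : S_PSI) (hGAB : S_GAB) (hGTR : S_GTR) (hGIN : S_GIN) (hUNR : S_UNR)
    (hFRE : S_FRE) : S_RED := by
  intro F L _ _ _ _ _ _ k _ _ p hp hk χ 𝔪 h𝔪 hχ B ρ hρ
  let E : IntermediateField F L := IntermediateField.fixedField ρ.ker
  have hEg : IsGalois F E := IsGalois.of_fixedField_normal_subgroup ρ.ker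
  have hEN : NumberField E := NumberField.of_module_finite F E
  let eq1 : Gal(L/F) ⧸ ρ.ker ≃* Gal(E/F) := IsGalois.normalAutEquivQuotient ρ.ker
  let ρ' : Gal(E/F) →* GL (Fin 2) k := (QuotientGroup.kerLift ρ).comp eq1.symm.toMonoidHom
  have hρ'i : Function.Injective ρ' := (QuotientGroup.kerLift_injective ρ).comp eq1.symm.injective
  have hρ' : ∀ g : Gal(L/F), ρ' (AlgEquiv.restrictNormalHom E g) = ρ g := by
    intro g
    have h1 : AlgEquiv.restrictNormalHom E g = eq1 (g : Gal(L/F) ⧸ ρ.ker) :=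
      (IsGalois.normalAutEquivQuotient_apply ρ.ker g).symm
    show QuotientGroup.kerLift ρ (eq1.symm (AlgEquiv.restrictNormalHom E g)) = ρ g
    rw [h1, MulEquiv.symm_apply_apply]
    rfl
  obtain ⟨B₁, hB₁⟩ := hUNR F E
  have key : ∀ (v : HeightOneSpectrum (𝓞 F)) (ℓ : ℕ) [Fact ℓ.Prime]
      (φ' : 𝓞 E →+* AlgebraicClosure (ZMod ℓ)) (g' : Gal(E/F)), max B B₁ < ℓ →
      Ideal.absNorm v.asIdeal = ℓ → IsFrob v φ' g' → (ρ' g').1.charpoly.eval (χ v) = 0 := by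
    intro v ℓ _ φ' g' hℓ hv hg'
    obtain ⟨φ, g, hg, hg2⟩ := frob_lift (L := L) hFRE φ' hg'.1
    have h1 := hB₁ v ℓ (lt_of_le_of_lt (le_max_right _ _) hℓ) φ' _ _ hg2 hg'
    rw [← h1, hρ']
    exact hρ v ℓ φ g (lt_of_le_of_lt (le_max_left _ _) hℓ) hv hg
  have hSpl : Spl F E χ (max B B₁) := by
    intro v ℓ _ φ' hℓ hv hg'
    have h1 := key v ℓ φ' 1 hℓ hv hg'
    rw [map_one, Units.val_one, Matrix.charpoly_one, Polynomial.eval_pow] at h1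
    have h2 := pow_eq_zero_iff (two_ne_zero) |>.1 h1
    simpa [sub_eq_zero] using h2
  obtain ⟨ψ, hψ1, hψ2, hψ3⟩ := hPSI F E k χ 𝔪 h𝔪 hχ (max B B₁) hSpl
  have hGH : GH ρ' ψ := by
    refine ⟨hψ1, hψ2, fun g => ?_⟩
    obtain ⟨v, ℓ, _, φ', h1, h2, h3, h4⟩ := hψ3 g
    rw [← h4]
    exact key v ℓ φ' g h1 h2 h3
  have hmul := hGTR Gal(E/F) k ψ hψ1 hψ2 (fun ℓ hℓ P hP x hx y hy =>
    hψ2 x y (hGAB Gal(E/F) k ρ' ψ hρ'i hGH ℓ hℓ P hP x hx y hy))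
  let Ψ : Gal(E/F) →* kˣ := MonoidHom.mk' ψ hmul
  obtain ⟨w, hw, hw2⟩ := hGIN Gal(E/F) k p hp hk ρ' Ψ hGH.eig
  refine ⟨w, hw, fun g => ?_⟩
  obtain ⟨b, hb⟩ := hw2 (AlgEquiv.restrictNormalHom E g)
  exact ⟨b, by rw [← hρ', hb]⟩

end Pool.Agent.T2h61.CH.TRED
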