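import Pool.Agent.T2h61.CH.Stm

/-!
# For large primes Frobenius elements are unique
-/

set_option autoImplicit false
set_option linter.all false

open NumberField IsDedekindDomain

namespace Pool.Agent.T2h61.CH.TUNR

open Pool.Agent.T2h61.CG

variable {F L : Type} [Field F] [NumberField F] [Field L] [NumberField L] [Algebra F L]

/-- the conjugate of an integer -/
noncomputable def cj (g : Gal(L/F)) (x : 𝓞 L) : 𝓞 L :=
  ⟨g (x : L), map_isIntegral_int (g : L ≃ₐ[F] L) x.2⟩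

theorem cj_coe (g : Gal(L/F)) (x : 𝓞 L) : ((cj g x : 𝓞 L) : L) = g (x : L) := rfl

theorem exists_diff {g g' : Gal(L/F)} (h : g ≠ g') : ∃ x : 𝓞 L, cj g x - cj g' x ≠ 0 := by
  by_contra hcon
  push Not at hcon
  apply h
  ext z
  obtain ⟨a, b, hb, rfl⟩ := IsFractionRing.div_surjective (A := 𝓞 L) z
  have h1 : ∀ x : 𝓞 L, g (x : L) = g' (x : L) := by
    intro x
    have := congrArg (fun y : 𝓞 L => (y : L)) (sub_eq_zero.1 (hcon x))
    exact this
  show g ((a : L) / (b : L)) = g' ((a : L) / (b : L))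
  rw [map_div₀, map_div₀, h1, h1]

theorem t_UNR : S_UNR := by
  classical
  intro F L _ _ _ _ _
  haveI : FiniteDimensional F L := Module.Finite.of_restrictScalars_finite ℚ F L
  have key : ∀ p : Gal(L/F) × Gal(L/F), ∃ δ : 𝓞 L, p.1 ≠ p.2 → ∃ x : 𝓞 L,
      δ = cj p.1 x - cj p.2 x ∧ δ ≠ 0 := by
    intro p
    by_cases h : p.1 = p.2
    · exact ⟨0, fun h' => absurd h h'⟩
    · obtain ⟨x, hx⟩ := exists_diff h
      exact ⟨_, fun _ => ⟨x, rfl, hx⟩⟩
  choose δ hδ using key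
  refine ⟨∑ p : Gal(L/F) × Gal(L/F), Ideal.absNorm (Ideal.span {δ p}), ?_⟩
  intro v ℓ _ hℓ φ g g' hg hg'
  by_contra hne
  obtain ⟨x, hx, hx0⟩ := hδ (g, g') hne
  have h1 : φ (δ (g, g')) = 0 := by
    rw [hx, map_sub, hg.2 x (cj g x) rfl, hg'.2 x (cj g' x) rfl, sub_self]
  obtain ⟨y, hy⟩ := Ideal.mem_span_singleton'.1 (Ideal.absNorm_mem (Ideal.span {δ (g, g')}))
  have h2 : ((Ideal.absNorm (Ideal.span {δ (g, g')}) : ℕ) : AlgebraicClosure (ZMod ℓ)) = 0 := by
    have h3 := congrArg φ hy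
    rw [map_mul, h1, mul_zero, map_natCast] at h3
    exact h3.symm
  haveI : CharP (AlgebraicClosure (ZMod ℓ)) ℓ :=
    charP_of_injective_algebraMap (algebraMap (ZMod ℓ) (AlgebraicClosure (ZMod ℓ))).injective ℓ
  rw [CharP.cast_eq_zero_iff (AlgebraicClosure (ZMod ℓ)) ℓ] at h2
  have h4 : Ideal.absNorm (Ideal.span {δ (g, g')}) ≠ 0 := by
    rw [Ne, Ideal.absNorm_eq_zero_iff, Ideal.span_singleton_eq_bot]
    exact hx0
  have h5 := Nat.le_of_dvd (Nat.pos_of_ne_zero h4) h2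
  have h6 : Ideal.absNorm (Ideal.span {δ (g, g')}) ≤
      ∑ p : Gal(L/F) × Gal(L/F), Ideal.absNorm (Ideal.span {δ p}) :=
    Finset.single_le_sum (f := fun p => Ideal.absNorm (Ideal.span {δ p}))
      (fun _ _ => Nat.zero_le _) (Finset.mem_univ (g, g'))
  omega

end Pool.Agent.T2h61.CH.TUNR
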