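import Pool.Agent.T2h61.CH.Fin
import Pool.Agent.T2h61.CH.T_AUX
import Pool.Agent.T2h61.CH.T_BO3
import Pool.Agent.T2h61.CH.T_BO4
import Pool.Agent.T2h61.CH.T_BO5
import Pool.Agent.T2h61.CH.T_CYC
import Pool.Agent.T2h61.CH.T_DIC
import Pool.Agent.T2h61.CH.T_EXB
import Pool.Agent.T2h61.CH.T_FRC
import Pool.Agent.T2h61.CH.T_FRE
import Pool.Agent.T2h61.CH.T_GAB
import Pool.Agent.T2h61.CH.T_GIN
import Pool.Agent.T2h61.CH.T_GTR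
import Pool.Agent.T2h61.CH.T_HNB
import Pool.Agent.T2h61.CH.T_NOR
import Pool.Agent.T2h61.CH.T_NRC
import Pool.Agent.T2h61.CH.T_PSI
import Pool.Agent.T2h61.CH.T_RAN
import Pool.Agent.T2h61.CH.T_RED
import Pool.Agent.T2h61.CH.T_UNR

/-!
# Compactly supported cohomology of `GL_2` in degree one: the main theorem
-/

set_option autoImplicit false

open NumberField IsDedekindDomain Matrix Polynomial

noncomputable section

namespace Pool.Agent.T2h61.CH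

open Pool.Agent.T2h61.CG

theorem a_CYC : S_CYC :=
  TCYC.t_CYC TNRC.t_NRC TRAN.t_RAN TNOR.t_NOR TFRE.t_FRE TFRC.t_FRC THNB.t_HNB

theorem a_PSI : S_PSI := TPSI.t_PSI a_CYC TAUX.t_AUX TFRC.t_FRC

theorem a_RED : S_RED :=
  TRED.t_RED a_PSI TGAB.t_GAB TGTR.t_GTR TGIN.t_GIN TUNR.t_UNR TFRE.t_FRE

theorem a_EXB : S_EXB := TEXB.t_EXB TBO3.t_BO3 TBO4.t_BO4 TBO5.t_BO5 THNB.t_HNB

/-- modular symbols are preserved by the Hecke operators -/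
theorem isMS_hk {F : Type} [Field F] [NumberField F] {𝔪 : Ideal (𝓞 F)} {R W : Type} [CommRing R]
    [AddCommGroup W] [Module R W] {H : Subgroup (GL (Fin 2) (𝓞 F ⧸ 𝔪))}
    {ρW : Representation R H W} {v : HeightOneSpectrum (𝓞 F)} {j : ℕ} {a : 𝓞 F}
    (hv : ¬ 𝔪 ≤ v.asIdeal) (ha : a ∈ v.asIdeal) (ha' : a - 1 ∈ 𝔪)
    {m : (Fin 2 → F) → (Fin 2 → F) → Pt F 2 → W} (hm : IsMS ρW m) :
    IsMS ρW (fun x y => hk R 𝔪 v j a (m x y)) where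
  aut x y hx hy := THK.t_HKA F 2 R W 𝔪 v j a H ρW hv ha ha' _ (hm.aut x y hx hy)
  add x y z hx hy hz := by rw [← map_add, hm.add x y z hx hy hz]
  smul c d x y hc hd hx hy := by
    show hk R 𝔪 v j a (m (c • x) (d • y)) = hk R 𝔪 v j a (m x y)
    rw [hm.smul c d x y hc hd hx hy]
  eqv g x y hx hy := by
    show hk R 𝔪 v j a (m (g.1.mulVec x) (g.1.mulVec y)) = tr g (hk R 𝔪 v j a (m x y))
    rw [hm.eqv g x y hx hy, THK.t_HKG F 2 R W 𝔪 v j a g]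

theorem a_main (F : Type) [Field F] [NumberField F] (hF : Infinite (𝓞 F)ˣ)
    (𝔪 : Ideal (𝓞 F)) (h𝔪 : 𝔪 ≠ ⊥) (S : Set (HeightOneSpectrum (𝓞 F))) (hSf : S.Finite)
    (hS : ∀ v, 𝔪 ≤ v.asIdeal → v ∈ S) (a : HeightOneSpectrum (𝓞 F) → 𝓞 F)
    (ha : ∀ v ∉ S, a v ∈ v.asIdeal ∧ a v - 1 ∈ 𝔪) (R W k : Type) [CommRing R] [AddCommGroup W]
    [Module R W] [Field k] [IsAlgClosed k] [Algebra R k] (H : Subgroup (GL (Fin 2) (𝓞 F ⧸ 𝔪)))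
    (ρW : Representation R H W) (lam : FreeAlgebra R (Ix 2 S) →ₐ[R] k) (hl : SuppC a ρW lam) :
    ((∃ S' : Set (HeightOneSpectrum (𝓞 F)), S ⊆ S' ∧ S'.Finite ∧
      ∃ c : HeightOneSpectrum (𝓞 F) → k, ∀ v ∉ S', ∀ j, 1 ≤ j → j ≤ 2 →
        ev lam v j = deg 2 v j * c v ^ j) ∨
      ∃ χ : HeightOneSpectrum (𝓞 F) → k, RC χ 𝔪 ∧ ∀ v ∉ S,
        χ v ^ 2 - ev lam v 1 * χ v + (Ideal.absNorm v.asIdeal : k) * ev lam v 2 = 0) ∧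
    ∀ p : ℕ, p.Prime → CharP k p → ∀ (L : Type) [Field L] [NumberField L] [Algebra F L]
      [IsGalois F L] (ρ : Gal(L/F) →* GL (Fin 2) k), Attached lam L ρ →
      ∃ w : Fin 2 → k, w ≠ 0 ∧ ∀ g, ∃ b : k, (ρ g).1.mulVec w = b • w :=
  main TDIC.t_DIC a_EXB THNB.t_HNB a_RED F hF 𝔪 h𝔪 S hSf hS a ha R W k H ρW lam hl

end Pool.Agent.T2h61.CH
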