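import Pool.Agent.T2h61.CH.Stm

/-!
# The operators `bo`: basic lemmas
-/

set_option autoImplicit false
set_option linter.unusedSectionVars false

open NumberField IsDedekindDomain Matrix

noncomputable section

namespace Pool.Agent.T2h61.CH.Bo

open Pool.Agent.T2h61.CG Pool.Agent.T2h61.CH

variable {F : Type} [Field F] [NumberField F] {n : ℕ}

theorem mem_fl {L : Submodule (𝓞 F) (Fin 2 → F)} {y : Fin 2 → F} :
    y ∈ fl L ↔ y ∈ L ∧ y 1 = 0 := Iff.rfl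

theorem fl_le (L : Submodule (𝓞 F) (Fin 2 → F)) : fl L ≤ L := fun _ h => h.1

theorem fl_mono {L L' : Submodule (𝓞 F) (Fin 2 → F)} (h : L ≤ L') : fl L ≤ fl L' :=
  fun _ hy => ⟨h hy.1, hy.2⟩

/-- the submodules between `𝔞 L` and `L` are lattices -/
theorem isLat_between {𝔞 : Ideal (𝓞 F)} (h𝔞 : 𝔞 ≠ ⊥) {L L' : Submodule (𝓞 F) (Fin n → F)}
    (hL : IsLat L) (h1 : 𝔞 • L ≤ L') (h2 : L' ≤ L) : IsLat L' := by
  refine ⟨?_, ?_⟩
  · have hn : IsNoetherian (𝓞 F) L := isNoetherian_of_fg_of_noetherian L hL.1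
    exact isNoetherian_submodule.1 hn L' h2
  · obtain ⟨c, hc, hc0⟩ : ∃ c ∈ 𝔞, c ≠ 0 := Submodule.exists_mem_ne_zero_of_ne_bot h𝔞
    have hc0' : (c : F) ≠ 0 := by
      intro h0
      exact hc0 (RingOfIntegers.coe_injective (h0.trans (map_zero (algebraMap (𝓞 F) F)).symm))
    rw [eq_top_iff, ← hL.2, Submodule.span_le]
    intro y hy
    have h3 : c • y ∈ L' := h1 (Submodule.smul_mem_smul hc hy)
    have h4 : y = (c : F)⁻¹ • (c • y) := by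
      rw [show c • y = (c : F) • y from rfl, smul_smul, inv_mul_cancel₀ hc0', one_smul]
    rw [h4]
    exact Submodule.smul_mem _ _ (Submodule.subset_span h3)

/-- the points `(s, L', a e)` with `𝔞 L ≤ L' ≤ L` -/
theorem ok_between {𝔪 𝔞 : Ideal (𝓞 F)} (h𝔞 : 𝔞 ≠ ⊥) {a : 𝓞 F} (ha : a ∈ 𝔞) (ha1 : a - 1 ∈ 𝔪)
    {x : Pt F n} (hx : Ok 𝔪 x) {L' : Submodule (𝓞 F) (Fin n → F)} (h1' : 𝔞 • x.L ≤ L')
    (h2' : L' ≤ x.L) : Ok 𝔪 (⟨x.s, L', fun i => a • x.e i⟩ : Pt F n) := by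
  obtain ⟨h1, h2, h3⟩ := hx
  refine ⟨isLat_between h𝔞 h1 h1' h2', fun i => h1' (Submodule.smul_mem_smul ha (h2 i)), ?_⟩
  intro y hy
  have hy' : y ∈ L' := hy
  have e1 : y = a • y + (1 - a) • y := by rw [← add_smul, add_sub_cancel, one_smul]
  rw [e1]
  refine Submodule.add_mem _ ?_ (Submodule.mem_sup_right ?_)
  · obtain ⟨y1, hy1, y2, hy2, rfl⟩ := Submodule.mem_sup.1 (h3 (h2' hy'))
    rw [smul_add]
    refine Submodule.add_mem_sup ?_ ?_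
    · have h5 : a • y1 ∈ (Submodule.span (𝓞 F) (Set.range x.e)).map
          (LinearMap.lsmul (𝓞 F) (Fin n → F) a) := Submodule.mem_map_of_mem hy1
      rw [Submodule.map_span, ← Set.range_comp] at h5
      exact h5
    · have h6 : a • y2 ∈ 𝔞 • (𝔪 • x.L) := Submodule.smul_mem_smul ha hy2
      rw [← Submodule.mul_smul, mul_comm, Submodule.mul_smul] at h6
      exact Submodule.smul_mono le_rfl h1' h6
  · have h7 : (1 - a) ∈ 𝔪 := by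
      rw [← neg_sub]; exact 𝔪.neg_mem ha1
    exact Submodule.smul_mem_smul h7 hy'

theorem smul_le_bo (𝔞 : Ideal (𝓞 F)) (L : Submodule (𝓞 F) (Fin 2 → F)) :
    𝔞 • L ≤ fl L ⊔ 𝔞 • L := le_sup_right

theorem bo_le (𝔞 : Ideal (𝓞 F)) (L : Submodule (𝓞 F) (Fin 2 → F)) :
    fl L ⊔ 𝔞 • L ≤ L := sup_le (fl_le L) (smul_le_self _ _)

/-- the points of `bo` -/
theorem ok_bo {𝔪 𝔞 : Ideal (𝓞 F)} (h𝔞 : 𝔞 ≠ ⊥) {a : 𝓞 F} (ha : a ∈ 𝔞) (ha1 : a - 1 ∈ 𝔪)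
    {x : Pt F 2} (hx : Ok 𝔪 x) :
    Ok 𝔪 (⟨x.s, fl x.L ⊔ 𝔞 • x.L, fun i => a • x.e i⟩ : Pt F 2) :=
  ok_between h𝔞 ha ha1 hx (smul_le_bo _ _) (bo_le _ _)

section ops

variable {R W : Type} [CommRing R] [AddCommGroup W] [Module R W]

theorem bo_pos {𝔪 𝔞 : Ideal (𝓞 F)} {a : 𝓞 F} {φ : Pt F 2 → W} {x : Pt F 2} (hx : Ok 𝔪 x) :
    bo R 𝔪 𝔞 a φ x = φ ⟨x.s, fl x.L ⊔ 𝔞 • x.L, fun i => a • x.e i⟩ := by
  classical
  show (ite _ _ _ : W) = _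
  rw [if_pos hx]

theorem bo_neg {𝔪 𝔞 : Ideal (𝓞 F)} {a : 𝓞 F} {φ : Pt F 2 → W} {x : Pt F 2} (hx : ¬ Ok 𝔪 x) :
    bo R 𝔪 𝔞 a φ x = 0 := by
  classical
  show (ite _ _ _ : W) = _
  rw [if_neg hx]

end ops

/-- the second coordinate of `b y` for `b` upper triangular -/
theorem mulVec_one {b : GL (Fin 2) F} (hb : b.1 1 0 = 0) (y : Fin 2 → F) :
    b.1.mulVec y 1 = b.1 1 1 * y 1 := by
  show (fun j => b.1 1 j) ⬝ᵥ y = _
  rw [dotProduct, Fin.sum_univ_two]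
  rw [hb, zero_mul, zero_add]

theorem diag_ne_zero {b : GL (Fin 2) F} (hb : b.1 1 0 = 0) : b.1 1 1 ≠ 0 := by
  intro h
  apply det_ne_zero b
  rw [Matrix.det_fin_two, hb, h, mul_zero, mul_zero, sub_zero]

theorem inv_upper {b : GL (Fin 2) F} (hb : b.1 1 0 = 0) : b⁻¹.1 1 0 = 0 := by
  have h := mulVec_one hb (b⁻¹.1.mulVec (Pi.single 0 1))
  rw [mulVec_inv] at h
  have h1 : (Pi.single 0 1 : Fin 2 → F) 1 = 0 := Pi.single_eq_of_ne (by decide) _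
  rw [h1] at h
  have h2 := (mul_eq_zero.1 h.symm).resolve_left (diag_ne_zero hb)
  rwa [Matrix.mulVec_single_one] at h2

theorem fl_gm {b : GL (Fin 2) F} (hb : b.1 1 0 = 0) (L : Submodule (𝓞 F) (Fin 2 → F)) :
    fl (gm b L) = gm b (fl L) := by
  ext y
  rw [mem_fl, mem_gm', mem_gm', mem_fl]
  have h1 : y 1 = b.1 1 1 * (b⁻¹.1.mulVec y) 1 := by
    rw [← mulVec_one hb, mulVec_inv]
  constructor
  · rintro ⟨h2, h3⟩
    refine ⟨h2, ?_⟩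
    rw [h3] at h1
    exact (mul_eq_zero.1 h1.symm).resolve_left (diag_ne_zero hb)
  · rintro ⟨h2, h3⟩
    refine ⟨h2, ?_⟩
    rw [h1, h3, mul_zero]

theorem bi_tr {W : Type} {φ : Pt F 2 → W} : Bi φ ↔ ∀ b : GL (Fin 2) F, b.1 1 0 = 0 → tr b φ = φ := by
  constructor
  · intro h b hb
    funext x
    exact h b⁻¹ (inv_upper hb) x
  · intro h b hb x
    have h1 := congrFun (h b⁻¹ (inv_upper hb)) x
    rwa [tr_apply, inv_inv] at h1

end Pool.Agent.T2h61.CH.Bo
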