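import Pool.Agent.T2h61.CH.T_BO3
import Pool.Agent.T2h61.CG.T_LAT
import Pool.Agent.T2h61.CG.T_LVL
import Pool.Agent.T2h61.CG.T_IND

/-!
# Sublattices of lattices in `F^2` and the line `F e_1`
-/

set_option autoImplicit false
set_option linter.unusedSectionVars false

open NumberField IsDedekindDomain Matrix

noncomputable section

namespace Pool.Agent.T2h61.CH.Bo

open Pool.Agent.T2h61.CG Pool.Agent.T2h61.CG.TLAT Pool.Agent.T2h61.CH

variable {F : Type} [Field F] [NumberField F]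

theorem sub_fin {n : ℕ} {L : Submodule (𝓞 F) (Fin n → F)} (hL : IsLat L)
    (v : HeightOneSpectrum (𝓞 F)) (j : ℕ) : (Sub v j L).Finite :=
  (TLAT.t_GRS TLVL.t_LVL TIND.t_IND F n L hL v j).1

theorem exists_theta' {n : ℕ} {L : Submodule (𝓞 F) (Fin n → F)} (hL : IsLat L)
    (v : HeightOneSpectrum (𝓞 F)) :
    ∃ θ : L →ₗ[𝓞 F] (Fin n → 𝓞 F ⧸ v.asIdeal), Function.Surjective θ ∧
      ∀ y : L, θ y = 0 ↔ (y : Fin n → F) ∈ v.asIdeal • L :=
  TLAT.exists_theta TLVL.t_LVL TIND.t_IND hL v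

variable {L : Submodule (𝓞 F) (Fin 2 → F)} {v : HeightOneSpectrum (𝓞 F)}

theorem finrank_lt {θ : L →ₗ[𝓞 F] (Fin 2 → 𝓞 F ⧸ v.asIdeal)} (hs : Function.Surjective θ)
    (hθ : ∀ y : L, θ y = 0 ↔ (y : Fin 2 → F) ∈ v.asIdeal • L) {j : ℕ}
    {L' : Submodule (𝓞 F) (Fin 2 → F)} (h1 : v.asIdeal • L ≤ L') (h2 : L' ≤ L) :
    L' ∈ Sub v j L ↔ Module.finrank (𝓞 F ⧸ v.asIdeal) (lt θ L') + j = 2 := by
  rw [← mem_sub_tl hs hθ, tl_lt hθ h1 h2]

/-- `v L` is the only sublattice of index `N(v)^2` between `v L` and `L` -/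
theorem sub_two (hL : IsLat L) (v : HeightOneSpectrum (𝓞 F)) : Sub v 2 L = {v.asIdeal • L} := by
  obtain ⟨θ, hs, hθ⟩ := exists_theta' hL v
  have hmax : v.asIdeal.IsMaximal := v.isMaximal
  let fld : Field (𝓞 F ⧸ v.asIdeal) := Ideal.Quotient.field v.asIdeal
  ext L'
  rw [Set.mem_singleton_iff]
  constructor
  · intro h
    have h1 := (finrank_lt hs hθ h.1 h.2.1).1 h
    have h2 : Module.finrank (𝓞 F ⧸ v.asIdeal) (lt θ L') = 0 := by omega
    have h3 : lt θ L' = ⊥ := Submodule.finrank_eq_zero.1 h2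
    refine le_antisymm ?_ h.1
    intro y hy
    have h4 : θ ⟨y, h.2.1 hy⟩ ∈ lt θ L' := (mem_lt hθ h.1).2 hy
    rw [h3, Submodule.mem_bot, hθ] at h4
    exact h4
  · rintro rfl
    rw [finrank_lt hs hθ le_rfl (smul_le_self _ _)]
    have h3 : lt θ (v.asIdeal • L) = ⊥ := by
      rw [eq_bot_iff]
      rintro _ ⟨y, rfl, hy⟩
      rw [Submodule.mem_bot, hθ]
      exact hy
    rw [h3]
    have h4 : Module.finrank (𝓞 F ⧸ v.asIdeal)
      (⊥ : Submodule (𝓞 F ⧸ v.asIdeal) (Fin 2 → 𝓞 F ⧸ v.asIdeal)) = 0 := finrank_bot _ _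
    omega

/-- the projection to `F e_1` along a section -/
def qm (b : Fin 2 → F) : (Fin 2 → F) →ₗ[𝓞 F] (Fin 2 → F) :=
  LinearMap.id - ((LinearMap.toSpanSingleton F (Fin 2 → F) b) ∘ₗ
    (LinearMap.proj 1 : (Fin 2 → F) →ₗ[F] F)).restrictScalars (𝓞 F)

theorem qm_apply (b : Fin 2 → F) (y : Fin 2 → F) : qm b y = y - y 1 • b := rfl

theorem fl_smul (hL : IsLat L) (𝔞 : Ideal (𝓞 F)) : fl (𝔞 • L) = 𝔞 • fl L := by
  apply le_antisymm
  · rintro y ⟨hy, hy1⟩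
    obtain ⟨b, hb, hbL⟩ := exists_sec hL
    have h1 : qm b y ∈ (𝔞 • L).map (qm b) := Submodule.mem_map_of_mem hy
    rw [Submodule.map_smul''] at h1
    have h2 : L.map (qm b) ≤ fl L := by
      rintro _ ⟨z, hz, rfl⟩
      have hz' : z ∈ L := hz
      refine ⟨L.sub_mem hz' (hbL z hz'), ?_⟩
      rw [qm_apply, Pi.sub_apply, Pi.smul_apply, hb, smul_eq_mul, mul_one, sub_self]
    have h3 := Submodule.smul_mono (le_refl 𝔞) h2 h1
    rwa [qm_apply, hy1, zero_smul, sub_zero] at h3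
  · rw [Submodule.smul_le]
    intro r hr y hy
    refine ⟨Submodule.smul_mem_smul hr hy.1, ?_⟩
    rw [Pi.smul_apply, hy.2, smul_zero]

theorem not_le_smul {M : Type} [AddCommGroup M] [Module (𝓞 F) M]
    (hM : ∀ (r : 𝓞 F) (m : M), r • m = 0 → r = 0 ∨ m = 0) (N : Submodule (𝓞 F) M) (hN : N.FG)
    {y : M} (hy : y ∈ N) (hy0 : y ≠ 0) (v : HeightOneSpectrum (𝓞 F)) : ¬ N ≤ v.asIdeal • N := by
  intro h
  obtain ⟨r, hr, hr'⟩ := Submodule.exists_sub_one_mem_and_smul_eq_zero_of_fg_of_le_smul _ N hN h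
  rcases hM r y (hr' y hy) with h1 | h1
  · rw [h1, zero_sub] at hr
    apply v.isPrime.ne_top
    rw [Ideal.eq_top_iff_one]
    have := v.asIdeal.neg_mem hr
    rwa [neg_neg] at this
  · exact hy0 h1

theorem smul_eq_zero_F {n : ℕ} (r : 𝓞 F) (m : Fin n → F) (h : r • m = 0) : r = 0 ∨ m = 0 := by
  by_cases hr : (r : F) = 0
  · left
    exact RingOfIntegers.coe_injective (hr.trans (map_zero (algebraMap (𝓞 F) F)).symm)
  · right
    have h4 : m = (r : F)⁻¹ • (r • m) := by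
      rw [show r • m = (r : F) • m from rfl, smul_smul, inv_mul_cancel₀ hr, one_smul]
    rw [h4, h, smul_zero]

theorem smul_eq_zero_F' (r : 𝓞 F) (m : F) (h : r • m = 0) : r = 0 ∨ m = 0 := by
  have h1 : (r : F) * m = 0 := h
  rcases mul_eq_zero.1 h1 with h2 | h2
  · left
    exact RingOfIntegers.coe_injective (h2.trans (map_zero (algebraMap (𝓞 F) F)).symm)
  · exact Or.inr h2

theorem coe_ne_zero {d : 𝓞 F} (hd : d ≠ 0) : (d : F) ≠ 0 := by
  intro h0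
  exact hd (RingOfIntegers.coe_injective (h0.trans (map_zero (algebraMap (𝓞 F) F)).symm))

/-- `L ∩ F e_1` is not in `v L` -/
theorem fl_not_le (hL : IsLat L) (v : HeightOneSpectrum (𝓞 F)) : ¬ fl L ≤ v.asIdeal • L := by
  intro h
  obtain ⟨d, hd, hd'⟩ := TCLS.exists_mul_mem L hL.2 (Pi.single 0 1)
  have h1 : d • (Pi.single 0 1 : Fin 2 → F) ∈ fl L := by
    refine ⟨hd', ?_⟩
    rw [Pi.smul_apply, Pi.single_eq_of_ne (by decide), smul_zero]
  have hn : IsNoetherian (𝓞 F) L := isNoetherian_of_fg_of_noetherian L hL.1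
  refine not_le_smul smul_eq_zero_F (fl L) (isNoetherian_submodule.1 hn _ (fl_le L)) h1 ?_ v ?_
  · intro h2
    have h3 := congrFun h2 0
    rw [Pi.smul_apply, Pi.single_eq_same, Pi.zero_apply] at h3
    rcases smul_eq_zero_F' d 1 h3 with h4 | h4
    · exact hd h4
    · exact one_ne_zero h4
  · intro y hy
    rw [← fl_smul hL]
    exact ⟨h hy, hy.2⟩

/-- `L ∩ F e_1 + v L` is not `L` -/
theorem not_le_fl (hL : IsLat L) (v : HeightOneSpectrum (𝓞 F)) :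
    ¬ L ≤ fl L ⊔ v.asIdeal • L := by
  intro h
  set π : (Fin 2 → F) →ₗ[𝓞 F] F := (LinearMap.proj 1 : (Fin 2 → F) →ₗ[F] F).restrictScalars (𝓞 F)
    with hπ
  obtain ⟨d, hd, hd'⟩ := TCLS.exists_mul_mem L hL.2 (Pi.single 1 1)
  refine not_le_smul smul_eq_zero_F' (L.map π) (hL.1.map _)
    (y := π (d • (Pi.single 1 1 : Fin 2 → F))) (Submodule.mem_map_of_mem hd') ?_ v ?_
  · intro h2
    have h3 : d • (1 : F) = 0 := by
      have : (d • (Pi.single 1 1 : Fin 2 → F)) 1 = 0 := h2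
      rwa [Pi.smul_apply, Pi.single_eq_same] at this
    rcases smul_eq_zero_F' d 1 h3 with h4 | h4
    · exact hd h4
    · exact one_ne_zero h4
  · have h1 := Submodule.map_mono (f := π) h
    rw [Submodule.map_sup, Submodule.map_smul''] at h1
    refine h1.trans (sup_le ?_ le_rfl)
    rintro _ ⟨y, hy, rfl⟩
    have h2 : π y = 0 := hy.2
    rw [h2]
    exact Submodule.zero_mem _

/-- `L ∩ F e_1 + v L` is a sublattice of index `N(v)` -/
theorem bo_mem_sub (hL : IsLat L) (v : HeightOneSpectrum (𝓞 F)) :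
    fl L ⊔ v.asIdeal • L ∈ Sub v 1 L := by
  obtain ⟨θ, hs, hθ⟩ := exists_theta' hL v
  have hmax : v.asIdeal.IsMaximal := v.isMaximal
  let fld : Field (𝓞 F ⧸ v.asIdeal) := Ideal.Quotient.field v.asIdeal
  rw [finrank_lt hs hθ (smul_le_bo _ _) (bo_le _ _)]
  set U := lt θ (fl L ⊔ v.asIdeal • L) with hU
  have h1 : U ≠ ⊥ := by
    intro h
    apply fl_not_le hL v
    intro y hy
    have h4 : θ ⟨y, hy.1⟩ ∈ U := (mem_lt hθ (smul_le_bo _ _)).2 (Submodule.mem_sup_left hy)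
    rw [h, Submodule.mem_bot, hθ] at h4
    exact h4
  have h2 : U ≠ ⊤ := by
    intro h
    apply not_le_fl hL v
    intro y hy
    have h4 : θ ⟨y, hy⟩ ∈ U := by rw [h]; trivial
    exact (mem_lt hθ (smul_le_bo _ _)).1 h4
  have h3 : Module.finrank (𝓞 F ⧸ v.asIdeal) U ≠ 0 := fun h => h1 (Submodule.finrank_eq_zero.1 h)
  have h4 : Module.finrank (𝓞 F ⧸ v.asIdeal) U < 2 := by
    have := Submodule.finrank_lt h2
    rwa [Module.finrank_fin_fun] at this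
  omega

/-- the other sublattices of index `N(v)` -/
theorem bo_sub (hL : IsLat L) {L' : Submodule (𝓞 F) (Fin 2 → F)} (h : L' ∈ Sub v 1 L)
    (hne : L' ≠ fl L ⊔ v.asIdeal • L) : fl L' ⊔ v.asIdeal • L' = v.asIdeal • L := by
  obtain ⟨θ, hs, hθ⟩ := exists_theta' hL v
  have hmax : v.asIdeal.IsMaximal := v.isMaximal
  let fld : Field (𝓞 F ⧸ v.asIdeal) := Ideal.Quotient.field v.asIdeal
  have h0 := bo_mem_sub hL v
  set L₀ := fl L ⊔ v.asIdeal • L with hL₀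
  have hr' := (finrank_lt hs hθ h.1 h.2.1).1 h
  have hr₀ := (finrank_lt hs hθ h0.1 h0.2.1).1 h0
  have hneU : lt θ L' ≠ lt θ L₀ := by
    intro hU
    apply hne
    rw [← tl_lt hθ h.1 h.2.1, hU, tl_lt hθ h0.1 h0.2.1]
  have hfr : Module.finrank (𝓞 F ⧸ v.asIdeal) (Fin 2 → 𝓞 F ⧸ v.asIdeal) = 2 :=
    Module.finrank_fin_fun _
  -- the lines meet in `0`
  have hinf : lt θ L' ⊓ lt θ L₀ = ⊥ := by
    by_contra hb
    have h1 : Module.finrank (𝓞 F ⧸ v.asIdeal) ↥(lt θ L' ⊓ lt θ L₀) ≠ 0 :=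
      fun h => hb (Submodule.finrank_eq_zero.1 h)
    have h2 : lt θ L' ⊓ lt θ L₀ = lt θ L' :=
      Submodule.eq_of_le_of_finrank_le inf_le_left (by omega)
    have h3 : lt θ L' ⊓ lt θ L₀ = lt θ L₀ :=
      Submodule.eq_of_le_of_finrank_le inf_le_right (by omega)
    exact hneU (h2.symm.trans h3)
  have hsup : lt θ L' ⊔ lt θ L₀ = ⊤ := by
    apply Submodule.eq_top_of_finrank_eq
    have h1 := Submodule.finrank_sup_add_finrank_inf_eq (lt θ L') (lt θ L₀)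
    rw [hinf, finrank_bot] at h1
    rw [hfr]
    omega
  apply le_antisymm
  · refine sup_le ?_ (Submodule.smul_mono le_rfl h.2.1)
    intro y hy
    have hyL : y ∈ L := h.2.1 hy.1
    have h1 : θ ⟨y, hyL⟩ ∈ lt θ L' ⊓ lt θ L₀ :=
      ⟨(mem_lt hθ h.1).2 hy.1, (mem_lt hθ h0.1).2 (Submodule.mem_sup_left ⟨hyL, hy.2⟩)⟩
    rw [hinf, Submodule.mem_bot, hθ] at h1
    exact h1
  · have h1 : L ≤ L' ⊔ fl L := by
      intro y hy
      have h2 : θ ⟨y, hy⟩ ∈ lt θ L' ⊔ lt θ L₀ := by rw [hsup]; trivial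
      obtain ⟨w1, ⟨z1, rfl, hz1⟩, w2, ⟨z2, rfl, hz2⟩, h3⟩ := Submodule.mem_sup.1 h2
      have h4 : θ (⟨y, hy⟩ - (z1 + z2)) = 0 := by rw [map_sub, map_add, h3, sub_self]
      rw [hθ] at h4
      have h5 : y = (y - ((z1 : Fin 2 → F) + z2)) + (z1 + z2) := by abel
      rw [h5]
      refine Submodule.add_mem _ (Submodule.mem_sup_left (h.1 h4)) ?_
      refine Submodule.add_mem _ (Submodule.mem_sup_left hz1) ?_
      have h6 : L₀ ≤ L' ⊔ fl L := sup_le le_sup_right (h.1.trans le_sup_left)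
      exact h6 hz2
    refine (Submodule.smul_mono (le_refl v.asIdeal) h1).trans ?_
    rw [Submodule.smul_sup]
    refine sup_le le_sup_right (le_trans ?_ le_sup_left)
    rw [← fl_smul hL]
    exact fl_mono h.1

theorem card_sub_one (hL : IsLat L) (v : HeightOneSpectrum (𝓞 F)) :
    Nat.card (Sub v 1 L) = Ideal.absNorm v.asIdeal + 1 := by
  have hmax : v.asIdeal.IsMaximal := v.isMaximal
  let fld : Field (𝓞 F ⧸ v.asIdeal) := Ideal.Quotient.field v.asIdeal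
  have hfin : Finite (𝓞 F ⧸ v.asIdeal) := Ideal.finiteQuotientOfFreeOfNeBot v.asIdeal v.ne_bot
  rw [(TLAT.t_GRS TLVL.t_LVL TIND.t_IND F 2 L hL v 1).2]
  have h1 : Nat.card (Projectivization (𝓞 F ⧸ v.asIdeal) (Fin 2 → 𝓞 F ⧸ v.asIdeal)) =
      Nat.card (𝓞 F ⧸ v.asIdeal) + 1 :=
    Projectivization.card_of_finrank_two _ _ (Module.finrank_fin_fun _)
  have h2 : Nat.card (Projectivization (𝓞 F ⧸ v.asIdeal) (Fin 2 → 𝓞 F ⧸ v.asIdeal)) =
      Nat.card {U : Submodule (𝓞 F ⧸ v.asIdeal) (Fin 2 → 𝓞 F ⧸ v.asIdeal) //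
        Module.finrank (𝓞 F ⧸ v.asIdeal) U = 1} :=
    Nat.card_congr (Projectivization.equivSubmodule (𝓞 F ⧸ v.asIdeal) (Fin 2 → 𝓞 F ⧸ v.asIdeal))
  have h3 : Nat.card {U : Submodule (𝓞 F ⧸ v.asIdeal) (Fin 2 → 𝓞 F ⧸ v.asIdeal) //
        Module.finrank (𝓞 F ⧸ v.asIdeal) U + 1 = 2} =
      Nat.card {U : Submodule (𝓞 F ⧸ v.asIdeal) (Fin 2 → 𝓞 F ⧸ v.asIdeal) //
        Module.finrank (𝓞 F ⧸ v.asIdeal) U = 1} :=
    Nat.card_congr (Equiv.subtypeEquivRight fun U => by omega)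
  rw [h3, ← h2, h1, Ideal.absNorm_apply, Submodule.cardQuot_apply]

end Pool.Agent.T2h61.CH.Bo
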