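import Pool.Agent.T2h61.CH.Stm
import Pool.Agent.T2h61.CG.All

/-!
# Compactly supported cohomology of `GL_2` in degree one: assembly
-/

set_option autoImplicit false

open NumberField IsDedekindDomain Matrix Polynomial

noncomputable section

namespace Pool.Agent.T2h61.CH

open Pool.Agent.T2h61.CG

/-- eigenvalues of the inverse matrix -/
theorem eval_inv {k : Type} [Field k] (A : GL (Fin 2) k) {c : k} (hc : c ≠ 0)
    (h : (A⁻¹).1.charpoly.eval c = 0) : A.1.charpoly.eval c⁻¹ = 0 := by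
  rw [Matrix.eval_charpoly] at h ⊢
  have h1 : (A.1 * (Matrix.scalar (Fin 2) c - (A⁻¹).1)) =
      (-c) • (Matrix.scalar (Fin 2) c⁻¹ - A.1) := by
    have h2 : A.1 * (A⁻¹).1 = 1 := by
      rw [← Units.val_mul, mul_inv_cancel, Units.val_one]
    rw [mul_sub, h2, smul_sub]
    have h3 : A.1 * Matrix.scalar (Fin 2) c = c • A.1 := by
      rw [Matrix.scalar_apply, ← Matrix.smul_one_eq_diagonal, Matrix.mul_smul, mul_one]
    have h4 : (-c) • Matrix.scalar (Fin 2) c⁻¹ = (-1 : Matrix (Fin 2) (Fin 2) k) := by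
      rw [Matrix.scalar_apply, ← Matrix.smul_one_eq_diagonal, smul_smul, neg_mul,
        mul_inv_cancel₀ hc, neg_smul, one_smul]
    rw [h3, h4, neg_smul]
    abel
  have h5 := congrArg Matrix.det h1
  rw [Matrix.det_mul, h, mul_zero, Matrix.det_smul] at h5
  exact (mul_eq_zero.1 h5.symm).resolve_left (pow_ne_zero _ (neg_ne_zero.2 hc))

section

variable {F : Type} [Field F] [NumberField F]

theorem RC_inv {k : Type} [Field k] {χ : HeightOneSpectrum (𝓞 F) → k} {𝔪 : Ideal (𝓞 F)}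
    (h : RC χ 𝔪) : RC (fun v => (χ v)⁻¹) 𝔪 := by
  intro s x hx h1 h2 h3
  have := h s x hx h1 h2 h3
  rw [Multiset.prod_map_inv, this, inv_one]

theorem coprime_of_not_le {𝔪 : Ideal (𝓞 F)} {v : HeightOneSpectrum (𝓞 F)}
    (hv : ¬ 𝔪 ≤ v.asIdeal) : IsCoprime v.asIdeal 𝔪 := by
  rw [Ideal.isCoprime_iff_sup_eq]
  refine v.isMaximal.1.2 _ (lt_of_le_of_ne le_sup_left fun h => hv ?_)
  rw [h]
  exact le_sup_right

/-- the values of a ray class character are not zero -/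
theorem RC_ne_zero (hHNB : S_HNB) {k : Type} [Field k] {χ : HeightOneSpectrum (𝓞 F) → k}
    {𝔪 : Ideal (𝓞 F)} (h𝔪 : 𝔪 ≠ ⊥) (h : RC χ 𝔪) {v : HeightOneSpectrum (𝓞 F)}
    (hv : ¬ 𝔪 ≤ v.asIdeal) : χ v ≠ 0 := by
  obtain ⟨m, hm, h1⟩ := hHNB F 𝔪 h𝔪
  obtain ⟨x, hx0, hx1, hxp, hx⟩ := h1 v.asIdeal v.ne_bot (coprime_of_not_le hv)
  have h2 := h (Multiset.replicate m v) x hx0 hx1 hxp (by
    rw [Multiset.map_replicate, Multiset.prod_replicate, hx])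
  rw [Multiset.map_replicate, Multiset.prod_replicate] at h2
  intro h0
  rw [h0, zero_pow hm] at h2
  exact zero_ne_one h2

theorem satake_two {S : Set (HeightOneSpectrum (𝓞 F))} {R k : Type} [CommRing R] [Field k]
    [Algebra R k] (lam : FreeAlgebra R (Ix 2 S) →ₐ[R] k) (v : HeightOneSpectrum (𝓞 F)) (c : k) :
    (satake lam v).eval c = c ^ 2 - ev lam v 1 * c + (Ideal.absNorm v.asIdeal : k) * ev lam v 2 := by
  have h0 : ev lam v 0 = 1 := by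
    rw [ev, dif_neg (fun h => by have := h.2.1; omega)]
  rw [satake, Finset.sum_range_succ, Finset.sum_range_succ, Finset.sum_range_one]
  simp only [eval_add, eval_mul, eval_C, eval_pow, eval_X, h0]
  norm_num
  ring

end

/-- the reduction: representations attached to the eigensystems of the boundary -/
theorem boundary (hHNB : S_HNB) (hRED : S_RED) (F : Type) [Field F] [NumberField F]
    (𝔪 : Ideal (𝓞 F)) (h𝔪 : 𝔪 ≠ ⊥) (S : Set (HeightOneSpectrum (𝓞 F))) (hSf : S.Finite)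
    (hS : ∀ v, 𝔪 ≤ v.asIdeal → v ∈ S) (R k : Type) [CommRing R] [Field k] [IsAlgClosed k]
    [Algebra R k] (lam : FreeAlgebra R (Ix 2 S) →ₐ[R] k) (χ : HeightOneSpectrum (𝓞 F) → k)
    (hχ : RC χ 𝔪) (hq : ∀ v ∉ S,
      χ v ^ 2 - ev lam v 1 * χ v + (Ideal.absNorm v.asIdeal : k) * ev lam v 2 = 0)
    (p : ℕ) (hp : p.Prime) (hk : CharP k p) (L : Type) [Field L] [NumberField L] [Algebra F L]
    [IsGalois F L] (ρ : Gal(L/F) →* GL (Fin 2) k) (hρ : Attached lam L ρ) :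
    ∃ w : Fin 2 → k, w ≠ 0 ∧ ∀ g, ∃ b : k, (ρ g).1.mulVec w = b • w := by
  obtain ⟨B, hB⟩ := (hSf.image fun v => Ideal.absNorm v.asIdeal).bddAbove
  have hB' : ∀ (v : HeightOneSpectrum (𝓞 F)) (ℓ : ℕ), B < ℓ → Ideal.absNorm v.asIdeal = ℓ →
      v ∉ S := by
    intro v ℓ h1 h2 hv
    have h3 : Ideal.absNorm v.asIdeal ≤ B := hB (Set.mem_image_of_mem _ hv)
    omega
  rcases hρ with hρ | hρ
  · refine hRED F L k p hp hk χ 𝔪 h𝔪 hχ B ρ fun v ℓ _ φ g h1 h2 h3 => ?_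
    have hv := hB' v ℓ h1 h2
    rw [hρ v hv ℓ φ g h3, satake_two, hq v hv]
  · refine hRED F L k p hp hk (fun v => (χ v)⁻¹) 𝔪 h𝔪 (RC_inv hχ) B ρ
      fun v ℓ _ φ g h1 h2 h3 => ?_
    have hv := hB' v ℓ h1 h2
    refine eval_inv (ρ g) (RC_ne_zero hHNB h𝔪 hχ fun h => hv (hS v h)) ?_
    rw [← map_inv, hρ v hv ℓ φ g h3, satake_two, hq v hv]

/-- the main theorem -/
theorem main (hDIC : S_DIC) (hEXB : S_EXB) (hHNB : S_HNB) (hRED : S_RED) (F : Type) [Field F]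
    [NumberField F] (hF : Infinite (𝓞 F)ˣ)
    (𝔪 : Ideal (𝓞 F)) (h𝔪 : 𝔪 ≠ ⊥) (S : Set (HeightOneSpectrum (𝓞 F))) (hSf : S.Finite)
    (hS : ∀ v, 𝔪 ≤ v.asIdeal → v ∈ S) (a : HeightOneSpectrum (𝓞 F) → 𝓞 F)
    (ha : ∀ v ∉ S, a v ∈ v.asIdeal ∧ a v - 1 ∈ 𝔪) (R W k : Type) [CommRing R] [AddCommGroup W]
    [Module R W] [Field k] [IsAlgClosed k] [Algebra R k] (H : Subgroup (GL (Fin 2) (𝓞 F ⧸ 𝔪)))
    (ρW : Representation R H W) (lam : FreeAlgebra R (Ix 2 S) →ₐ[R] k) (hl : SuppC a ρW lam) :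
    ((∃ S' : Set (HeightOneSpectrum (𝓞 F)), S ⊆ S' ∧ S'.Finite ∧
      ∃ c : HeightOneSpectrum (𝓞 F) → k, ∀ v ∉ S', ∀ j, 1 ≤ j → j ≤ 2 →
        ev lam v j = deg 2 v j * c v ^ j) ∨
      ∃ χ : HeightOneSpectrum (𝓞 F) → k, RC χ 𝔪 ∧ ∀ v ∉ S,
        χ v ^ 2 - ev lam v 1 * χ v + (Ideal.absNorm v.asIdeal : k) * ev lam v 2 = 0) ∧
    ∀ p : ℕ, p.Prime → CharP k p → ∀ (L : Type) [Field L] [NumberField L] [Algebra F L]
      [IsGalois F L] (ρ : Gal(L/F) →* GL (Fin 2) k), Attached lam L ρ →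
      ∃ w : Fin 2 → k, w ≠ 0 ∧ ∀ g, ∃ b : k, (ρ g).1.mulVec w = b • w := by
  rcases hDIC F 𝔪 h𝔪 S hS a ha R W k H ρW lam hl with h1 | h1
  · obtain ⟨h2, h3⟩ := a_main F 2 le_rfl 𝔪 h𝔪 S hSf hS a ha R W k H ρW lam (Or.inr ⟨Or.inr hF, h1⟩)
    exact ⟨Or.inl h2, h3⟩
  · obtain ⟨χ, hχ, hq⟩ := hEXB F 𝔪 h𝔪 S hS a ha R W k H ρW lam h1
    exact ⟨Or.inr ⟨χ, hχ, hq⟩, fun p hp hk L _ _ _ _ ρ hρ =>
      boundary hHNB hRED F 𝔪 h𝔪 S hSf hS R k lam χ hχ hq p hp hk L ρ hρ⟩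

end Pool.Agent.T2h61.CH
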