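import Pool.Agent.T2h61.CG.Bas2

/-!
# Calegari–Geraghty for `GL_2` over number fields, compactly supported cohomology in degree `1`:
definitions and statements of the parts

`H¹_c(Y(K_f), W) = Hom_{GL_2(F)}(St, Aut)`, `St` the divisors of degree `0` on `ℙ¹(F)`.
-/

set_option autoImplicit false

open NumberField IsDedekindDomain Matrix Polynomial

noncomputable section

namespace Pool.Agent.T2h61.CH

open Pool.Agent.T2h61.CG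

section defs

variable {F : Type} [Field F] [NumberField F] {𝔪 : Ideal (𝓞 F)}
  {S : Set (HeightOneSpectrum (𝓞 F))} {R W : Type} [CommRing R] [AddCommGroup W] [Module R W]

/-- modular symbols: `GL_2(F)`-equivariant homomorphisms from the divisors of degree `0` on `ℙ¹(F)`
to the automorphic functions; `m x y` is the value at `(x) - (y)` -/
structure IsMS {H : Subgroup (GL (Fin 2) (𝓞 F ⧸ 𝔪))} (ρW : Representation R H W)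
    (m : (Fin 2 → F) → (Fin 2 → F) → Pt F 2 → W) : Prop where
  /-- the values are automorphic functions -/
  aut : ∀ x y, x ≠ 0 → y ≠ 0 → Aut ρW (m x y)
  /-- additivity -/
  add : ∀ x y z, x ≠ 0 → y ≠ 0 → z ≠ 0 → m x y + m y z = m x z
  /-- dependence on the points of `ℙ¹(F)` only -/
  smul : ∀ (c d : F) x y, c ≠ 0 → d ≠ 0 → x ≠ 0 → y ≠ 0 → m (c • x) (d • y) = m x y
  /-- equivariance -/
  eqv : ∀ (g : GL (Fin 2) F) x y, x ≠ 0 → y ≠ 0 → m (g.1.mulVec x) (g.1.mulVec y) = tr g (m x y)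

/-- the eigensystem `lam` is in the support of `H¹_c(Y(K_f), W)`: there is a modular symbol whose
annihilator in the Hecke algebra is contained in the kernel of `lam` -/
def SuppC {k : Type} [Field k] [Algebra R k] (a : HeightOneSpectrum (𝓞 F) → 𝓞 F)
    {H : Subgroup (GL (Fin 2) (𝓞 F ⧸ 𝔪))} (ρW : Representation R H W)
    (lam : FreeAlgebra R (Ix 2 S) →ₐ[R] k) : Prop :=
  ∃ m : (Fin 2 → F) → (Fin 2 → F) → Pt F 2 → W, IsMS ρW m ∧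
    ∀ t, (∀ x y, x ≠ 0 → y ≠ 0 → act R 𝔪 S a t (m x y) = 0) → lam t = 0

/-- `φ` is invariant under the upper triangular matrices -/
def Bi (φ : Pt F 2 → W) : Prop := ∀ b : GL (Fin 2) F, b.1 1 0 = 0 → ∀ x, φ (ga b x) = φ x

/-- the eigensystem `lam` is in the support of the functions invariant under the upper triangular
matrices -/
def SuppB {k : Type} [Field k] [Algebra R k] (a : HeightOneSpectrum (𝓞 F) → 𝓞 F)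
    {H : Subgroup (GL (Fin 2) (𝓞 F ⧸ 𝔪))} (ρW : Representation R H W)
    (lam : FreeAlgebra R (Ix 2 S) →ₐ[R] k) : Prop :=
  ∃ φ : Pt F 2 → W, Aut ρW φ ∧ Bi φ ∧ ∀ t, act R 𝔪 S a t φ = 0 → lam t = 0

/-- `L ∩ F e_1` -/
def fl (L : Submodule (𝓞 F) (Fin 2 → F)) : Submodule (𝓞 F) (Fin 2 → F) where
  carrier := {y | y ∈ L ∧ y 1 = 0}
  add_mem' := fun {a b} ha hb => ⟨L.add_mem ha.1 hb.1, by rw [Pi.add_apply, ha.2, hb.2, add_zero]⟩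
  zero_mem' := ⟨L.zero_mem, rfl⟩
  smul_mem' := fun r a ha => ⟨L.smul_mem r ha.1, by rw [Pi.smul_apply, ha.2, smul_zero]⟩

/-- the operator `φ ↦ ((s, L, e) ↦ φ (s, L ∩ F e_1 + 𝔞 L, a e))` -/
def bo (R : Type) [CommRing R] [Module R W] (𝔪 𝔞 : Ideal (𝓞 F)) (a : 𝓞 F) :
    Module.End R (Pt F 2 → W) where
  toFun φ x := open Classical in
    if Ok 𝔪 x then φ ⟨x.s, fl x.L ⊔ 𝔞 • x.L, fun i => a • x.e i⟩ else 0
  map_add' φ ψ := by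
    classical
    funext x
    by_cases h : Ok 𝔪 x
    · simp only [Pi.add_apply, if_pos h]
    · simp only [Pi.add_apply, if_neg h, add_zero]
  map_smul' r φ := by
    classical
    funext x
    by_cases h : Ok 𝔪 x
    · simp only [Pi.smul_apply, if_pos h, RingHom.id_apply]
    · simp only [Pi.smul_apply, if_neg h, smul_zero]

/-- `x` is totally positive -/
def TP (x : 𝓞 F) : Prop := ∀ w : {w : InfinitePlace F // w.IsReal}, 0 < InfinitePlace.embedding_of_isReal w.2 (x : F)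

/-- `χ` is trivial on the principal ideals generated by the totally positive elements congruent to
`1` modulo `𝔪` -/
def RC {k : Type} [Field k] (χ : HeightOneSpectrum (𝓞 F) → k) (𝔪 : Ideal (𝓞 F)) : Prop :=
  ∀ (s : Multiset (HeightOneSpectrum (𝓞 F))) (x : 𝓞 F), x ≠ 0 → x - 1 ∈ 𝔪 → TP x →
    (s.map fun v => v.asIdeal).prod = Ideal.span {x} → (s.map χ).prod = 1

end defs

/-! ## A. The boundary -/

/-- A1 -/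
def S_BO1 : Prop := ∀ (F : Type) [Field F] [NumberField F] (R W : Type) [CommRing R]
  [AddCommGroup W] [Module R W] (𝔪 𝔞 : Ideal (𝓞 F)) (a : 𝓞 F), 𝔞 ≠ ⊥ → IsCoprime 𝔞 𝔪 → a ∈ 𝔞 →
  a - 1 ∈ 𝔪 → ∀ φ : Pt F 2 → W, Lev 𝔪 φ →
  Lev 𝔪 (bo R 𝔪 𝔞 a φ) ∧ (Bi φ → Bi (bo R 𝔪 𝔞 a φ)) ∧
    ∀ x : Pt F 2, Ok 𝔪 x → Ok 𝔪 (⟨x.s, fl x.L ⊔ 𝔞 • x.L, fun i => a • x.e i⟩ : Pt F 2)

/-- A2 -/
def S_BO2 : Prop := ∀ (F : Type) [Field F] [NumberField F] (R W : Type) [CommRing R]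
  [AddCommGroup W] [Module R W] (𝔪 𝔞 𝔟 : Ideal (𝓞 F)) (a b c : 𝓞 F), 𝔞 ≠ ⊥ → 𝔟 ≠ ⊥ →
  IsCoprime 𝔞 𝔪 → IsCoprime 𝔟 𝔪 → a ∈ 𝔞 → a - 1 ∈ 𝔪 → b ∈ 𝔟 → b - 1 ∈ 𝔪 → c ∈ 𝔞 * 𝔟 →
  c - 1 ∈ 𝔪 → ∀ φ : Pt F 2 → W, Lev 𝔪 φ → bo R 𝔪 𝔞 a (bo R 𝔪 𝔟 b φ) = bo R 𝔪 (𝔞 * 𝔟) c φ

/-- A3 -/
def S_BO3 : Prop := ∀ (F : Type) [Field F] [NumberField F] (R W : Type) [CommRing R]
  [AddCommGroup W] [Module R W] (𝔪 : Ideal (𝓞 F)) (x : 𝓞 F), x ≠ 0 → x - 1 ∈ 𝔪 → TP x →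
  ∀ φ : Pt F 2 → W, Lev 𝔪 φ → Bi φ → bo R 𝔪 (Ideal.span {x}) x φ = φ

/-- A4 -/
def S_BO4 : Prop := ∀ (F : Type) [Field F] [NumberField F] (R W : Type) [CommRing R]
  [AddCommGroup W] [Module R W] (𝔪 : Ideal (𝓞 F)) (v : HeightOneSpectrum (𝓞 F)) (a : 𝓞 F),
  𝔪 ≠ ⊥ → ¬ 𝔪 ≤ v.asIdeal → a ∈ v.asIdeal → a - 1 ∈ 𝔪 → ∀ φ : Pt F 2 → W, Lev 𝔪 φ →
  hk R 𝔪 v 1 a (bo R 𝔪 v.asIdeal a φ) = bo R 𝔪 v.asIdeal a (bo R 𝔪 v.asIdeal a φ) +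
    (Ideal.absNorm v.asIdeal : R) • hk R 𝔪 v 2 a φ

/-- A5 -/
def S_BO5 : Prop := ∀ (F : Type) [Field F] [NumberField F] (R W : Type) [CommRing R]
  [AddCommGroup W] [Module R W] (𝔪 𝔞 : Ideal (𝓞 F)) (v w : HeightOneSpectrum (𝓞 F)) (a b c : 𝓞 F),
  𝔪 ≠ ⊥ → 𝔞 ≠ ⊥ → IsCoprime 𝔞 𝔪 → c ∈ 𝔞 → c - 1 ∈ 𝔪 → ¬ 𝔪 ≤ v.asIdeal → a ∈ v.asIdeal →
  a - 1 ∈ 𝔪 → ¬ 𝔪 ≤ w.asIdeal → b ∈ w.asIdeal → b - 1 ∈ 𝔪 → ∀ φ : Pt F 2 → W, Lev 𝔪 φ →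
  hk R 𝔪 v 2 a (bo R 𝔪 𝔞 c φ) = bo R 𝔪 𝔞 c (hk R 𝔪 v 2 a φ) ∧
  hk R 𝔪 v 2 a (hk R 𝔪 w 2 b φ) = hk R 𝔪 w 2 b (hk R 𝔪 v 2 a φ) ∧ (Bi φ → Bi (hk R 𝔪 v 2 a φ)) ∧
  (Bi φ → Bi (hk R 𝔪 v 1 a φ))

/-- A6: finiteness of the narrow ray class group -/
def S_HNB : Prop := ∀ (F : Type) [Field F] [NumberField F] (𝔪 : Ideal (𝓞 F)), 𝔪 ≠ ⊥ →
  ∃ h : ℕ, h ≠ 0 ∧ ∀ 𝔞 : Ideal (𝓞 F), 𝔞 ≠ ⊥ → IsCoprime 𝔞 𝔪 →
    ∃ x : 𝓞 F, x ≠ 0 ∧ x - 1 ∈ 𝔪 ∧ TP x ∧ 𝔞 ^ h = Ideal.span {x}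

/-- A7 -/
def S_EXB : Prop := ∀ (F : Type) [Field F] [NumberField F] (𝔪 : Ideal (𝓞 F)), 𝔪 ≠ ⊥ →
  ∀ S : Set (HeightOneSpectrum (𝓞 F)), (∀ v, 𝔪 ≤ v.asIdeal → v ∈ S) →
  ∀ a : HeightOneSpectrum (𝓞 F) → 𝓞 F, (∀ v ∉ S, a v ∈ v.asIdeal ∧ a v - 1 ∈ 𝔪) →
  ∀ (R W k : Type) [CommRing R] [AddCommGroup W] [Module R W] [Field k] [IsAlgClosed k]
    [Algebra R k] (H : Subgroup (GL (Fin 2) (𝓞 F ⧸ 𝔪))) (ρW : Representation R H W)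
    (lam : FreeAlgebra R (Ix 2 S) →ₐ[R] k), SuppB a ρW lam →
  ∃ χ : HeightOneSpectrum (𝓞 F) → k, RC χ 𝔪 ∧ ∀ v ∉ S,
    χ v ^ 2 - ev lam v 1 * χ v + (Ideal.absNorm v.asIdeal : k) * ev lam v 2 = 0

/-- A8 -/
def S_DIC : Prop := ∀ (F : Type) [Field F] [NumberField F] (𝔪 : Ideal (𝓞 F)), 𝔪 ≠ ⊥ →
  ∀ S : Set (HeightOneSpectrum (𝓞 F)), (∀ v, 𝔪 ≤ v.asIdeal → v ∈ S) →
  ∀ a : HeightOneSpectrum (𝓞 F) → 𝓞 F, (∀ v ∉ S, a v ∈ v.asIdeal ∧ a v - 1 ∈ 𝔪) →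
  ∀ (R W k : Type) [CommRing R] [AddCommGroup W] [Module R W] [Field k] [Algebra R k]
    (H : Subgroup (GL (Fin 2) (𝓞 F ⧸ 𝔪))) (ρW : Representation R H W)
    (lam : FreeAlgebra R (Ix 2 S) →ₐ[R] k), SuppC a ρW lam → Supp1 a ρW lam ∨ SuppB a ρW lam

/-! ## B. Number theory -/

/-- B1: every narrow ray class contains primes of degree `1` -/
def S_RAN : Prop := ∀ (K : Type) [Field K] [NumberField K] (𝔪 𝔟 : Ideal (𝓞 K)), 𝔪 ≠ ⊥ → 𝔟 ≠ ⊥ →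
  IsCoprime 𝔟 𝔪 → ∀ B : ℕ, ∃ v : HeightOneSpectrum (𝓞 K), (Ideal.absNorm v.asIdeal).Prime ∧
    B < Ideal.absNorm v.asIdeal ∧ ∃ a b : 𝓞 K, a ≠ 0 ∧ b ≠ 0 ∧ a - 1 ∈ 𝔪 ∧ b - 1 ∈ 𝔪 ∧ TP a ∧
      TP b ∧ Ideal.span {a} * v.asIdeal = Ideal.span {b} * 𝔟

/-- B2: the norm of a ray class character -/
def S_NRC : Prop := ∀ (F E : Type) [Field F] [NumberField F] [Field E] [NumberField E]
  [Algebra F E] (k : Type) [Field k] (χ : HeightOneSpectrum (𝓞 F) → k) (N : ℕ), N ≠ 0 →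
  RC χ (Ideal.span {(N : 𝓞 F)}) → ∃ χ' : HeightOneSpectrum (𝓞 E) → k,
    RC χ' (Ideal.span {(N : 𝓞 E)}) ∧ ∀ (w : HeightOneSpectrum (𝓞 E)) (v : HeightOneSpectrum (𝓞 F)),
      (Ideal.absNorm w.asIdeal).Prime → (∀ x : 𝓞 F, x ∈ v.asIdeal ↔ algebraMap (𝓞 F) (𝓞 E) x ∈ w.asIdeal) →
      χ' w = χ v

/-- B3: ray class characters on products -/
def S_RCM : Prop := ∀ (F : Type) [Field F] [NumberField F] (k : Type) [Field k]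
  (χ : HeightOneSpectrum (𝓞 F) → k) (𝔪 : Ideal (𝓞 F)), RC χ 𝔪 →
  ∀ (s t : Multiset (HeightOneSpectrum (𝓞 F))) (a b : 𝓞 F), a ≠ 0 → b ≠ 0 → a - 1 ∈ 𝔪 →
  b - 1 ∈ 𝔪 → TP a → TP b → Ideal.span {a} * (s.map fun v => v.asIdeal).prod =
    Ideal.span {b} * (t.map fun v => v.asIdeal).prod → (s.map χ).prod = (t.map χ).prod

/-- B4: norms of the elements congruent to one -/
def S_NOR : Prop := ∀ (K : Type) [Field K] [NumberField K] (m : ℕ) (x : 𝓞 K), x ≠ 0 →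
  x - 1 ∈ Ideal.span {(m : 𝓞 K)} → TP x → (Ideal.absNorm (Ideal.span {x}) : ZMod m) = 1

/-- B5: Frobenius elements exist -/
def S_FRE : Prop := ∀ (F L : Type) [Field F] [NumberField F] [Field L] [NumberField L]
  [Algebra F L] [IsGalois F L] (v : HeightOneSpectrum (𝓞 F)) (ℓ : ℕ) [Fact ℓ.Prime]
  (φ : 𝓞 L →+* AlgebraicClosure (ZMod ℓ)),
  (∀ x : 𝓞 F, x ∈ v.asIdeal ↔ φ (algebraMap (𝓞 F) (𝓞 L) x) = 0) → ∃ g : Gal(L/F), IsFrob v φ g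

/-- B6: for large primes Frobenius elements are unique -/
def S_UNR : Prop := ∀ (F L : Type) [Field F] [NumberField F] [Field L] [NumberField L]
  [Algebra F L], ∃ B : ℕ, ∀ (v : HeightOneSpectrum (𝓞 F)) (ℓ : ℕ) [Fact ℓ.Prime], B < ℓ →
  ∀ (φ : 𝓞 L →+* AlgebraicClosure (ZMod ℓ)) (g g' : Gal(L/F)), IsFrob v φ g → IsFrob v φ g' → g = g'

/-- B7: Chebotarev -/
def S_FRC : Prop := ∀ (F L : Type) [Field F] [NumberField F] [Field L] [NumberField L]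
  [Algebra F L] [IsGalois F L] (g : Gal(L/F)) (B : ℕ), ∃ (v : HeightOneSpectrum (𝓞 F)) (ℓ : ℕ)
  (_ : Fact ℓ.Prime) (φ : 𝓞 L →+* AlgebraicClosure (ZMod ℓ)), B < ℓ ∧
    Ideal.absNorm v.asIdeal = ℓ ∧ IsFrob v φ g

/-- `χ` is trivial on the large primes of degree one with trivial Frobenius -/
def Spl (F L : Type) [Field F] [NumberField F] [Field L] [NumberField L] [Algebra F L] {k : Type}
    [Field k] (χ : HeightOneSpectrum (𝓞 F) → k) (B : ℕ) : Prop :=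
  ∀ (v : HeightOneSpectrum (𝓞 F)) (ℓ : ℕ) [Fact ℓ.Prime] (φ : 𝓞 L →+* AlgebraicClosure (ZMod ℓ)),
    B < ℓ → Ideal.absNorm v.asIdeal = ℓ → IsFrob v φ (1 : Gal(L/F)) → χ v = 1

/-- B8: characters on subgroups which meet the group of a cyclotomic extension trivially -/
def S_CYC : Prop := ∀ (F M : Type) [Field F] [NumberField F] [Field M] [NumberField M]
  [Algebra F M] [IsGalois F M] (k : Type) [Field k] (χ : HeightOneSpectrum (𝓞 F) → k)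
  (𝔪 : Ideal (𝓞 F)), 𝔪 ≠ ⊥ → RC χ 𝔪 → ∀ B : ℕ, Spl F M χ B → ∀ (m : ℕ) (ζ : M), m ≠ 0 →
  IsPrimitiveRoot ζ m → ∀ P : Subgroup Gal(M/F), (∀ g ∈ P, g ζ = ζ → g = 1) →
  ∃ (B' : ℕ) (f : P →* kˣ), ∀ (g : P) (v : HeightOneSpectrum (𝓞 F)) (ℓ : ℕ) [Fact ℓ.Prime]
    (φ : 𝓞 M →+* AlgebraicClosure (ZMod ℓ)), B' < ℓ → Ideal.absNorm v.asIdeal = ℓ →
    IsFrob v φ (g : Gal(M/F)) → χ v = f g

/-- B9: the auxiliary cyclotomic extension -/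
def S_AUX : Prop := ∀ (F L : Type) [Field F] [NumberField F] [Field L] [NumberField L]
  [Algebra F L] [IsGalois F L] (N : ℕ), N ≠ 0 → ∃ (M : Type) (_ : Field M) (_ : NumberField M)
  (_ : Algebra F M) (_ : Algebra L M) (_ : IsScalarTower F L M) (_ : IsGalois F M) (m : ℕ) (ζ : M)
  (ι : Gal(L/F) × (Fin 3 → Multiplicative (ZMod N)) →* Gal(M/F)), m ≠ 0 ∧ IsPrimitiveRoot ζ m ∧
    (∀ y (x : L), ι y (algebraMap L M x) = algebraMap L M (y.1 x)) ∧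
    ∀ y, ι y ζ = ζ → y.2 = 1

/-- B10 -/
def S_PSI : Prop := ∀ (F L : Type) [Field F] [NumberField F] [Field L] [NumberField L]
  [Algebra F L] [IsGalois F L] (k : Type) [Field k] (χ : HeightOneSpectrum (𝓞 F) → k)
  (𝔪 : Ideal (𝓞 F)), 𝔪 ≠ ⊥ → RC χ 𝔪 → ∀ B : ℕ, Spl F L χ B →
  ∃ ψ : Gal(L/F) → kˣ, (∀ x g, ψ (x * g * x⁻¹) = ψ g) ∧ (∀ g h, g * h = h * g → ψ (g * h) = ψ g * ψ h) ∧
    ∀ g, ∃ (v : HeightOneSpectrum (𝓞 F)) (ℓ : ℕ) (_ : Fact ℓ.Prime)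
      (φ : 𝓞 L →+* AlgebraicClosure (ZMod ℓ)), B < ℓ ∧ Ideal.absNorm v.asIdeal = ℓ ∧
        IsFrob v φ g ∧ χ v = ψ g

/-! ## C. Group theory -/

/-- the hypotheses: a faithful representation and a class function which is multiplicative on
commuting pairs, whose values are eigenvalues -/
structure GH {G k : Type} [Group G] [Field k] (ρ : G →* GL (Fin 2) k) (ψ : G → kˣ) : Prop where
  cls : ∀ x g, ψ (x * g * x⁻¹) = ψ g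
  mul : ∀ g h, g * h = h * g → ψ (g * h) = ψ g * ψ h
  eig : ∀ g, (ρ g).1.charpoly.eval (ψ g : k) = 0

/-- C1: no element swaps two eigenlines of another element -/
def S_GSW : Prop := ∀ (G k : Type) [Group G] [Field k] (ρ : G →* GL (Fin 2) k) (ψ : G → kˣ),
  Function.Injective ρ → GH ρ ψ → ∀ (g x : G) (w₁ w₂ : Fin 2 → k) (a b c d : k), w₁ ≠ 0 → w₂ ≠ 0 →
  a ≠ b → (ρ g).1.mulVec w₁ = a • w₁ → (ρ g).1.mulVec w₂ = b • w₂ →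
  (ρ x).1.mulVec w₁ = c • w₂ → (ρ x).1.mulVec w₂ = d • w₁ → False

/-- C2: subgroups of order prime to `p` and of prime power order are abelian -/
def S_GAB : Prop := ∀ (G k : Type) [Group G] [Finite G] [Field k] [IsAlgClosed k]
  (ρ : G →* GL (Fin 2) k) (ψ : G → kˣ), Function.Injective ρ → GH ρ ψ → ∀ ℓ : ℕ, ℓ.Prime →
  ∀ P : Subgroup G, IsPGroup ℓ P → ∀ x ∈ P, ∀ y ∈ P, x * y = y * x

/-- C3: transfer -/
def S_GTR : Prop := ∀ (G k : Type) [Group G] [Finite G] [Field k] (ψ : G → kˣ),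
  (∀ x g, ψ (x * g * x⁻¹) = ψ g) → (∀ g h, g * h = h * g → ψ (g * h) = ψ g * ψ h) →
  (∀ ℓ : ℕ, ℓ.Prime → ∀ P : Subgroup G, IsPGroup ℓ P → ∀ x ∈ P, ∀ y ∈ P, ψ (x * y) = ψ x * ψ y) →
  ∀ g h, ψ (g * h) = ψ g * ψ h

/-- C4 -/
def S_GIN : Prop := ∀ (G k : Type) [Group G] [Finite G] [Field k] [IsAlgClosed k] (p : ℕ),
  p.Prime → CharP k p → ∀ (ρ : G →* GL (Fin 2) k) (ψ : G →* kˣ),
  (∀ g, (ρ g).1.charpoly.eval (ψ g : k) = 0) →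
  ∃ v : Fin 2 → k, v ≠ 0 ∧ ∀ g, ∃ a : k, (ρ g).1.mulVec v = a • v

/-! ## D. Assembly -/

/-- D1 -/
def S_RED : Prop := ∀ (F L : Type) [Field F] [NumberField F] [Field L] [NumberField L]
  [Algebra F L] [IsGalois F L] (k : Type) [Field k] [IsAlgClosed k] (p : ℕ), p.Prime → CharP k p →
  ∀ (χ : HeightOneSpectrum (𝓞 F) → k) (𝔪 : Ideal (𝓞 F)), 𝔪 ≠ ⊥ → RC χ 𝔪 →
  ∀ (B : ℕ) (ρ : Gal(L/F) →* GL (Fin 2) k), (∀ (v : HeightOneSpectrum (𝓞 F)) (ℓ : ℕ)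
    [Fact ℓ.Prime] (φ : 𝓞 L →+* AlgebraicClosure (ZMod ℓ)) (g : Gal(L/F)), B < ℓ →
    Ideal.absNorm v.asIdeal = ℓ → IsFrob v φ g → (ρ g).1.charpoly.eval (χ v) = 0) →
  ∃ w : Fin 2 → k, w ≠ 0 ∧ ∀ g, ∃ b : k, (ρ g).1.mulVec w = b • w

end Pool.Agent.T2h61.CH
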