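import Pool.Agent.T2h61.CH.Stm
import Pool.Agent.T2h61.CG.T_HK

/-!
# The boundary operators
-/

set_option autoImplicit false

open NumberField IsDedekindDomain Matrix Polynomial

noncomputable section

namespace Pool.Agent.T2h61.CH.TBO1

open Pool.Agent.T2h61.CG
open Pool.Agent.T2h61.CG.THK

variable {F : Type} [Field F] [NumberField F]

/-- the second lattice -/
abbrev M2 (𝔞 : Ideal (𝓞 F)) (L : Submodule (𝓞 F) (Fin 2 → F)) : Submodule (𝓞 F) (Fin 2 → F) :=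
  fl L ⊔ 𝔞 • L

theorem mem_fl {L : Submodule (𝓞 F) (Fin 2 → F)} {y : Fin 2 → F} : y ∈ fl L ↔ y ∈ L ∧ y 1 = 0 :=
  Iff.rfl

theorem fl_le (L : Submodule (𝓞 F) (Fin 2 → F)) : fl L ≤ L := fun _ h => h.1

theorem M2_le (𝔞 : Ideal (𝓞 F)) (L : Submodule (𝓞 F) (Fin 2 → F)) : M2 𝔞 L ≤ L :=
  sup_le (fl_le L) (smul_le_self _ _)

theorem smul_le_M2 (𝔞 : Ideal (𝓞 F)) (L : Submodule (𝓞 F) (Fin 2 → F)) : 𝔞 • L ≤ M2 𝔞 L :=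
  le_sup_right

theorem fl_M2 (𝔞 : Ideal (𝓞 F)) (L : Submodule (𝓞 F) (Fin 2 → F)) : fl (M2 𝔞 L) = fl L := by
  apply le_antisymm
  · rintro y ⟨h1, h2⟩
    exact ⟨M2_le 𝔞 L h1, h2⟩
  · rintro y ⟨h1, h2⟩
    exact ⟨le_sup_left (a := fl L) ⟨h1, h2⟩, h2⟩

theorem isLat_of_le {𝔞 : Ideal (𝓞 F)} (h𝔞 : 𝔞 ≠ ⊥) {n : ℕ} {L L' : Submodule (𝓞 F) (Fin n → F)}
    (hL : IsLat L) (h1 : 𝔞 • L ≤ L') (h2 : L' ≤ L) : IsLat L' := by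
  refine ⟨?_, ?_⟩
  · have hn : IsNoetherian (𝓞 F) L := isNoetherian_of_fg_of_noetherian L hL.1
    exact isNoetherian_submodule.1 hn L' h2
  · obtain ⟨c, hc, hc0⟩ : ∃ c ∈ 𝔞, c ≠ 0 := Submodule.exists_mem_ne_zero_of_ne_bot h𝔞
    have hc0' : (c : F) ≠ 0 := by
      intro h0
      exact hc0 (RingOfIntegers.coe_injective (h0.trans (map_zero (algebraMap (𝓞 F) F)).symm))
    rw [eq_top_iff, ← hL.2, Submodule.span_le]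
    intro y hy
    have h3 : c • y ∈ L' := h1 (Submodule.smul_mem_smul hc hy)
    have h4 : y = (c : F)⁻¹ • (c • y) := by
      rw [show c • y = (c : F) • y from rfl, smul_smul, inv_mul_cancel₀ hc0', one_smul]
    rw [h4]
    exact Submodule.smul_mem _ _ (Submodule.subset_span h3)

/-- the points `(s, L', a e)` for `𝔞 L ≤ L' ≤ L` -/
theorem ok_le {n : ℕ} {𝔪 𝔞 : Ideal (𝓞 F)} (h𝔞 : 𝔞 ≠ ⊥) {a : 𝓞 F} (ha : a ∈ 𝔞) (ha1 : a - 1 ∈ 𝔪)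
    {x : Pt F n} (hx : Ok 𝔪 x) {L' : Submodule (𝓞 F) (Fin n → F)} (h1 : 𝔞 • x.L ≤ L')
    (h2 : L' ≤ x.L) : Ok 𝔪 (⟨x.s, L', fun i => a • x.e i⟩ : Pt F n) := by
  obtain ⟨hx1, hx2, hx3⟩ := hx
  refine ⟨isLat_of_le h𝔞 hx1 h1 h2, fun i => h1 (Submodule.smul_mem_smul ha (hx2 i)), ?_⟩
  intro y hy
  have hy' : y ∈ L' := hy
  have e1 : y = a • y + (1 - a) • y := by rw [← add_smul, add_sub_cancel, one_smul]
  rw [e1]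
  refine Submodule.add_mem _ ?_ (Submodule.mem_sup_right ?_)
  · obtain ⟨y1, hy1, y2, hy2, rfl⟩ := Submodule.mem_sup.1 (hx3 (h2 hy'))
    rw [smul_add]
    refine Submodule.add_mem_sup ?_ ?_
    · have h5 : a • y1 ∈ (Submodule.span (𝓞 F) (Set.range x.e)).map
          (LinearMap.lsmul (𝓞 F) (Fin n → F) a) := Submodule.mem_map_of_mem hy1
      rw [Submodule.map_span, ← Set.range_comp] at h5
      exact h5
    · have h6 : a • y2 ∈ 𝔞 • (𝔪 • x.L) := Submodule.smul_mem_smul ha hy2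
      rw [← Submodule.mul_smul, mul_comm, Submodule.mul_smul] at h6
      exact Submodule.smul_mono le_rfl h1 h6
  · have h7 : (1 - a) ∈ 𝔪 := by
      rw [← neg_sub]; exact 𝔪.neg_mem ha1
    exact Submodule.smul_mem_smul h7 hy'

theorem mem_of_mul' {n : ℕ} {𝔪 𝔞 : Ideal (𝓞 F)} {L L' : Submodule (𝓞 F) (Fin n → F)}
    (h : 𝔞 • L ≤ L') {y : Fin n → F} (hy : y ∈ (𝔪 * 𝔞) • L) : y ∈ 𝔪 • L' := by
  rw [Submodule.mul_smul] at hy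
  exact Submodule.smul_mono le_rfl h hy

theorem fl_gm {b : GL (Fin 2) F} (hb : b.1 1 0 = 0) (L : Submodule (𝓞 F) (Fin 2 → F)) :
    fl (gm b L) = gm b (fl L) := by
  have hb1 : b.1 1 1 ≠ 0 := by
    intro h
    have := det_ne_zero b
    rw [Matrix.det_fin_two, hb, h] at this
    simp at this
  have key : ∀ y : Fin 2 → F, b.1.mulVec y 1 = b.1 1 1 * y 1 := by
    intro y
    simp [Matrix.mulVec, dotProduct, Fin.sum_univ_two, hb]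
  ext y
  rw [mem_gm', mem_fl, mem_fl, mem_gm']
  constructor
  · rintro ⟨h1, h2⟩
    refine ⟨h1, ?_⟩
    have h3 := key (b⁻¹.1.mulVec y)
    rw [mulVec_inv, h2] at h3
    exact (mul_eq_zero.1 h3.symm).resolve_left hb1
  · rintro ⟨h1, h2⟩
    refine ⟨h1, ?_⟩
    have h3 := key (b⁻¹.1.mulVec y)
    rw [mulVec_inv, h2, mul_zero] at h3
    exact h3

theorem M2_gm {b : GL (Fin 2) F} (hb : b.1 1 0 = 0) (𝔞 : Ideal (𝓞 F))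
    (L : Submodule (𝓞 F) (Fin 2 → F)) : M2 𝔞 (gm b L) = gm b (M2 𝔞 L) := by
  rw [M2, M2, gm_sup, gm_smul, fl_gm hb]

variable {R W : Type} [CommRing R] [AddCommGroup W] [Module R W]

theorem bo_apply {𝔪 : Ideal (𝓞 F)} (𝔞 : Ideal (𝓞 F)) (a : 𝓞 F) (φ : Pt F 2 → W) {x : Pt F 2}
    (hx : Ok 𝔪 x) : bo R 𝔪 𝔞 a φ x = φ ⟨x.s, M2 𝔞 x.L, fun i => a • x.e i⟩ := by
  classical
  exact if_pos hx

theorem bo_apply' {𝔪 : Ideal (𝓞 F)} (𝔞 : Ideal (𝓞 F)) (a : 𝓞 F) (φ : Pt F 2 → W) {x : Pt F 2}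
    (hx : ¬ Ok 𝔪 x) : bo R 𝔪 𝔞 a φ x = 0 := by
  classical
  exact if_neg hx

theorem t_BO1 : S_BO1 := by
  classical
  intro F _ _ R W _ _ _ 𝔪 𝔞 a h𝔞 hcop ha ha1 φ hφ
  have hok : ∀ x : Pt F 2, Ok 𝔪 x → Ok 𝔪 (⟨x.s, fl x.L ⊔ 𝔞 • x.L, fun i => a • x.e i⟩ : Pt F 2) :=
    fun x hx => ok_le h𝔞 ha ha1 hx (smul_le_M2 𝔞 x.L) (M2_le 𝔞 x.L)
  refine ⟨⟨fun x hx => bo_apply' 𝔞 a φ hx, fun x y hx hy he => ?_⟩, fun hB b hb x => ?_, hok⟩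
  · rw [bo_apply 𝔞 a φ hx, bo_apply 𝔞 a φ hy]
    refine hφ.eq ⟨he.1, ?_, fun i => ?_⟩
    · show M2 𝔞 x.L = M2 𝔞 y.L
      rw [he.2.1]
    · show a • x.e i - a • y.e i ∈ 𝔪 • M2 𝔞 x.L
      rw [← smul_sub]
      apply mem_of_mul' (smul_le_M2 𝔞 x.L)
      rw [mul_comm, Submodule.mul_smul]
      exact Submodule.smul_mem_smul ha (he.2.2 i)
  · by_cases hx : Ok 𝔪 x
    · rw [bo_apply 𝔞 a φ hx, bo_apply 𝔞 a φ (ok_ga hx), ← hB b hb ⟨x.s, M2 𝔞 x.L, fun i => a • x.e i⟩]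
      congr 1
      show (⟨fun w => sg b.1.det w * x.s w, M2 𝔞 (gm b x.L), fun i => a • b.1.mulVec (x.e i)⟩ :
        Pt F 2) = ⟨fun w => sg b.1.det w * x.s w, gm b (M2 𝔞 x.L), fun i => b.1.mulVec (a • x.e i)⟩
      rw [M2_gm hb]
      congr 1
      funext i
      exact (mulVec_smul_int b.1 a (x.e i)).symm
    · rw [bo_apply' 𝔞 a φ hx, bo_apply' 𝔞 a φ (fun h => hx (ok_ga_iff.1 h))]

theorem t_BO2 : S_BO2 := by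
  classical
  intro F _ _ R W _ _ _ 𝔪 𝔞 𝔟 a b c h𝔞 h𝔟 hcop hcop' ha ha1 hb hb1 hc hc1 φ hφ
  funext x
  by_cases hx : Ok 𝔪 x
  · have hx' : Ok 𝔪 (⟨x.s, M2 𝔞 x.L, fun i => a • x.e i⟩ : Pt F 2) :=
      ok_le h𝔞 ha ha1 hx (smul_le_M2 𝔞 x.L) (M2_le 𝔞 x.L)
    rw [bo_apply 𝔞 a _ hx, bo_apply 𝔟 b φ hx', bo_apply (𝔞 * 𝔟) c φ hx]
    have hL : M2 𝔟 (M2 𝔞 x.L) = M2 (𝔞 * 𝔟) x.L := by
      show fl (M2 𝔞 x.L) ⊔ 𝔟 • (fl x.L ⊔ 𝔞 • x.L) = fl x.L ⊔ (𝔞 * 𝔟) • x.L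
      rw [fl_M2, Submodule.smul_sup, ← sup_assoc, sup_eq_left.2 (smul_le_self 𝔟 (fl x.L)),
        mul_comm 𝔞 𝔟, Submodule.mul_smul]
    refine hφ.eq ⟨rfl, hL, fun i => ?_⟩
    show b • a • x.e i - c • x.e i ∈ 𝔪 • M2 𝔟 (M2 𝔞 x.L)
    rw [hL, smul_smul, ← sub_smul]
    apply mem_of_mul' (smul_le_M2 (𝔞 * 𝔟) x.L)
    refine Submodule.smul_mem_smul ?_ (hx.2.1 i)
    have hcop3 : IsCoprime 𝔪 (𝔞 * 𝔟) := (hcop.mul_left hcop').symm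
    rw [Ideal.mul_eq_inf_of_isCoprime hcop3]
    refine ⟨?_, Ideal.sub_mem _ ?_ hc⟩
    · have e : b * a - c = (b - 1) * a + (a - 1) - (c - 1) := by ring
      rw [e]
      exact 𝔪.sub_mem (𝔪.add_mem (𝔪.mul_mem_right _ hb1) ha1) hc1
    · rw [mul_comm b a]
      exact Ideal.mul_mem_mul ha hb
  · rw [bo_apply' 𝔞 a _ hx, bo_apply' (𝔞 * 𝔟) c φ hx]

end Pool.Agent.T2h61.CH.TBO1
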