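import Pool.Agent.T2h61.CH.BoBas

/-!
# A2: products of the operators `bo`
-/

set_option autoImplicit false

open NumberField IsDedekindDomain Matrix

noncomputable section

namespace Pool.Agent.T2h61.CH.TBO2

open Pool.Agent.T2h61.CG Pool.Agent.T2h61.CH Pool.Agent.T2h61.CH.Bo

variable {F : Type} [Field F] [NumberField F]

theorem fl_bo (𝔞 : Ideal (𝓞 F)) (L : Submodule (𝓞 F) (Fin 2 → F)) :
    fl (fl L ⊔ 𝔞 • L) = fl L :=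
  le_antisymm (fl_mono (bo_le 𝔞 L)) fun _ hy => ⟨Submodule.mem_sup_left hy, hy.2⟩

theorem bo_bo (𝔞 𝔟 : Ideal (𝓞 F)) (L : Submodule (𝓞 F) (Fin 2 → F)) :
    fl (fl L ⊔ 𝔞 • L) ⊔ 𝔟 • (fl L ⊔ 𝔞 • L) = fl L ⊔ (𝔞 * 𝔟) • L := by
  rw [fl_bo, Submodule.smul_sup, ← sup_assoc, sup_eq_left.2 (smul_le_self 𝔟 (fl L)),
    ← Submodule.mul_smul, mul_comm 𝔟 𝔞]

theorem t_BO2 : S_BO2 := by
  intro F _ _ R W _ _ _ 𝔪 𝔞 𝔟 a b c h𝔞 h𝔟 h𝔞m h𝔟m ha ha1 hb hb1 hc hc1 φ hφ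
  funext x
  by_cases hx : Ok 𝔪 x
  · have hx' := ok_bo h𝔞 ha ha1 hx
    rw [bo_pos hx, bo_pos hx', bo_pos hx]
    refine hφ.eq ⟨rfl, bo_bo 𝔞 𝔟 x.L, fun i => ?_⟩
    show b • a • x.e i - c • x.e i ∈ 𝔪 • (fl (fl x.L ⊔ 𝔞 • x.L) ⊔ 𝔟 • (fl x.L ⊔ 𝔞 • x.L))
    rw [bo_bo, smul_smul, ← sub_smul]
    have h1 : b * a - c ∈ 𝔪 ⊓ (𝔞 * 𝔟) := by
      refine ⟨?_, ?_⟩
      · have h8 : b * a - c = (b - 1) * a + (a - 1) - (c - 1) := by ring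
        rw [h8]
        exact 𝔪.sub_mem (𝔪.add_mem (𝔪.mul_mem_right _ hb1) ha1) hc1
      · refine (𝔞 * 𝔟).sub_mem ?_ hc
        rw [mul_comm b a]
        exact Ideal.mul_mem_mul ha hb
    have hcop : IsCoprime 𝔪 (𝔞 * 𝔟) := (IsCoprime.mul_left h𝔞m h𝔟m).symm
    rw [← Ideal.mul_eq_inf_of_isCoprime hcop] at h1
    have h2 : (b * a - c) • x.e i ∈ (𝔪 * (𝔞 * 𝔟)) • x.L := Submodule.smul_mem_smul h1 (hx.2.1 i)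
    rw [Submodule.mul_smul] at h2
    exact Submodule.smul_mono le_rfl le_sup_right h2
  · rw [bo_neg hx, bo_neg hx]

end Pool.Agent.T2h61.CH.TBO2
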