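import Pool.Agent.T2h61.CH.Stm

/-!
# Task GSW: no element swaps two eigenlines of another element
-/

set_option autoImplicit false

open Matrix

noncomputable section

namespace Pool.Agent.T2h61.CH.TGSW

variable {k : Type} [Field k]

/-- a root of the characteristic polynomial has an eigenvector -/
lemma exists_vec (M : Matrix (Fin 2) (Fin 2) k) (t : k) (h : M.charpoly.eval t = 0) :
    ∃ v : Fin 2 → k, v ≠ 0 ∧ M *ᵥ v = t • v := by
  rw [Matrix.eval_charpoly] at h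
  obtain ⟨v, hv, h1⟩ := Matrix.exists_mulVec_eq_zero_iff.2 h
  refine ⟨v, hv, ?_⟩
  rw [Matrix.sub_mulVec, sub_eq_zero] at h1
  rw [← h1, Matrix.scalar_apply, ← Matrix.smul_one_eq_diagonal, Matrix.smul_mulVec, Matrix.one_mulVec]

/-- eigenvectors for different eigenvalues are independent -/
lemma indep {M : Matrix (Fin 2) (Fin 2) k} {w₁ w₂ : Fin 2 → k} {a b : k} (h1 : w₁ ≠ 0) (h2 : w₂ ≠ 0)
    (hab : a ≠ b) (e1 : M *ᵥ w₁ = a • w₁) (e2 : M *ᵥ w₂ = b • w₂) : LinearIndependent k ![w₁, w₂] := by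
  rw [LinearIndependent.pair_iff]
  intro s t h
  have h3 := congrArg (fun v => M *ᵥ v) h
  simp only [Matrix.mulVec_add, Matrix.mulVec_smul, e1, e2, Matrix.mulVec_zero] at h3
  have h4 : (t * (b - a)) • w₂ = 0 := by
    have : (t * (b - a)) • w₂ = (s • a • w₁ + t • b • w₂) - a • (s • w₁ + t • w₂) := by module
    rw [this, h3, h, smul_zero, sub_zero]
  have ht : t = 0 := by
    rcases smul_eq_zero.1 h4 with h5 | h5
    · exact (mul_eq_zero.1 h5).resolve_right (sub_ne_zero.2 hab.symm)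
    · exact absurd h5 h2
  refine ⟨?_, ht⟩
  rw [ht, zero_smul, add_zero] at h
  exact (smul_eq_zero.1 h).resolve_right h1

/-- two independent vectors span -/
lemma span_pair {w₁ w₂ : Fin 2 → k} (h : LinearIndependent k ![w₁, w₂]) (v : Fin 2 → k) :
    ∃ s t : k, v = s • w₁ + t • w₂ := by
  have h1 := h.span_eq_top_of_card_eq_finrank (by simp)
  have h2 : v ∈ Submodule.span k (Set.range ![w₁, w₂]) := by rw [h1]; exact Submodule.mem_top
  rw [Matrix.range_cons_cons_empty, Submodule.mem_span_pair] at h2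
  obtain ⟨s, t, h3⟩ := h2
  exact ⟨s, t, h3.symm⟩

/-- matrices which agree on two independent vectors are equal -/
lemma ext_pair {M N : Matrix (Fin 2) (Fin 2) k} {w₁ w₂ : Fin 2 → k}
    (h : LinearIndependent k ![w₁, w₂]) (h1 : M *ᵥ w₁ = N *ᵥ w₁) (h2 : M *ᵥ w₂ = N *ᵥ w₂) : M = N := by
  apply Matrix.toLin'.injective
  apply LinearMap.ext
  intro v
  obtain ⟨s, t, rfl⟩ := span_pair h v
  rw [Matrix.toLin'_apply, Matrix.toLin'_apply]
  simp only [Matrix.mulVec_add, Matrix.mulVec_smul, h1, h2]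

/-- the eigenvalues -/
lemma eig_pair {M : Matrix (Fin 2) (Fin 2) k} {w₁ w₂ : Fin 2 → k} {a b : k}
    (hi : LinearIndependent k ![w₁, w₂]) (e1 : M *ᵥ w₁ = a • w₁) (e2 : M *ᵥ w₂ = b • w₂) {v : Fin 2 → k}
    {t : k} (hv : v ≠ 0) (e : M *ᵥ v = t • v) : t = a ∨ t = b := by
  obtain ⟨x, y, rfl⟩ := span_pair hi v
  rw [Matrix.mulVec_add, Matrix.mulVec_smul, Matrix.mulVec_smul, e1, e2] at e
  have h1 : (x * (a - t)) • w₁ + (y * (b - t)) • w₂ = 0 := by
    have : (x * (a - t)) • w₁ + (y * (b - t)) • w₂ = (x • a • w₁ + y • b • w₂) - t • (x • w₁ + y • w₂) := by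
      module
    rw [this, e, sub_self]
  obtain ⟨h2, h3⟩ := (LinearIndependent.pair_iff.1 hi) _ _ h1
  by_contra hc
  push Not at hc
  have hx : x = 0 := (mul_eq_zero.1 h2).resolve_right (fun h => hc.1 (sub_eq_zero.1 h).symm)
  have hy : y = 0 := (mul_eq_zero.1 h3).resolve_right (fun h => hc.2 (sub_eq_zero.1 h).symm)
  apply hv
  rw [hx, hy, zero_smul, zero_smul, add_zero]

lemma mv_mul {G : Type} [Group G] (ρ : G →* GL (Fin 2) k) (g h : G) (v : Fin 2 → k) :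
    (ρ (g * h)).1 *ᵥ v = (ρ g).1 *ᵥ ((ρ h).1 *ᵥ v) := by
  rw [map_mul, Matrix.mulVec_mulVec]
  rfl

lemma mv_inv {G : Type} [Group G] (ρ : G →* GL (Fin 2) k) (g : G) (v w : Fin 2 → k)
    (h : (ρ g).1 *ᵥ v = w) : (ρ g⁻¹).1 *ᵥ w = v := by
  rw [← h, ← mv_mul, inv_mul_cancel, map_one]
  exact Matrix.one_mulVec v

lemma mv_ne {G : Type} [Group G] (ρ : G →* GL (Fin 2) k) (g : G) (v : Fin 2 → k) (hv : v ≠ 0) :
    (ρ g).1 *ᵥ v ≠ 0 := by
  intro h
  apply hv
  have := mv_inv ρ g v 0 h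
  rw [← this, Matrix.mulVec_zero]

theorem t_GSW : S_GSW := by
  intro G k _ _ ρ ψ hinj hGH g x w₁ w₂ a b c d hw1 hw2 hab e1 e2 f1 f2
  have hi := indep hw1 hw2 hab e1 e2
  have hc : c ≠ 0 := by
    rintro rfl
    rw [zero_smul] at f1
    exact mv_ne ρ x w₁ hw1 f1
  have hd : d ≠ 0 := by
    rintro rfl
    rw [zero_smul] at f2
    exact mv_ne ρ x w₂ hw2 f2
  have ha : a ≠ 0 := by
    rintro rfl
    rw [zero_smul] at e1
    exact mv_ne ρ g w₁ hw1 e1
  have hb : b ≠ 0 := by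
    rintro rfl
    rw [zero_smul] at e2
    exact mv_ne ρ g w₂ hw2 e2
  have i1 : (ρ x⁻¹).1 *ᵥ w₂ = c⁻¹ • w₁ := by
    have := mv_inv ρ x w₁ _ f1
    rw [Matrix.mulVec_smul] at this
    rw [← this, smul_smul, inv_mul_cancel₀ hc, one_smul]
  have i2 : (ρ x⁻¹).1 *ᵥ w₁ = d⁻¹ • w₂ := by
    have := mv_inv ρ x w₂ _ f2
    rw [Matrix.mulVec_smul] at this
    rw [← this, smul_smul, inv_mul_cancel₀ hd, one_smul]
  obtain ⟨g', hg'⟩ : ∃ g', g' = x * g * x⁻¹ := ⟨_, rfl⟩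
  have j2 : (ρ g').1 *ᵥ w₂ = a • w₂ := by
    rw [hg', mv_mul, mv_mul, i1, Matrix.mulVec_smul, e1, Matrix.mulVec_smul, Matrix.mulVec_smul, f1]
    rw [smul_smul, smul_smul]
    congr 1
    field_simp
  have j1 : (ρ g').1 *ᵥ w₁ = b • w₁ := by
    rw [hg', mv_mul, mv_mul, i2, Matrix.mulVec_smul, e2, Matrix.mulVec_smul, Matrix.mulVec_smul, f2]
    rw [smul_smul, smul_smul]
    congr 1
    field_simp
  have k1 : (ρ (g * g')).1 *ᵥ w₁ = (a * b) • w₁ := by
    rw [mv_mul, j1, Matrix.mulVec_smul, e1, smul_smul, mul_comm]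
  have k2 : (ρ (g * g')).1 *ᵥ w₂ = (a * b) • w₂ := by
    rw [mv_mul, j2, Matrix.mulVec_smul, e2, smul_smul]
  have hcomm : g * g' = g' * g := by
    apply hinj
    apply Units.ext
    apply ext_pair hi
    · rw [k1, mv_mul, e1, Matrix.mulVec_smul, j1, smul_smul]
    · rw [k2, mv_mul, e2, Matrix.mulVec_smul, j2, smul_smul, mul_comm]
  obtain ⟨v, hv, e⟩ := exists_vec _ _ (hGH.eig (g * g'))
  have h1 : ((ψ (g * g') : kˣ) : k) = a * b := by
    rcases eig_pair hi k1 k2 hv e with h | h <;> exact h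
  rw [hGH.mul g g' hcomm, hg', hGH.cls x g, Units.val_mul] at h1
  obtain ⟨v', hv', e'⟩ := exists_vec _ _ (hGH.eig g)
  rcases eig_pair hi e1 e2 hv' e' with h | h
  · rw [h] at h1
    exact hab (mul_left_cancel₀ ha h1)
  · rw [h] at h1
    exact hab (mul_right_cancel₀ hb h1).symm

end Pool.Agent.T2h61.CH.TGSW
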