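import Pool.Agent.T2h61.CH.Stm

/-!
# Task GTR: a class function which is multiplicative on commuting pairs and on the subgroups of prime
power order is a homomorphism (by the transfer)
-/

set_option autoImplicit false

noncomputable section

namespace Pool.Agent.T2h61.CH.TGTR

open MulAction Subgroup

theorem t_GTR : S_GTR := by
  classical
  intro G k _ _ _ ψ hcls hmul hP g h
  have hone : ψ 1 = 1 := by
    have := hmul 1 1 rfl
    rw [one_mul] at this
    exact (mul_eq_left.1 this.symm)
  have hpow : ∀ (x : G) (n : ℕ), ψ (x ^ n) = ψ x ^ n := by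
    intro x n
    induction n with
    | zero => rw [pow_zero, pow_zero, hone]
    | succ n ih => rw [pow_succ, hmul _ _ (Commute.pow_left (Commute.refl x) n).eq, ih, pow_succ]
  -- the transfer
  have key : ∀ (ℓ : ℕ) (_ : Fact ℓ.Prime) (P : Sylow ℓ G),
      ψ (g * h) ^ (P : Subgroup G).index = ψ g ^ (P : Subgroup G).index * ψ h ^ (P : Subgroup G).index := by
    intro ℓ hℓ P
    let f : (P : Subgroup G) →* kˣ :=
      { toFun := fun x => ψ x
        map_one' := hone
        map_mul' := fun x y => hP ℓ hℓ.out P P.isPGroup' x x.2 y y.2 }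
    have hV : ∀ x : G, MonoidHom.transfer f x = ψ x ^ (P : Subgroup G).index := by
      intro x
      let := (P : Subgroup G).fintypeQuotientOfFiniteIndex
      rw [MonoidHom.transfer_eq_prod_quotient_orbitRel_zpowers_quot,
        index_eq_sum_minimalPeriod (P : Subgroup G) x, ← Finset.prod_pow_eq_pow_sum]
      refine Finset.prod_congr rfl fun q _ => ?_
      show ψ (q.out.out⁻¹ * x ^ Function.minimalPeriod (x • ·) q.out * q.out.out) = _
      have := hcls (q.out.out⁻¹) (x ^ Function.minimalPeriod (x • ·) q.out)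
      rw [inv_inv] at this
      rw [this, hpow]
    rw [← hV, ← hV, ← hV, map_mul]
  -- conclusion
  obtain ⟨c, hc⟩ : ∃ c, c = ψ (g * h) * (ψ g * ψ h)⁻¹ := ⟨_, rfl⟩
  have hc1 : c = 1 := by
    rw [← orderOf_eq_one_iff]
    by_contra hne
    obtain ⟨ℓ, hℓ, hd⟩ := Nat.exists_prime_and_dvd hne
    have : Fact ℓ.Prime := ⟨hℓ⟩
    let P : Sylow ℓ G := default
    apply P.not_dvd_index
    refine hd.trans (orderOf_dvd_of_pow_eq_one ?_)
    rw [hc, mul_pow, key ℓ this P, inv_pow, mul_pow, mul_inv_cancel]
  rw [hc1] at hc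
  rw [eq_comm, mul_inv_eq_one] at hc
  exact hc

end Pool.Agent.T2h61.CH.TGTR
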