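import Pool.Agent.T2h61.CH.Stm

/-!
# `H¹_c` for `GL_2`: ray class characters on products
-/

set_option autoImplicit false

open NumberField IsDedekindDomain

noncomputable section

namespace Pool.Agent.T2h61.CH.TRCM

open Pool.Agent.T2h61.CG

variable {F : Type} [Field F] [NumberField F]

theorem exists_ms (I : Ideal (𝓞 F)) (hI : I ≠ ⊥) :
    ∃ s : Multiset (HeightOneSpectrum (𝓞 F)), (s.map fun v => v.asIdeal).prod = I := by
  revert hI
  refine UniqueFactorizationMonoid.induction_on_prime I ?_ ?_ ?_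
  · intro h
    exact absurd rfl h
  · intro x hx _
    refine ⟨0, ?_⟩
    rw [Multiset.map_zero, Multiset.prod_zero]
    exact ((Ideal.isUnit_iff).1 hx).symm ▸ Ideal.one_eq_top
  · intro J p hJ hp ih _
    obtain ⟨s, hs⟩ := ih hJ
    have hpb : p ≠ ⊥ := hp.ne_zero
    refine ⟨(⟨p, Ideal.isPrime_of_prime hp, hpb⟩ : HeightOneSpectrum (𝓞 F)) ::ₘ s, ?_⟩
    rw [Multiset.map_cons, Multiset.prod_cons, hs]

theorem ms_inj (s t : Multiset (HeightOneSpectrum (𝓞 F)))
    (h : (s.map fun v => v.asIdeal).prod = (t.map fun v => v.asIdeal).prod) : s = t := by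
  have h1 : ∀ u : Multiset (HeightOneSpectrum (𝓞 F)),
      UniqueFactorizationMonoid.normalizedFactors (u.map fun v => v.asIdeal).prod =
        u.map fun v => v.asIdeal := by
    intro u
    apply UniqueFactorizationMonoid.normalizedFactors_prod_of_prime
    intro p hp
    obtain ⟨v, _, rfl⟩ := Multiset.mem_map.1 hp
    exact v.prime
  have h2 : (s.map fun v => v.asIdeal) = t.map fun v => v.asIdeal := by
    rw [← h1 s, ← h1 t, h]
  exact Multiset.map_injective (fun v w hvw => HeightOneSpectrum.ext hvw) h2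

theorem t_RCM : S_RCM := by
  intro F _ _ k _ χ 𝔪 hRC s t a b ha hb ha1 hb1 hTa hTb hab
  obtain ⟨sa, hsa⟩ := exists_ms (Ideal.span {a}) (by
    rw [Ne, Ideal.span_singleton_eq_bot]; exact ha)
  obtain ⟨sb, hsb⟩ := exists_ms (Ideal.span {b}) (by
    rw [Ne, Ideal.span_singleton_eq_bot]; exact hb)
  have h1 := hRC sa a ha ha1 hTa hsa
  have h2 := hRC sb b hb hb1 hTb hsb
  have h3 : sa + s = sb + t := by
    apply ms_inj
    rw [Multiset.map_add, Multiset.prod_add, Multiset.map_add, Multiset.prod_add, hsa, hsb, hab]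
  have h4 : ((sa + s).map χ).prod = ((sb + t).map χ).prod := by rw [h3]
  rwa [Multiset.map_add, Multiset.prod_add, Multiset.map_add, Multiset.prod_add, h1, h2, one_mul,
    one_mul] at h4

end Pool.Agent.T2h61.CH.TRCM
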